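import Mathlib

/-!
# `d`-fold `k`-colourable graphs: definitions
-/

set_option autoImplicit false

namespace Pool.Agent.Lib.MP_70fc77_co

/-- `r` is a `k`-colouring of `G`: a partition of the vertex set of `G` into at most `k` anticliques.
The partition is given by the equivalence relation `r` whose classes are its parts. -/
def IsColouring {V : Type} (G : SimpleGraph V) (k : ℕ) (r : Setoid V) : Prop :=
  (∀ x y, r x y → ¬ G.Adj x y) ∧ Nat.card (Quotient r) ≤ k

/-- `G` is `d`-fold `k`-colourable: it has `d` pairwise distinct `k`-colourings. -/
def FoldColourable {V : Type} (d k : ℕ) (G : SimpleGraph V) : Prop :=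
  ∃ c : Fin d → Setoid V, Function.Injective c ∧ ∀ i, IsColouring G k (c i)

/-- `G` is maximal `d`-fold `k`-colourable: it is `d`-fold `k`-colourable, and adding any edge
between two distinct nonadjacent vertices destroys this property. -/
def MaxFoldColourable {V : Type} (d k : ℕ) (G : SimpleGraph V) : Prop :=
  FoldColourable d k G ∧
    ∀ x y, x ≠ y → ¬ G.Adj x y → ¬ FoldColourable d k (G ⊔ SimpleGraph.edge x y)

/-- The set of all numbers of edges of maximal `d`-fold `k`-colourable graphs on `n` vertices; its
greatest element is `f_d(n, k)`. -/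
def edgeCounts (d n k : ℕ) : Set ℕ :=
  {e | ∃ G : SimpleGraph (Fin n), MaxFoldColourable d k G ∧ G.edgeSet.ncard = e}

/-- `ex n r` is `ex(n, K_{r+1})`, the maximum number of edges of a graph on `n` vertices without a
complete subgraph on `r + 1` vertices. -/
noncomputable def ex (n r : ℕ) : ℕ :=
  SimpleGraph.extremalNumber n (⊤ : SimpleGraph (Fin (r + 1)))

/-- The number of partitions of the vertex set of the Turan graph `T(n, r)` into at most `r + 1`
anticliques. -/
def turanColourings (n r : ℕ) : ℕ :=
  1 + (n % r) * (2 ^ (n / r) - 1) + (r - n % r) * (2 ^ (n / r - 1) - 1)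

/-- `minEdges d t` is the least `m` such that an `m`-element set has at least `d` subsets with at
least `t` elements. -/
noncomputable def minEdges (d t : ℕ) : ℕ := sInf {m | d ≤ ∑ j ∈ Finset.Icc t m, m.choose j}

/-- The value of `f_d(n, k)`. Here `Nat.clog 2 d` is the upper integer part of the binary logarithm
of `d`, and the subtraction `n - k` is truncated, so it is `max (n - k) 0`. -/
noncomputable def fValue (d n k : ℕ) : ℕ :=
  if (k - 1) * Nat.clog 2 d < n then ex (n + Nat.clog 2 d) k - n * Nat.clog 2 d
  else if d ≤ turanColourings n (k - 1) then ex n (k - 1)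
  else n.choose 2 - minEdges d (n - k)

end Pool.Agent.Lib.MP_70fc77_co
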