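import Mathlib
import Pool.Agent.Lib.MP_70fc77_co.Defs

/-!
# The extremal graphs: definitions
-/

set_option autoImplicit false

namespace Pool.Agent.Lib.MP_70fc77_co

/-- `G` arises from the complete `k`-partite graph whose parts are the fibres of `p` by deleting all
edges between the part of `a` and the `L`-element set `F`, which does not meet that part; and the
sizes of the parts, `L` being added to the size of the part of `a`, pairwise differ by at most one. -/
def IsReducedTuran {V : Type} (G : SimpleGraph V) (k L : ℕ) (p : V → Fin k) (a : Fin k)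
    (F : Set V) : Prop :=
  F.ncard = L ∧ (∀ x ∈ F, p x ≠ a) ∧
  (∀ x y, G.Adj x y ↔ p x ≠ p y ∧ ¬ (x ∈ F ∧ p y = a) ∧ ¬ (y ∈ F ∧ p x = a)) ∧
  ∀ i j, {x | p x = i}.ncard + (if i = a then L else 0) ≤
    {x | p x = j}.ncard + (if j = a then L else 0) + 1

/-- all of `F` in one part, which has a further vertex -/
def TypeA {V : Type} (G : SimpleGraph V) (k L : ℕ) : Prop :=
  ∃ (p : V → Fin k) (a : Fin k) (F : Set V), IsReducedTuran G k L p a F ∧
    ∃ b, (∀ x ∈ F, p x = b) ∧ ∃ x, x ∉ F ∧ p x = b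

/-- all of `F` but one vertex in one part, one vertex in another part, and the part of `a` is not
empty -/
def TypeB {V : Type} (G : SimpleGraph V) (k L : ℕ) : Prop :=
  ∃ (p : V → Fin k) (a : Fin k) (F : Set V), IsReducedTuran G k L p a F ∧
    (∃ x, p x = a) ∧ ∃ b, ∃ w ∈ F, p w ≠ b ∧ ∀ x ∈ F, x ≠ w → p x = b

/-- the sporadic graphs -/
def TypeC {V : Type} (G : SimpleGraph V) (k L : ℕ) : Prop :=
  ∃ (p : V → Fin k) (a b : Fin k) (x₁ x₂ y₁ y₂ : V), a ≠ b ∧
    p x₁ = a ∧ p y₁ = a ∧ p x₂ = b ∧ p y₂ = b ∧ x₁ ≠ y₁ ∧ x₂ ≠ y₂ ∧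
    {x | p x = a}.ncard = 2 ∧ {x | p x = b}.ncard = L + 1 ∧
    (∀ i, i ≠ a → i ≠ b → {x | p x = i}.ncard = L + 1 ∨ {x | p x = i}.ncard = L + 2) ∧
    ∀ x y, G.Adj x y ↔ p x ≠ p y ∧
      (p x = a → p y = b → (x = x₁ ∧ y = x₂) ∨ (x = y₁ ∧ y = y₂)) ∧
      (p x = b → p y = a → (x = x₂ ∧ y = x₁) ∨ (x = y₂ ∧ y = y₁))

/-- The number of subsets with at least `t` elements of an `m`-element set. -/
def subsetCount (m t : ℕ) : ℕ := ∑ j ∈ Finset.Icc t m, m.choose j

/-- The complement of `G` has exactly `m` edges and maximum degree at most two, and for the set `S` of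
its vertices of degree two one of the following holds: `S` is empty; `S` has one element and the first
inequality holds; `S` consists of two vertices nonadjacent in the complement and the second inequality
holds; `S` consists of two or three vertices pairwise adjacent in the complement and the third
inequality holds. -/
def TypeM {V : Type} (G : SimpleGraph V) (d m t : ℕ) : Prop :=
  Gᶜ.edgeSet.ncard = m ∧ (∀ v, (Gᶜ.neighborSet v).ncard ≤ 2) ∧
  ∃ S : Set V, S = {v | (Gᶜ.neighborSet v).ncard = 2} ∧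
    (S = ∅ ∨
    (S.ncard = 1 ∧ d ≤ subsetCount (m - 1) t + subsetCount (m - 2) (t - 1)) ∨
    (S.ncard = 2 ∧ (∀ x ∈ S, ∀ y ∈ S, ¬ Gᶜ.Adj x y) ∧
      d ≤ subsetCount (m - 2) t + 2 * subsetCount (m - 3) (t - 1) +
        subsetCount (m - 4) (t - 2)) ∨
    ((S.ncard = 2 ∨ S.ncard = 3) ∧ (∀ x ∈ S, ∀ y ∈ S, x ≠ y → Gᶜ.Adj x y) ∧
      d ≤ subsetCount (m - 1) t + subsetCount (m - 3) (t - 1)))

/-- The list of extremal graphs. -/
def IsExtremal (d k : ℕ) {n : ℕ} (G : SimpleGraph (Fin n)) : Prop :=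
  if (k - 1) * Nat.clog 2 d < n then
    TypeA G k (Nat.clog 2 d) ∨
    (d = 2 ^ (Nat.clog 2 d - 1) + 1 ∧ TypeB G k (Nat.clog 2 d)) ∨
    TypeC G k (Nat.clog 2 d)
  else if d ≤ turanColourings n (k - 1) then Nonempty (G ≃g SimpleGraph.turanGraph n (k - 1))
  else TypeM G d (minEdges d (n - k)) (n - k)

end Pool.Agent.Lib.MP_70fc77_co
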