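import Mathlib
import Pool.Agent.Lib.MP_70fc77_co.Defs

set_option autoImplicit false

namespace Pool.Agent.Lib.MP_70fc77_co

open Finset SimpleGraph

/-- the Turan numbers, by recursion -/
def tau (k n : ℕ) : ℕ := ∑ j ∈ range n, (j - j / k)

lemma tau_succ (k n : ℕ) : tau k (n + 1) = tau k n + (n - n / k) := by
  rw [tau, sum_range_succ, tau]

lemma tau_zero (k : ℕ) : tau k 0 = 0 := by simp [tau]

lemma sum_lt_swap (n : ℕ) (f : ℕ → ℕ → ℕ) (hs : ∀ a b, f a b = f b a) (h0 : ∀ a, f a a = 0) :
    ∑ a ∈ range n, ∑ b ∈ range n, f a b = 2 * ∑ a ∈ range n, ∑ b ∈ range a, f a b := by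
  induction n with
  | zero => simp
  | succ n ih =>
    rw [sum_range_succ, sum_range_succ (fun a => ∑ b ∈ range a, f a b)]
    have h1 : ∑ x ∈ range n, ∑ b ∈ range (n + 1), f x b =
        ∑ x ∈ range n, ∑ b ∈ range n, f x b + ∑ x ∈ range n, f x n := by
      rw [← sum_add_distrib]
      exact sum_congr rfl fun x _ => sum_range_succ _ _
    rw [h1, ih, sum_range_succ (f n), h0]
    have h2 : ∑ x ∈ range n, f x n = ∑ x ∈ range n, f n x := sum_congr rfl fun x _ => hs _ _
    rw [h2]
    ring

lemma count_mod (k j : ℕ) (hk : 0 < k) :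
    ∑ b ∈ range j, (if j % k ≠ b % k then 1 else 0) = j - j / k := by
  have h1 : #{b ∈ range j | j % k ≠ b % k} + #{b ∈ range j | ¬ (j % k ≠ b % k)} = j := by
    rw [card_filter_add_card_filter_not, card_range]
  have h2 : #{b ∈ range j | ¬ (j % k ≠ b % k)} = j / k := by
    have : {b ∈ range j | ¬ (j % k ≠ b % k)} = (range (j / k)).image (fun i => j % k + k * i) := by
      ext b
      simp only [mem_filter, mem_range, mem_image, not_not]
      constructor
      · rintro ⟨hb, h⟩
        refine ⟨b / k, ?_, ?_⟩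
        · by_contra hlt
          push Not at hlt
          have e1 := Nat.mod_add_div j k
          have e2 := Nat.mod_add_div b k
          have : k * (j / k) ≤ k * (b / k) := Nat.mul_le_mul_left _ hlt
          omega
        · rw [h]; exact Nat.mod_add_div b k
      · rintro ⟨i, hi, rfl⟩
        constructor
        · have e1 := Nat.mod_add_div j k
          have : k * i + k ≤ k * (j / k) := by
            calc k * i + k = k * (i + 1) := by ring
              _ ≤ _ := Nat.mul_le_mul_left _ hi
          omega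
        · rw [Nat.add_mul_mod_self_left, Nat.mod_mod]
    rw [this, card_image_of_injective, card_range]
    intro a b hab
    simpa [hk.ne'] using hab
  rw [← card_filter]
  omega

set_option backward.isDefEq.respectTransparency.types false in
lemma card_turan (n k : ℕ) (hk : 0 < k) : #(turanGraph n k).edgeFinset = tau k n := by
  have h : 2 * #(turanGraph n k).edgeFinset = 2 * tau k n := by
    rw [← sum_degrees_eq_twice_card_edges]
    simp_rw [degree, neighborFinset_eq_filter, turanGraph, card_filter]
    have e1 : ∀ v : Fin n, ∑ w : Fin n, (if (v : ℕ) % k ≠ (w : ℕ) % k then 1 else 0) =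
        ∑ w ∈ range n, (if (v : ℕ) % k ≠ w % k then 1 else 0) := fun v =>
      Fin.sum_univ_eq_sum_range (fun w => if (v : ℕ) % k ≠ w % k then 1 else 0) n
    simp_rw [e1]
    rw [Fin.sum_univ_eq_sum_range
      (fun v => ∑ w ∈ range n, (if v % k ≠ w % k then 1 else 0)) n]
    rw [sum_lt_swap n (fun v w => if v % k ≠ w % k then 1 else 0)]
    · congr 1
      rw [tau]
      exact sum_congr rfl fun j _ => count_mod k j hk
    · intro a b
      simp only [ne_comm]
    · intro a; simp
  omega

lemma ex_eq (n k : ℕ) (hk : 0 < k) : ex n k = tau k n := by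
  have : Nontrivial (Fin (k + 1)) := Fin.nontrivial_iff_two_le.2 (by omega)
  have e : Fintype.card (Fin (k + 1)) - 1 = k := by rw [Fintype.card_fin]; rfl
  have key : ∀ j, j = k → #(turanGraph n j).edgeFinset = tau k n := by
    rintro j rfl
    exact card_turan n j hk
  rw [ex, extremalNumber_top]
  exact key _ e

/-- Turan's bound -/
lemma turan_le {V : Type} [Fintype V] (G : SimpleGraph V) (k : ℕ) (hk : 0 < k)
    (h : G.CliqueFree (k + 1)) : G.edgeSet.ncard ≤ tau k (Fintype.card V) := by
  classical
  rw [← ex_eq _ _ hk, ex]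
  have h0 : (⊤ : SimpleGraph (Fin (k + 1))).Free G := by
    rw [← cliqueFree_iff_top_free, Fintype.card_fin]
    exact h
  have h1 := card_edgeFinset_le_extremalNumber h0
  rwa [edgeFinset, ← Set.ncard_eq_toFinset_card'] at h1

lemma two_tau (k N : ℕ) (hk : 0 < k) :
    2 * (tau k N : ℤ) + (2 * ((N / k : ℕ) : ℤ) + 1) * N =
      N ^ 2 + k * ((N / k : ℕ) : ℤ) * (((N / k : ℕ) : ℤ) + 1) := by
  induction N with
  | zero => simp [tau_zero]
  | succ N ih =>
    rw [tau_succ]
    have hle : N / k ≤ N := Nat.div_le_self _ _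
    by_cases hd : k ∣ N + 1
    · have h1 : (N + 1) / k = N / k + 1 := by
        rw [Nat.succ_div, if_pos hd]
      obtain ⟨c, hc⟩ := hd
      have h2 : N / k + 1 = c := by
        rw [← h1, hc, Nat.mul_div_cancel_left _ hk]
      rw [h1]
      have h3 : (N : ℤ) + 1 = k * (((N / k : ℕ) : ℤ) + 1) := by
        have : ((N + 1 : ℕ) : ℤ) = ((k * c : ℕ) : ℤ) := by rw [hc]
        rw [← h2] at this
        rw [Nat.cast_mul, Nat.cast_add, Nat.cast_add] at this
        exact this
      generalize N / k = Q at *
      push_cast [Nat.cast_sub hle]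
      linear_combination ih + 2 * h3
    · have h1 : (N + 1) / k = N / k := by
        rw [Nat.succ_div, if_neg hd]; rfl
      rw [h1]
      clear hd h1
      generalize N / k = Q at *
      push_cast [Nat.cast_sub hle]
      linear_combination ih

lemma two_tau_le (k N q : ℕ) (hk : 0 < k) :
    2 * (tau k N : ℤ) + (2 * (q : ℤ) + 1) * N ≤ N ^ 2 + k * (q : ℤ) * ((q : ℤ) + 1) := by
  have h1 := two_tau k N hk
  set Q := N / k with hQ
  have h2 := Nat.mod_add_div N k
  rw [← hQ] at h2
  have h3 := Nat.mod_lt N hk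
  set r := N % k
  have h4 : (N : ℤ) = r + k * Q := by exact_mod_cast h2.symm
  have h5 : (r : ℤ) < k := by exact_mod_cast h3
  have h6 : (0 : ℤ) ≤ r := by positivity
  rcases lt_trichotomy q Q with h | h | h
  · have h7 : (q : ℤ) + 1 ≤ Q := by exact_mod_cast h
    have h8 : 0 ≤ ((Q : ℤ) - q) * (k * (Q - q - 1) + 2 * r) := by
      apply mul_nonneg
      · linarith
      · have : 0 ≤ (k : ℤ) * (Q - q - 1) := mul_nonneg (by positivity) (by linarith)
        linarith
    nlinarith [h8, h1, h4]
  · subst h
    linarith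
  · have h7 : (Q : ℤ) + 1 ≤ q := by exact_mod_cast h
    have h8 : 0 ≤ ((q : ℤ) - Q) * (k * (q - Q + 1) - 2 * r) := by
      apply mul_nonneg
      · linarith
      · have : (k : ℤ) * 2 ≤ (k : ℤ) * (q - Q + 1) :=
          mul_le_mul_of_nonneg_left (by linarith) (by positivity)
        linarith
    nlinarith [h8, h1, h4]

/-- `T_k(n)` joined with an independent set -/
lemma tau_add_le (k n L : ℕ) (hk : 0 < k) : tau k n + n * L ≤ tau (k + 1) (n + L) := by
  have h1 := two_tau (k + 1) (n + L) (by omega)
  set q := (n + L) / (k + 1)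
  have h2 := two_tau_le k n q hk
  have h3 : 0 ≤ ((L : ℤ) - q) * (L - q - 1) := by
    rcases lt_or_ge (q : ℤ) L with h | h
    · exact mul_nonneg (by linarith) (by linarith [Int.add_one_le_iff.2 h])
    · exact mul_nonneg_of_nonpos_of_nonpos (by linarith) (by linarith)
  push_cast at h1
  have : (tau k n : ℤ) + n * L ≤ tau (k + 1) (n + L) := by nlinarith
  exact_mod_cast this

end Pool.Agent.Lib.MP_70fc77_co
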