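import Mathlib
import Pool.Agent.Lib.MP_70fc77_co.Turan

set_option autoImplicit false

namespace Pool.Agent.Lib.MP_70fc77_co

open Finset SimpleGraph

/-- number of colourings -/
noncomputable def numCol {V : Type} (G : SimpleGraph V) (k : ℕ) : ℕ :=
  Nat.card {r : Setoid V // IsColouring G k r}

/-- number of edges -/
noncomputable def eN {V : Type} (G : SimpleGraph V) : ℕ := G.edgeSet.ncard

/-- size of the closed non-neighbourhood -/
noncomputable def nn {V : Type} (G : SimpleGraph V) (u : V) : ℕ := {y | ¬ G.Adj y u}.ncard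

lemma finite_setoid (V : Type) [Finite V] : Finite (Setoid V) :=
  Finite.of_injective (fun r : Setoid V => (fun x y => r x y : V → V → Prop)) (by
    intro r s h
    ext x y
    exact iff_of_eq (congrFun (congrFun h x) y))

lemma quot_comap_card {V W : Type} [Finite V] (r : Setoid V) (f : W → V) :
    Nat.card (Quotient (r.comap f)) ≤ Nat.card (Quotient r) := by
  refine Nat.card_le_card_of_injective
    (Quotient.lift (fun x => (Quotient.mk r (f x))) ?_) ?_
  · intro a b h
    exact Quotient.sound h
  · intro a b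
    induction a using Quotient.inductionOn
    induction b using Quotient.inductionOn
    intro h
    exact Quotient.sound (Quotient.exact h : r _ _)

lemma restr_col {V : Type} [Finite V] {G : SimpleGraph V} {k : ℕ} {r : Setoid V} (v : V)
    (h : IsColouring G k r) :
    IsColouring (G.induce {v}ᶜ) k (r.comap (Subtype.val : ({v}ᶜ : Set V) → V)) :=
  ⟨fun _ _ hxy => h.1 _ _ hxy, (quot_comap_card r _).trans h.2⟩

/-- every vertex is equivalent to a vertex of a given `k`-clique -/
lemma clique_cover {V : Type} [Finite V] {G : SimpleGraph V} {k : ℕ} {r : Setoid V}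
    (h : IsColouring G k r) {K : Finset V} (hK : G.IsNClique k K) (x : V) : ∃ u ∈ K, r x u := by
  have inj : Function.Injective (fun u : K => Quotient.mk r u.1) := by
    intro a b hab
    have hab' : r a.1 b.1 := Quotient.exact hab
    by_contra hne
    exact h.1 _ _ hab' (hK.1 a.2 b.2 (fun e => hne (Subtype.ext e)))
  have hb := inj.bijective_of_nat_card_le (by
    rw [Nat.card_eq_fintype_card (α := K), Fintype.card_coe, hK.2]; exact h.2)
  obtain ⟨u, hu⟩ := hb.2 (Quotient.mk r x)
  exact ⟨u.1, u.2, r.symm (Quotient.exact hu)⟩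

lemma clique_unique {V : Type} {G : SimpleGraph V} {k : ℕ} {r : Setoid V}
    (h : IsColouring G k r) {K : Finset V} (hK : G.IsNClique k K) {u v : V} (hu : u ∈ K)
    (hv : v ∈ K) (huv : r u v) : u = v := by
  by_contra hne
  exact h.1 _ _ huv (hK.1 hu hv hne)

lemma restr_inj {V : Type} [Finite V] {G : SimpleGraph V} {k : ℕ} {r s : Setoid V}
    (hr : IsColouring G k r) (hs : IsColouring G k s) {K : Finset V} (hK : G.IsNClique k K)
    {v : V} (hv : v ∈ K)
    (h : r.comap (Subtype.val : ({v}ᶜ : Set V) → V) = s.comap Subtype.val) : r = s := by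
  have key : ∀ x y, x ≠ v → y ≠ v → (r x y ↔ s x y) := by
    intro x y hx hy
    have := congrArg (fun t : Setoid ({v}ᶜ : Set V) => t ⟨x, hx⟩ ⟨y, hy⟩) h
    exact iff_of_eq this
  have key2 : ∀ r s : Setoid V, IsColouring G k r → IsColouring G k s →
      (∀ x y, x ≠ v → y ≠ v → (r x y ↔ s x y)) → ∀ x, x ≠ v → r x v → s x v := by
    intro r s hr hs key x hx hxv
    obtain ⟨u, hu, hxu⟩ := clique_cover hs hK x
    by_cases huv : u = v
    · rwa [huv] at hxu
    · have h1 : r x u := (key x u hx huv).2 hxu
      have h2 : r u v := r.trans (r.symm h1) hxv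
      exact absurd (clique_unique hr hK hu hv h2) huv
  ext x y
  by_cases hx : x = v
  · by_cases hy : y = v
    · subst hx; subst hy; exact ⟨fun _ => s.refl _, fun _ => r.refl _⟩
    · subst hx
      exact ⟨fun h => s.symm (key2 r s hr hs key y hy (r.symm h)),
        fun h => r.symm (key2 s r hs hr (fun a b ha hb => (key a b ha hb).symm) y hy (s.symm h))⟩
  · by_cases hy : y = v
    · subst hy
      exact ⟨fun h => key2 r s hr hs key x hx h,
        fun h => key2 s r hs hr (fun a b ha hb => (key a b ha hb).symm) x hx h⟩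
    · exact key x y hx hy

lemma numCol_del {V : Type} [Finite V] {G : SimpleGraph V} {k : ℕ} {K : Finset V}
    (hK : G.IsNClique k K) {v : V} (hv : v ∈ K) :
    numCol G k ≤ numCol (G.induce {v}ᶜ) k := by
  have := finite_setoid ({v}ᶜ : Set V)
  refine Nat.card_le_card_of_injective
    (fun r : {r : Setoid V // IsColouring G k r} =>
      (⟨r.1.comap Subtype.val, restr_col v r.2⟩ :
        {r : Setoid ({v}ᶜ : Set V) // IsColouring (G.induce {v}ᶜ) k r})) ?_
  intro r s h
  have := congrArg Subtype.val h
  exact Subtype.ext (restr_inj r.2 s.2 hK hv this)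

lemma numCol_le_prod {V : Type} [Fintype V] {G : SimpleGraph V} {k : ℕ} {K : Finset V}
    (hK : G.IsNClique k K) [DecidableEq V] [DecidableRel G.Adj] :
    numCol G k ≤ ∏ y : V, #{u ∈ K | ¬ G.Adj y u} := by
  have hfin := finite_setoid V
  choose f hf1 hf2 using fun (r : {r : Setoid V // IsColouring G k r}) (x : V) =>
    clique_cover r.2 hK x
  have hmem : ∀ r, f r ∈ Fintype.piFinset (fun y : V => {u ∈ K | ¬ G.Adj y u}) := by
    intro r
    rw [Fintype.mem_piFinset]
    intro y
    rw [mem_filter]
    exact ⟨hf1 r y, r.2.1 _ _ (hf2 r y)⟩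
  have inj : Function.Injective (fun r => (⟨f r, hmem r⟩ :
      Fintype.piFinset (fun y : V => {u ∈ K | ¬ G.Adj y u}))) := by
    intro r s hrs
    have hrs' : f r = f s := congrArg Subtype.val hrs
    have key : ∀ (r : {r : Setoid V // IsColouring G k r}) (x y : V),
        r.1 x y ↔ f r x = f r y := by
      intro r x y
      constructor
      · intro h
        exact clique_unique r.2 hK (hf1 r x) (hf1 r y)
          (r.1.trans (r.1.trans (r.1.symm (hf2 r x)) h) (hf2 r y))
      · intro h
        have h2 := hf2 r y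
        rw [← h] at h2
        exact r.1.trans (hf2 r x) (r.1.symm h2)
    apply Subtype.ext
    ext x y
    rw [key r, key s, hrs']
  have := Nat.card_le_card_of_injective _ inj
  rw [← Fintype.card_piFinset]
  rwa [Nat.card_eq_fintype_card (α := Fintype.piFinset (fun y : V => {u ∈ K | ¬ G.Adj y u})),
    Fintype.card_coe] at this

lemma two_mul_le_pow (a : ℕ) : 2 * a ≤ 2 ^ a := by
  induction a with
  | zero => simp
  | succ a ih =>
    rcases a with _ | a
    · simp
    · rw [pow_succ]; omega

lemma nn_eq {V : Type} [Fintype V] (G : SimpleGraph V) [DecidableRel G.Adj] (u : V) :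
    nn G u = #{y | ¬ G.Adj y u} := by
  rw [nn, Set.ncard_eq_toFinset_card']
  congr 1
  ext y
  simp

lemma sum_nn_ge {V : Type} [Fintype V] {G : SimpleGraph V} {k L : ℕ} {K : Finset V}
    (hK : G.IsNClique k K) (hL : 2 ^ L < 2 * numCol G k) :
    Fintype.card V + L ≤ ∑ u ∈ K, nn G u := by
  classical
  have h1 := numCol_le_prod hK
  have h2 : ∑ u ∈ K, nn G u = ∑ y : V, #{u ∈ K | ¬ G.Adj y u} := by
    simp_rw [nn_eq, card_filter]
    rw [sum_comm]
  rw [h2]
  have h3 : 2 ^ (Fintype.card V) * numCol G k ≤ 2 ^ (∑ y : V, #{u ∈ K | ¬ G.Adj y u}) := by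
    calc 2 ^ (Fintype.card V) * numCol G k
        ≤ 2 ^ (Fintype.card V) * ∏ y : V, #{u ∈ K | ¬ G.Adj y u} := Nat.mul_le_mul_left _ h1
      _ = ∏ y : V, (2 * #{u ∈ K | ¬ G.Adj y u}) := by
          rw [prod_mul_distrib, prod_const, card_univ]
      _ ≤ ∏ y : V, 2 ^ #{u ∈ K | ¬ G.Adj y u} := prod_le_prod' fun y _ => two_mul_le_pow _
      _ = _ := prod_pow_eq_pow_sum _ _ _
  have h4 : 2 ^ (Fintype.card V + L) < 2 ^ (∑ y : V, #{u ∈ K | ¬ G.Adj y u} + 1) := by
    calc 2 ^ (Fintype.card V + L) = 2 ^ (Fintype.card V) * 2 ^ L := pow_add _ _ _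
      _ < 2 ^ (Fintype.card V) * (2 * numCol G k) :=
          Nat.mul_lt_mul_of_pos_left hL (by positivity)
      _ = 2 * (2 ^ (Fintype.card V) * numCol G k) := by ring
      _ ≤ 2 * 2 ^ (∑ y : V, #{u ∈ K | ¬ G.Adj y u}) := Nat.mul_le_mul_left _ h3
      _ = _ := by ring
  have := (Nat.pow_lt_pow_iff_right (by norm_num : 1 < 2)).1 h4
  omega

lemma exists_nn_ge {V : Type} [Fintype V] {G : SimpleGraph V} {k L : ℕ} {K : Finset V}
    (hK : G.IsNClique k K) (hk : 0 < k) (hL : 2 ^ L < 2 * numCol G k) :
    ∃ u ∈ K, Fintype.card V + L ≤ k * nn G u := by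
  by_contra hcon
  push Not at hcon
  have h1 := sum_nn_ge hK hL
  have hne : K.Nonempty := by rw [← card_pos, hK.2]; exact hk
  have h2 : ∑ u ∈ K, k * nn G u < ∑ u ∈ K, (Fintype.card V + L) := sum_lt_sum_of_nonempty hne hcon
  rw [← mul_sum, sum_const, hK.2, smul_eq_mul] at h2
  have := Nat.lt_of_mul_lt_mul_left h2
  omega

lemma eN_del {V : Type} [Fintype V] (G : SimpleGraph V) (v : V) :
    eN G + nn G v = eN (G.induce {v}ᶜ) + Fintype.card V := by
  classical
  have h1 := card_edgeFinset_induce_compl_singleton G v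
  rw [card_edgeFinset_deleteIncidenceSet] at h1
  have h2 : G.degree v ≤ #G.edgeFinset := by
    rw [← card_incidenceFinset_eq_degree]
    exact card_le_card (G.incidenceFinset_subset v)
  have h3 : nn G v + G.degree v = Fintype.card V := by
    rw [nn_eq, ← card_neighborFinset_eq_degree]
    have : G.neighborFinset v = univ.filter (fun y => G.Adj y v) := by
      ext y; simp [G.adj_comm]
    rw [this, add_comm, card_filter_add_card_filter_not, card_univ]
  have e1 : eN G = #G.edgeFinset := by rw [eN, Set.ncard_eq_toFinset_card']; rfl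
  have e2 : eN (G.induce {v}ᶜ) = #(G.induce {v}ᶜ).edgeFinset := by
    rw [eN, Set.ncard_eq_toFinset_card']; rfl
  omega

lemma card_compl_sing {V : Type} [Fintype V] (v : V) [Fintype ({v}ᶜ : Set V)] :
    Fintype.card ({v}ᶜ : Set V) + 1 = Fintype.card V := by
  classical
  have h := Fintype.card_compl_set ({v} : Set V)
  have h2 : Fintype.card ({v} : Set V) = 1 := by simp
  have h3 : 0 < Fintype.card V := Fintype.card_pos_iff.2 ⟨v⟩
  have h4 : Fintype.card ({v}ᶜ : Set V) = Fintype.card V - Fintype.card ({v} : Set V) := by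
    convert! h
  omega

/-- Main upper bound -/
theorem upper {k L : ℕ} (hk : 2 ≤ k) : ∀ (n : ℕ) (V : Type) [Fintype V] (G : SimpleGraph V),
    Fintype.card V = n → 2 ^ L < 2 * numCol G k → eN G + n * L ≤ tau k (n + L) := by
  intro n
  induction n with
  | zero =>
    intro V _ G hV _
    have : IsEmpty V := Fintype.card_eq_zero_iff.1 hV
    have : eN G = 0 := by
      rw [eN, Set.ncard_eq_zero]
      ext e
      induction e with
      | _ a b => exact isEmptyElim a
    simp [this]
  | succ n ih =>
    intro V _ G hV hL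
    classical
    by_cases hc : G.CliqueFree k
    · have hk1 : k = (k - 1) + 1 := by omega
      have h1 : eN G ≤ tau (k - 1) (n + 1) := by
        rw [← hV]
        exact turan_le G (k - 1) (by omega) (by rw [← hk1]; exact hc)
      have h2 := tau_add_le (k - 1) (n + 1) L (by omega)
      rw [← hk1] at h2
      omega
    · unfold CliqueFree at hc
      push Not at hc
      obtain ⟨K, hK⟩ := hc
      obtain ⟨u, hu, hun⟩ := exists_nn_ge hK (by omega) hL
      have h1 := ih _ (G.induce {u}ᶜ) (by have := card_compl_sing u; omega)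
        (lt_of_lt_of_le hL (Nat.mul_le_mul_left _ (numCol_del hK hu)))
      have h2 := eN_del G u
      rw [show n + 1 + L = n + L + 1 by ring, tau_succ]
      have h3 : (n + L) / k < nn G u := by
        rw [Nat.div_lt_iff_lt_mul (by omega), mul_comm]
        omega
      have h4 : (n + L) / k ≤ n + L := Nat.div_le_self _ _
      rw [hV] at h2
      have h5 : (n + 1) * L = n * L + L := by ring
      omega

/-- Upper bound for small `n` -/
theorem upper_small {k L : ℕ} (hk : 2 ≤ k) : ∀ (n : ℕ) (V : Type) [Fintype V] (G : SimpleGraph V),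
    Fintype.card V = n → n ≤ (k - 1) * L → 2 ^ L < 2 * numCol G k → eN G ≤ tau (k - 1) n := by
  intro n
  induction n with
  | zero =>
    intro V _ G hV _ _
    have : IsEmpty V := Fintype.card_eq_zero_iff.1 hV
    have : eN G = 0 := by
      rw [eN, Set.ncard_eq_zero]
      ext e
      induction e with
      | _ a b => exact isEmptyElim a
    simp [this]
  | succ n ih =>
    intro V _ G hV hn hL
    classical
    by_cases hc : G.CliqueFree k
    · have hk1 : k = (k - 1) + 1 := by omega
      rw [← hV]
      exact turan_le G (k - 1) (by omega) (by rw [← hk1]; exact hc)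
    · unfold CliqueFree at hc
      push Not at hc
      obtain ⟨K, hK⟩ := hc
      obtain ⟨u, hu, hun⟩ := exists_nn_ge hK (by omega) hL
      have h1 := ih _ (G.induce {u}ᶜ) (by have := card_compl_sing u; omega) (by omega)
        (lt_of_lt_of_le hL (Nat.mul_le_mul_left _ (numCol_del hK hu)))
      have h2 := eN_del G u
      rw [tau_succ]
      have h3 : n / (k - 1) < nn G u := by
        rw [Nat.div_lt_iff_lt_mul (by omega)]
        by_contra hcon
        push Not at hcon
        rw [hV] at hun
        obtain ⟨k', rfl⟩ : ∃ k', k = k' + 1 := ⟨k - 1, by omega⟩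
        simp only [Nat.add_sub_cancel] at hcon hn
        have h5 : L + 1 ≤ nn G u := by nlinarith
        have h6 : k' * (L + 1) ≤ k' * nn G u := Nat.mul_le_mul_left _ h5
        nlinarith
      have h4 : n / (k - 1) ≤ n := Nat.div_le_self _ _
      rw [hV] at h2
      omega

end Pool.Agent.Lib.MP_70fc77_co
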