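import Mathlib
import Pool.Agent.Lib.MP_70fc77_co.Upper

set_option autoImplicit false

namespace Pool.Agent.Lib.MP_70fc77_co

open Finset SimpleGraph

lemma eN_eq {V : Type} (G : SimpleGraph V) [Fintype G.edgeSet] : eN G = #G.edgeFinset := by
  rw [eN, Set.ncard_eq_toFinset_card']; rfl

lemma eN_compl {V : Type} [Fintype V] (G : SimpleGraph V) :
    eN G + eN Gᶜ = (Fintype.card V).choose 2 := by
  classical
  rw [← card_edgeFinset_top_eq_card_choose_two, ← eN_eq, eN, eN, eN, ← Set.ncard_union_eq]
  · congr 1
    rw [← edgeSet_sup]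
    congr 1
    exact sup_compl_eq_top
  · rw [disjoint_edgeSet]
    exact disjoint_compl_right

variable {n : ℕ}

open Classical in
/-- least element of the class -/
noncomputable def rep (r : Setoid (Fin n)) (x : Fin n) : Fin n :=
  (univ.filter (fun y => r x y)).min' ⟨x, by simp⟩

lemma rep_rel (r : Setoid (Fin n)) (x : Fin n) : r x (rep r x) := by
  classical
  have := min'_mem (univ.filter (fun y => r x y)) ⟨x, by simp⟩
  rw [mem_filter] at this
  exact this.2

lemma rep_le (r : Setoid (Fin n)) (x y : Fin n) (h : r x y) : rep r x ≤ y := by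
  classical
  exact min'_le _ _ (by rw [mem_filter]; exact ⟨mem_univ _, h⟩)

lemma rep_eq_iff (r : Setoid (Fin n)) (x y : Fin n) : rep r x = rep r y ↔ r x y := by
  constructor
  · intro h
    have h1 := rep_rel r x
    rw [h] at h1
    exact r.trans h1 (r.symm (rep_rel r y))
  · intro h
    apply le_antisymm
    · exact rep_le r x _ (r.trans h (rep_rel r y))
    · exact rep_le r y _ (r.trans (r.symm h) (rep_rel r x))

open Classical in
/-- star forest of the partition -/
noncomputable def forest (r : Setoid (Fin n)) : Finset (Sym2 (Fin n)) :=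
  (univ.filter (fun x => rep r x ≠ x)).image (fun x => s(x, rep r x))

lemma rep_lt (r : Setoid (Fin n)) (x : Fin n) (h : rep r x ≠ x) : rep r x < x :=
  lt_of_le_of_ne (rep_le r x x (r.refl x)) h

lemma forest_inj_aux (r s : Setoid (Fin n)) (h : forest r = forest s) (x : Fin n)
    (hx : rep r x ≠ x) : rep s x = rep r x := by
  classical
  have h1 : s(x, rep r x) ∈ forest s := by
    rw [← h, forest, mem_image]
    exact ⟨x, by simp [hx], rfl⟩
  rw [forest, mem_image] at h1
  obtain ⟨y, hy, hxy⟩ := h1
  rw [mem_filter] at hy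
  rw [Sym2.eq_iff] at hxy
  rcases hxy with ⟨rfl, h2⟩ | ⟨rfl, h2⟩
  · exact h2
  · have h3 := rep_lt r x hx
    have h4 := rep_lt s _ hy.2
    rw [h2] at h4
    exact absurd h3 (not_lt_of_gt h4)

lemma forest_inj : Function.Injective (forest (n := n)) := by
  intro r s h
  have key : ∀ x, rep r x = rep s x := by
    intro x
    by_cases hx : rep r x ≠ x
    · exact (forest_inj_aux r s h x hx).symm
    · by_cases hy : rep s x ≠ x
      · exact forest_inj_aux s r h.symm x hy
      · push Not at hx hy
        rw [hx, hy]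
  ext x y
  rw [← rep_eq_iff, ← rep_eq_iff, key, key]

lemma forest_card (r : Setoid (Fin n)) {k : ℕ} (hr : Nat.card (Quotient r) ≤ k) :
    n - k ≤ #(forest r) := by
  classical
  rw [forest, card_image_of_injOn]
  · have h1 : #{x : Fin n | rep r x ≠ x} + #{x : Fin n | ¬ rep r x ≠ x} = n := by
      rw [card_filter_add_card_filter_not, card_univ, Fintype.card_fin]
    have h2 : #{x : Fin n | ¬ rep r x ≠ x} ≤ Nat.card (Quotient r) := by
      have := Nat.card_le_card_of_injective
        (fun x : ({x : Fin n | ¬ rep r x ≠ x} : Finset (Fin n)) => Quotient.mk r x.1) (by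
          intro a b hab
          have h3 : r a.1 b.1 := Quotient.exact hab
          have ha := (mem_filter.1 a.2).2
          have hb := (mem_filter.1 b.2).2
          push Not at ha hb
          rw [← rep_eq_iff, ha, hb] at h3
          exact Subtype.ext h3)
      rwa [Nat.card_eq_fintype_card (α := ({x : Fin n | ¬ rep r x ≠ x} : Finset (Fin n))),
        Fintype.card_coe] at this
    omega
  · intro x hx y hy hxy
    have hx' := (mem_filter.1 hx).2
    have hy' := (mem_filter.1 hy).2
    simp only [Sym2.eq_iff] at hxy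
    rcases hxy with ⟨h, _⟩ | ⟨h1, h2⟩
    · exact h
    · have h3 := rep_lt r x hx'
      have h4 := rep_lt r y hy'
      rw [h2] at h3
      rw [← h1] at h4
      exact absurd h3 (not_lt_of_gt h4)

lemma forest_sub (G : SimpleGraph (Fin n)) [DecidableRel G.Adj] {k : ℕ} (r : Setoid (Fin n))
    (hr : IsColouring G k r) :
    forest r ⊆ Gᶜ.edgeFinset := by
  classical
  intro e he
  rw [forest, mem_image] at he
  obtain ⟨x, hx, rfl⟩ := he
  have hx' := (mem_filter.1 hx).2
  rw [mem_edgeFinset, mem_edgeSet, compl_adj]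
  exact ⟨hx'.symm, hr.1 _ _ (rep_rel r x)⟩

lemma card_filter_powerset (α : Type) [DecidableEq α] (S : Finset α) (t : ℕ) :
    #{T ∈ S.powerset | t ≤ #T} = ∑ j ∈ Icc t #S, (#S).choose j := by
  classical
  rw [card_eq_sum_card_fiberwise (f := fun T => #T) (t := Icc t #S)]
  · apply sum_congr rfl
    intro j hj
    rw [← card_powersetCard j S]
    congr 1
    ext T
    simp only [mem_filter, mem_powerset, mem_powersetCard, mem_Icc] at *
    constructor
    · rintro ⟨⟨h1, _⟩, h2⟩; exact ⟨h1, h2⟩
    · rintro ⟨h1, h2⟩; exact ⟨⟨h1, by omega⟩, h2⟩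
  · intro T hT
    simp only [coe_filter, mem_powerset, Set.mem_ofPred_eq, coe_Icc, Set.mem_Icc] at *
    exact ⟨hT.2, card_le_card hT.1⟩

/-- A bound for the number of colourings in terms of the number of non-edges -/
lemma numCol_le_sum (G : SimpleGraph (Fin n)) (k : ℕ) :
    numCol G k ≤ ∑ j ∈ Icc (n - k) (eN Gᶜ), (eN Gᶜ).choose j := by
  classical
  rw [eN_eq, ← card_filter_powerset]
  have := Nat.card_le_card_of_injective
    (fun r : {r : Setoid (Fin n) // IsColouring G k r} =>
      (⟨forest r.1, by
        rw [mem_filter, mem_powerset]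
        exact ⟨forest_sub G r.1 r.2, forest_card r.1 r.2.2⟩⟩ :
        ({T ∈ Gᶜ.edgeFinset.powerset | n - k ≤ #T} : Finset _))) (by
      intro r s h
      exact Subtype.ext (forest_inj (congrArg Subtype.val h)))
  rwa [Nat.card_eq_fintype_card (α := ({T ∈ Gᶜ.edgeFinset.powerset | n - k ≤ #T} : Finset _)),
    Fintype.card_coe] at this

theorem upperC (G : SimpleGraph (Fin n)) {d k : ℕ} (h : d ≤ numCol G k) :
    eN G + minEdges d (n - k) ≤ n.choose 2 := by
  have h1 := numCol_le_sum G k
  have h2 := eN_compl G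
  rw [Fintype.card_fin] at h2
  have h3 : minEdges d (n - k) ≤ eN Gᶜ := Nat.sInf_le (h.trans h1)
  omega

end Pool.Agent.Lib.MP_70fc77_co
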