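import Mathlib
import Pool.Agent.Lib.MP_70fc77_co.UpperC
import Pool.Agent.Lib.MP_70fc77_co.TypeDefs

set_option autoImplicit false

namespace Pool.Agent.Lib.MP_70fc77_co

open Finset SimpleGraph

lemma sum_sq_balanced {k : ℕ} (m : Fin k → ℕ) (h : ∀ i j, m i ≤ m j + 1) :
    ∀ i, (∑ j, m j) / k ≤ m i ∧ m i ≤ (∑ j, m j) / k + 1 := by
  intro i
  have hk : 0 < k := i.pos
  obtain ⟨N, hN⟩ : ∃ N, N = ∑ j, m j := ⟨_, rfl⟩
  rw [← hN]
  have h0 : N / k * k ≤ N := Nat.div_mul_le_self N k
  have h1 : N < (N / k + 1) * k := (Nat.div_lt_iff_lt_mul hk).1 (Nat.lt_succ_self _)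
  constructor
  · by_contra hc
    push Not at hc
    have : N < ∑ j : Fin k, N / k := by
      rw [hN] at hc ⊢
      exact sum_lt_sum (fun j _ => by have := h j i; omega) ⟨i, mem_univ _, hc⟩
    rw [sum_const, card_univ, Fintype.card_fin, smul_eq_mul, mul_comm] at this
    omega
  · by_contra hc
    push Not at hc
    have : ∑ j : Fin k, (N / k + 1) < N := by
      rw [hN] at hc ⊢
      exact sum_lt_sum (fun j _ => by have := h i j; omega) ⟨i, mem_univ _, hc⟩
    rw [sum_const, card_univ, Fintype.card_fin, smul_eq_mul, mul_comm] at this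
    omega

lemma tau_balanced {k : ℕ} (hk : 0 < k) (m : Fin k → ℕ) (h : ∀ i j, m i ≤ m j + 1) :
    2 * tau k (∑ j, m j) + ∑ j, m j ^ 2 = (∑ j, m j) ^ 2 := by
  have h1 := sum_sq_balanced m h
  have h2 := two_tau k (∑ j, m j) hk
  set N := ∑ j, m j with hN
  have h3 : ∑ j, ((m j : ℤ) - ((N / k : ℕ) : ℤ)) * ((m j : ℤ) - ((N / k : ℕ) : ℤ) - 1) = 0 := by
    apply sum_eq_zero
    intro j _
    obtain ⟨h4, h5⟩ := h1 j
    rcases Nat.lt_or_ge (N / k) (m j) with h | h
    · have : m j = N / k + 1 := by omega
      rw [this]; push_cast; ring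
    · have : m j = N / k := by omega
      rw [this]; ring
  generalize N / k = q at *
  have h4 : ∑ j, ((m j : ℤ) - (q : ℤ)) * ((m j : ℤ) - (q : ℤ) - 1) =
      ∑ j, (m j : ℤ) ^ 2 - (2 * q + 1) * ∑ j, (m j : ℤ) + k * (q * (q + 1)) := by
    have : ∀ j, ((m j : ℤ) - (q : ℤ)) * ((m j : ℤ) - (q : ℤ) - 1) =
        (m j : ℤ) ^ 2 - (2 * q + 1) * (m j : ℤ) + (q * (q + 1)) := fun j => by ring
    simp_rw [this]
    rw [sum_add_distrib, sum_sub_distrib, ← mul_sum, sum_const, card_univ, Fintype.card_fin]
    simp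
  have h5 : ((N : ℕ) : ℤ) = ∑ j, (m j : ℤ) := by rw [hN]; push_cast; rfl
  rw [h3, ← h5] at h4
  have h6 : ((2 * tau k N + ∑ j, m j ^ 2 : ℕ) : ℤ) = ((N ^ 2 : ℕ) : ℤ) := by
    push_cast
    linarith
  exact_mod_cast h6

lemma balanced_of_eq {k : ℕ} (m : Fin k → ℕ)
    (h : 2 * tau k (∑ j, m j) + ∑ j, m j ^ 2 = (∑ j, m j) ^ 2) : ∀ i j, m i ≤ m j + 1 := by
  intro i
  have hk : 0 < k := i.pos
  have h2 := two_tau k (∑ j, m j) hk
  obtain ⟨N, hN⟩ : ∃ N, N = ∑ j, m j := ⟨_, rfl⟩
  rw [← hN] at h h2
  have h5 : ((N : ℕ) : ℤ) = ∑ j, (m j : ℤ) := by rw [hN]; push_cast; rfl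
  have h6 : (2 * tau k N + ∑ j, (m j : ℤ) ^ 2 : ℤ) = (N : ℤ) ^ 2 := by exact_mod_cast h
  generalize N / k = q at *
  have h4 : ∑ j, ((m j : ℤ) - (q : ℤ)) * ((m j : ℤ) - (q : ℤ) - 1) =
      ∑ j, (m j : ℤ) ^ 2 - (2 * q + 1) * ∑ j, (m j : ℤ) + k * (q * (q + 1)) := by
    have : ∀ j, ((m j : ℤ) - (q : ℤ)) * ((m j : ℤ) - (q : ℤ) - 1) =
        (m j : ℤ) ^ 2 - (2 * q + 1) * (m j : ℤ) + (q * (q + 1)) := fun j => by ring
    simp_rw [this]
    rw [sum_add_distrib, sum_sub_distrib, ← mul_sum, sum_const, card_univ, Fintype.card_fin]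
    simp
  rw [← h5] at h4
  have h7 : ∑ j, ((m j : ℤ) - (q : ℤ)) * ((m j : ℤ) - (q : ℤ) - 1) = 0 := by
    rw [h4]; linarith
  have hnn : ∀ j ∈ (univ : Finset (Fin k)),
      0 ≤ ((m j : ℤ) - (q : ℤ)) * ((m j : ℤ) - (q : ℤ) - 1) := by
    intro j _
    rcases lt_or_ge (q : ℤ) (m j) with h | h
    · exact mul_nonneg (by linarith) (by linarith [Int.add_one_le_iff.2 h])
    · exact mul_nonneg_of_nonpos_of_nonpos (by linarith) (by linarith)
  have h8 := (sum_eq_zero_iff_of_nonneg hnn).1 h7
  have h9 : ∀ j, m j = q ∨ m j = q + 1 := by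
    intro j
    rcases mul_eq_zero.1 (h8 j (mem_univ _)) with h | h
    · left; omega
    · right; omega
  intro j
  have := h9 i
  have := h9 j
  omega

lemma two_eN {V : Type} [Fintype V] (G : SimpleGraph V) :
    2 * eN G + ∑ v, nn G v = Fintype.card V * Fintype.card V := by
  classical
  rw [eN_eq, ← sum_degrees_eq_twice_card_edges, ← sum_add_distrib]
  have : ∀ v, G.degree v + nn G v = Fintype.card V := by
    intro v
    rw [nn_eq, ← card_neighborFinset_eq_degree]
    have : G.neighborFinset v = univ.filter (fun y => G.Adj y v) := by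
      ext y; simp [G.adj_comm]
    rw [this, card_filter_add_card_filter_not, card_univ]
  simp_rw [this]
  rw [sum_const, card_univ, smul_eq_mul]

lemma fold_iff {V : Type} [Finite V] (G : SimpleGraph V) (d k : ℕ) :
    FoldColourable d k G ↔ d ≤ numCol G k := by
  have := finite_setoid V
  constructor
  · rintro ⟨c, hc, hcol⟩
    have := Nat.card_le_card_of_injective
      (fun i : Fin d => (⟨c i, hcol i⟩ : {r : Setoid V // IsColouring G k r}))
      (fun i j h => hc (congrArg Subtype.val h))
    rwa [Nat.card_eq_fintype_card, Fintype.card_fin] at this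
  · intro h
    have hf : Fintype {r : Setoid V // IsColouring G k r} := Fintype.ofFinite _
    have h2 : Fintype.card (Fin d) ≤ Fintype.card {r : Setoid V // IsColouring G k r} := by
      rw [Fintype.card_fin, ← Nat.card_eq_fintype_card]
      exact h
    obtain ⟨e⟩ := Function.Embedding.nonempty_of_card_le h2
    exact ⟨fun i => (e i).1, fun i j hij => e.injective (Subtype.ext hij), fun i => (e i).2⟩

lemma ker_col {V : Type} [Finite V] {G : SimpleGraph V} {k : ℕ} (c : V → Fin k)
    (h : ∀ x y, G.Adj x y → c x ≠ c y) : IsColouring G k (Setoid.ker c) := by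
  refine ⟨fun x y hxy hadj => h x y hadj hxy, ?_⟩
  have := Nat.card_le_card_of_injective (Quotient.lift c (s := Setoid.ker c) (fun _ _ h => h)) (by
    intro a b
    induction a using Quotient.inductionOn
    induction b using Quotient.inductionOn
    intro h
    exact Quotient.sound h)
  simpa using this

/-- a lower bound for the number of colourings from a family of subsets -/
lemma le_numCol_of_family {V ι : Type} [Finite V] [Finite ι] {G : SimpleGraph V} {k : ℕ}
    (c : ι → V → Fin k) (h : ∀ T, ∀ x y, G.Adj x y → c T x ≠ c T y)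
    (hinj : ∀ S T, (∀ x y, c S x = c S y ↔ c T x = c T y) → S = T) :
    Nat.card ι ≤ numCol G k := by
  have := finite_setoid V
  refine Nat.card_le_card_of_injective
    (fun T : ι => (⟨Setoid.ker (c T), ker_col _ (h T)⟩ : {r : Setoid V // IsColouring G k r})) ?_
  intro S T hST
  have h1 : Setoid.ker (c S) = Setoid.ker (c T) := congrArg Subtype.val hST
  apply hinj
  intro x y
  exact iff_of_eq (congrArg (fun s : Setoid V => s x y) h1)

section reduced

variable {V : Type} [Fintype V] {G : SimpleGraph V} {k L : ℕ} {p : V → Fin k} {a : Fin k}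
  {F : Set V}

open Classical in
/-- the recolouring -/
noncomputable def recol (p : V → Fin k) (a : Fin k) (T : Set V) (x : V) : Fin k :=
  if x ∈ T then a else p x

omit [Fintype V] in
lemma recol_proper (h : IsReducedTuran G k L p a F) {T : Set V} (hT : T ⊆ F)
    (hT2 : ∀ x ∈ T, ∀ y ∈ T, p x = p y) (x y : V) (hadj : G.Adj x y) :
    recol p a T x ≠ recol p a T y := by
  obtain ⟨_, hF, hA, _⟩ := h
  rw [hA] at hadj
  obtain ⟨h1, h2, h3⟩ := hadj
  unfold recol
  split_ifs with h4 h5 h5
  · exact fun _ => h1 (hT2 x h4 y h5)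
  · intro h; exact h2 ⟨hT h4, h.symm⟩
  · intro h; exact h3 ⟨hT h5, h⟩
  · exact h1

lemma typeA_numCol (h : TypeA G k L) : 2 ^ L ≤ numCol G k := by
  classical
  obtain ⟨p, a, F, h, b, hb, z, hz, hzb⟩ := h
  have hcard : Nat.card (Set.powerset F) = 2 ^ L := by
    rw [← h.1, ← Set.ncard_powerset]
    rfl
  rw [← hcard]
  refine le_numCol_of_family (fun T : Set.powerset F => recol p a T.1) ?_ ?_
  · intro T x y hadj
    exact recol_proper h T.2 (fun x hx y hy => by rw [hb x (T.2 hx), hb y (T.2 hy)]) x y hadj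
  · intro S T hST
    have key : ∀ (T : Set.powerset F) (x : V), x ∈ F →
        (recol p a T.1 x = recol p a T.1 z ↔ x ∉ T.1) := by
      intro T x hx
      have hzT : z ∉ T.1 := fun h => hz (T.2 h)
      unfold recol
      rw [if_neg hzT]
      by_cases hxT : x ∈ T.1
      · rw [if_pos hxT]
        refine ⟨fun h' => absurd ?_ (h.2.1 x hx), fun h' => absurd hxT h'⟩
        rw [hb x hx, h', hzb]
      · rw [if_neg hxT]
        exact ⟨fun _ => hxT, fun _ => by rw [hb x hx, hzb]⟩
    apply Subtype.ext
    ext x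
    by_cases hx : x ∈ F
    · have := (key S x hx).symm.trans ((hST x z).trans (key T x hx))
      tauto
    · exact ⟨fun h => absurd (S.2 h) hx, fun h => absurd (T.2 h) hx⟩

lemma typeB_numCol (h : TypeB G k L) : 2 ^ (L - 1) + 1 ≤ numCol G k := by
  classical
  obtain ⟨p, a, F, h, ⟨z, hz⟩, b, w, hw, hwb, hb⟩ := h
  have hzF : z ∉ F := fun hzF => h.2.1 z hzF hz
  have hcard : Nat.card (Option (Set.powerset (F \ {w}))) = 2 ^ (L - 1) + 1 := by
    rw [Finite.card_option, ← h.1, ← Set.ncard_sdiff_singleton_of_mem hw]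
    have : Nat.card (Set.powerset (F \ {w})) = 2 ^ (F \ {w}).ncard := by
      rw [← Set.ncard_powerset]; rfl
    rw [this]
  rw [← hcard]
  let f : Option (Set.powerset (F \ {w})) → Set V := fun o => match o with
    | none => {w}
    | some T => T.1
  have hf1 : ∀ o, f o ⊆ F := by
    rintro (_ | T)
    · intro x hx; rw [Set.mem_singleton_iff.1 hx]; exact hw
    · exact fun x hx => (T.2 hx).1
  have hf2 : Function.Injective f := by
    rintro (_ | S) (_ | T) h
    · rfl
    · have : w ∈ T.1 := by rw [← show {w} = T.1 from h]; rfl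
      exact absurd rfl (T.2 this).2
    · have : w ∈ S.1 := by rw [show S.1 = {w} from h]; rfl
      exact absurd rfl (S.2 this).2
    · exact congrArg some (Subtype.ext h)
  refine le_numCol_of_family (fun o => recol p a (f o)) ?_ ?_
  · intro o x y hadj
    refine recol_proper h (hf1 o) ?_ x y hadj
    rcases o with _ | T
    · intro x hx y hy
      rw [Set.mem_singleton_iff.1 hx, Set.mem_singleton_iff.1 hy]
    · intro x hx y hy
      rw [hb x (T.2 hx).1 (T.2 hx).2, hb y (T.2 hy).1 (T.2 hy).2]
  · intro S T hST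
    have key : ∀ (o) (x : V), x ∈ F →
        (recol p a (f o) x = recol p a (f o) z ↔ x ∈ f o) := by
      intro o x hx
      have hzT : z ∉ f o := fun h => hzF (hf1 o h)
      unfold recol
      rw [if_neg hzT, hz]
      by_cases hxT : x ∈ f o
      · rw [if_pos hxT]
        exact ⟨fun _ => hxT, fun _ => rfl⟩
      · rw [if_neg hxT]
        exact ⟨fun h' => absurd h' (h.2.1 x hx), fun h' => absurd h' hxT⟩
    apply hf2
    ext x
    by_cases hx : x ∈ F
    · exact (key S x hx).symm.trans ((hST x z).trans (key T x hx))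
    · exact ⟨fun h => absurd (hf1 _ h) hx, fun h => absurd (hf1 _ h) hx⟩

/-- the structure without the condition on the sizes -/
def IsReducedStruct {V : Type} (G : SimpleGraph V) (k L : ℕ) (p : V → Fin k) (a : Fin k)
    (F : Set V) : Prop :=
  F.ncard = L ∧ (∀ x ∈ F, p x ≠ a) ∧
  (∀ x y, G.Adj x y ↔ p x ≠ p y ∧ ¬ (x ∈ F ∧ p y = a) ∧ ¬ (y ∈ F ∧ p x = a))

/-- the size of the extended part -/
noncomputable def msize {V : Type} {k : ℕ} (L : ℕ) (p : V → Fin k) (a i : Fin k) : ℕ :=
  {x | p x = i}.ncard + (if i = a then L else 0)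

lemma msize_sum (L : ℕ) (p : V → Fin k) (a : Fin k) :
    ∑ i, msize L p a i = Fintype.card V + L := by
  classical
  have hs : ∀ i, {x | p x = i}.ncard = #{x | p x = i} := by
    intro i
    rw [Set.ncard_eq_toFinset_card']
    congr 1
    ext x; simp
  unfold msize
  simp_rw [hs]
  rw [sum_add_distrib, sum_ite_eq' univ a, if_pos (mem_univ _), ← card_univ,
    card_eq_sum_card_fiberwise (f := p) (t := univ) (fun x _ => mem_univ _)]

lemma reduced_count (h : IsReducedStruct G k L p a F) :
    2 * eN G + 2 * (Fintype.card V * L) + ∑ i, msize L p a i ^ 2 = (Fintype.card V + L) ^ 2 := by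
  classical
  obtain ⟨hFc, hF, hA⟩ := h
  have hk : 0 < k := a.pos
  let m : Fin k → ℕ := fun i => {x | p x = i}.ncard + (if i = a then L else 0)
  have hFc' : #{x | x ∈ F} = L := by
    rw [← hFc, Set.ncard_eq_toFinset_card']
    congr 1
    ext x; simp
  have hs : ∀ i, {x | p x = i}.ncard = #{x | p x = i} := by
    intro i
    rw [Set.ncard_eq_toFinset_card']
    congr 1
    ext x; simp
  have hm : ∀ i, m i = #{x | p x = i} + (if i = a then L else 0) := fun i => by
    simp only [m, hs]
  have hnn : ∀ v, nn G v + (if v ∈ F then L else 0) = m (p v) + (if v ∈ F then m a else 0) := by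
    intro v
    rw [nn_eq, hm, hm, if_pos rfl]
    by_cases hv : v ∈ F
    · have hva := hF v hv
      rw [if_pos hv, if_pos hv, if_neg hva]
      have : #{y | ¬ G.Adj y v} = #{x | p x = p v} + #{x | p x = a} := by
        rw [← card_union_of_disjoint]
        · congr 1
          ext y
          simp only [mem_filter, mem_univ, true_and, mem_union, hA]
          by_cases h1 : p y = p v
          · simp [h1]
          · by_cases h2 : p y = a
            · simp [h1, h2, hv]
            · simp [h1, h2, hva]
        · rw [Finset.disjoint_left]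
          intro y h1 h2
          simp only [mem_filter, mem_univ, true_and] at h1 h2
          exact hva (h1 ▸ h2)
      omega
    · rw [if_neg hv, if_neg hv]
      by_cases hva : p v = a
      · rw [if_pos hva]
        have : #{y | ¬ G.Adj y v} = #{x | p x = p v} + #{x | x ∈ F} := by
          rw [← card_union_of_disjoint]
          · congr 1
            ext y
            simp only [mem_filter, mem_univ, true_and, mem_union, hA]
            by_cases h1 : p y = p v
            · simp [h1]
            · by_cases h2 : y ∈ F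
              · simp [h2, hva]
              · simp [h1, h2, hv]
          · rw [Finset.disjoint_left]
            intro y h1 h2
            simp only [mem_filter, mem_univ, true_and] at h1 h2
            exact hF y h2 (h1.trans hva)
        omega
      · rw [if_neg hva]
        have : #{y | ¬ G.Adj y v} = #{x | p x = p v} := by
          congr 1
          ext y
          simp only [mem_filter, mem_univ, true_and, hA]
          simp [hv, hva]
        omega
  have h1 := two_eN G
  have h2 : ∑ v, nn G v + L * L = ∑ i, m i ^ 2 := by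
    have e1 : ∑ v, (nn G v + (if v ∈ F then L else 0)) =
        ∑ v, (m (p v) + (if v ∈ F then m a else 0)) := sum_congr rfl fun v _ => hnn v
    rw [sum_add_distrib, sum_add_distrib, ← sum_filter, ← sum_filter, sum_const, sum_const,
      smul_eq_mul, smul_eq_mul, hFc'] at e1
    rw [e1]
    have e2 : ∑ v, m (p v) = ∑ i, #{x | p x = i} * m i := by
      rw [← sum_fiberwise (s := univ) (g := p)]
      apply sum_congr rfl
      intro i _
      rw [sum_congr rfl (g := fun _ => m i)]
      · rw [sum_const, smul_eq_mul]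
      · intro x hx
        rw [(mem_filter.1 hx).2]
    rw [e2]
    have e3 : ∀ i, m i ^ 2 = #{x | p x = i} * m i + (if i = a then L * m a else 0) := by
      intro i
      by_cases hi : i = a
      · rw [if_pos hi, hi, sq]
        conv_lhs => rw [hm a, if_pos rfl]
        rw [hm a, if_pos rfl]
        ring
      · rw [if_neg hi, sq, add_zero]
        conv_lhs => rw [hm i, if_neg hi]
        rw [hm i, if_neg hi]
        ring
    simp_rw [e3]
    rw [sum_add_distrib, sum_ite_eq' univ a, if_pos (mem_univ _)]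
  have h3 : ∑ i, msize L p a i ^ 2 = ∑ i, m i ^ 2 := rfl
  rw [h3]
  nlinarith

lemma reduced_eN (h : IsReducedTuran G k L p a F) :
    eN G + Fintype.card V * L = tau k (Fintype.card V + L) := by
  have h1 := reduced_count (L := L) ⟨h.1, h.2.1, h.2.2.1⟩
  have h2 := tau_balanced a.pos (msize L p a) h.2.2.2
  rw [msize_sum] at h2
  omega

/-- the sizes are forced by the number of edges -/
lemma reduced_of_struct (h : IsReducedStruct G k L p a F)
    (he : eN G + Fintype.card V * L = tau k (Fintype.card V + L)) :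
    IsReducedTuran G k L p a F := by
  refine ⟨h.1, h.2.1, h.2.2, ?_⟩
  have h1 := reduced_count h
  apply balanced_of_eq (msize L p a)
  rw [msize_sum]
  omega

end reduced

end Pool.Agent.Lib.MP_70fc77_co
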