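import Mathlib
import Pool.Agent.Lib.MP_70fc77_co.Types

set_option autoImplicit false

namespace Pool.Agent.Lib.MP_70fc77_co

open Finset SimpleGraph

lemma exists_fibres {k n : ℕ} (s : Fin k → ℕ) (hs : ∑ i, s i = n) :
    ∃ p : Fin n → Fin k, ∀ i, {x | p x = i}.ncard = s i := by
  classical
  have hc : Fintype.card (Σ i : Fin k, Fin (s i)) = n := by
    rw [Fintype.card_sigma, ← hs]
    simp
  let e := Fintype.equivFinOfCardEq hc
  refine ⟨fun x => (e.symm x).1, fun i => ?_⟩
  have : {x : Fin n | (e.symm x).1 = i} = Set.range (fun y : Fin (s i) => e ⟨i, y⟩) := by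
    ext x
    simp only [Set.mem_ofPred_eq, Set.mem_range]
    constructor
    · intro h
      subst h
      exact ⟨(e.symm x).2, by simp⟩
    · rintro ⟨y, rfl⟩
      simp
  rw [this, Set.ncard_eq_toFinset_card', Set.toFinset_range, card_image_of_injective]
  · simp
  · intro a b hab
    have := e.injective hab
    simpa using this

lemma exists_typeA {k L n : ℕ} (hk : 2 ≤ k) (hn : (k - 1) * L < n) :
    ∃ G : SimpleGraph (Fin n), TypeA G k L := by
  classical
  set q := (n + L) / k with hq
  set r := (n + L) % k with hr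
  have hqr : r + k * q = n + L := Nat.mod_add_div _ _
  have hrk : r < k := Nat.mod_lt _ (by omega)
  have hLq : L ≤ q := by
    rw [hq, Nat.le_div_iff_mul_le (by omega)]
    have : L * k = (k - 1) * L + L := by
      obtain ⟨k', rfl⟩ : ∃ k', k = k' + 1 := ⟨k - 1, by omega⟩
      simp; ring
    omega
  let m : Fin k → ℕ := fun i => q + if (i : ℕ) < r then 1 else 0
  let a : Fin k := ⟨k - 1, by omega⟩
  let b : Fin k := ⟨0, by omega⟩
  have hab : b ≠ a := by
    intro h
    have := congrArg Fin.val h
    simp only [a, b] at this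
    omega
  have hma : m a = q := by
    simp only [m, a]
    rw [if_neg (by omega)]
    rfl
  have hmb : L + 1 ≤ m b := by
    simp only [m, b]
    by_cases h0 : 0 < r
    · rw [if_pos h0]; omega
    · have hr0 : r = 0 := by omega
      rw [if_neg h0]
      by_contra hcon
      have hqL : q = L := by omega
      rw [hr0, hqL] at hqr
      have : k * L = (k - 1) * L + L := by
        obtain ⟨k', rfl⟩ : ∃ k', k = k' + 1 := ⟨k - 1, by omega⟩
        simp; ring
      omega
  have hmsum : ∑ i, m i = n + L := by
    simp only [m]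
    rw [sum_add_distrib, sum_const, card_univ, Fintype.card_fin, smul_eq_mul,
      Fin.sum_univ_eq_sum_range (fun i => if i < r then 1 else 0) k, ← card_filter]
    have : #{i ∈ range k | i < r} = r := by
      have : {i ∈ range k | i < r} = range r := by
        ext i; simp only [mem_filter, mem_range]; omega
      rw [this, card_range]
    omega
  let s : Fin k → ℕ := fun i => m i - if i = a then L else 0
  have hsm : ∀ i, s i + (if i = a then L else 0) = m i := by
    intro i
    simp only [s]
    by_cases hi : i = a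
    · rw [if_pos hi, hi, hma]; omega
    · rw [if_neg hi]; rfl
  have hssum : ∑ i, s i = n := by
    have h1 : ∑ i, (s i + (if i = a then L else 0)) = n + L := by
      rw [← hmsum]; exact sum_congr rfl fun i _ => hsm i
    rw [sum_add_distrib, sum_ite_eq' univ a, if_pos (mem_univ _)] at h1
    omega
  obtain ⟨p, hp⟩ := exists_fibres s hssum
  have hsb : L + 1 ≤ {x | p x = b}.ncard := by
    rw [hp, ← Nat.add_zero (s b)]
    have := hsm b
    rw [if_neg hab] at this
    omega
  obtain ⟨F, hF, hFc⟩ := Set.exists_subset_card_eq (s := {x | p x = b}) (n := L) (by omega)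
  have hz : ∃ z, z ∉ F ∧ p z = b := by
    by_contra hcon
    push Not at hcon
    have : {x | p x = b} ⊆ F := fun x hx => by
      by_contra hxF
      exact hcon x hxF hx
    have h3 := Set.ncard_le_ncard this (Set.toFinite F)
    omega
  refine ⟨{ Adj := fun x y => p x ≠ p y ∧ ¬ (x ∈ F ∧ p y = a) ∧ ¬ (y ∈ F ∧ p x = a)
            symm := ⟨fun x y h => ⟨h.1.symm, h.2.2, h.2.1⟩⟩
            loopless := ⟨fun _ h => h.1 rfl⟩ }, p, a, F, ⟨hFc, ?_, fun x y => Iff.rfl, ?_⟩,
            b, fun x hx => hF hx, hz⟩
  · intro x hx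
    rw [show p x = b from hF hx]
    exact hab
  · intro i j
    rw [hp, hp, hsm, hsm]
    simp only [m]
    split_ifs <;> omega

lemma lt_two_pow' (q : ℕ) : q ≤ 2 ^ q - 1 := by
  have := Nat.lt_two_pow_self (n := q)
  omega

lemma turanColourings_ge {n r : ℕ} (hr : 0 < r) : n + 1 ≤ turanColourings n r + r := by
  unfold turanColourings
  have h0 := Nat.mod_add_div n r
  have h1 := Nat.mod_lt n hr
  rcases Nat.eq_zero_or_pos (n / r) with hq | hq
  · rw [hq] at h0
    omega
  · have h2 : (n % r) * (n / r) ≤ (n % r) * (2 ^ (n / r) - 1) :=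
      Nat.mul_le_mul_left _ (lt_two_pow' _)
    have h3 : (r - n % r) * (n / r - 1) ≤ (r - n % r) * (2 ^ (n / r - 1) - 1) :=
      Nat.mul_le_mul_left _ (lt_two_pow' _)
    obtain ⟨q, hq'⟩ : ∃ q, n / r = q + 1 := ⟨n / r - 1, by omega⟩
    obtain ⟨t, ht⟩ : ∃ t, r = n % r + t := ⟨r - n % r, by omega⟩
    rw [hq'] at h2 h3 h0 ⊢
    have h4 : r - n % r = t := by omega
    rw [h4] at h3 ⊢
    simp only [Nat.add_sub_cancel] at h3 ⊢
    have h5 : r * (q + 1) = (n % r) * (q + 1) + t * q + t := by
      conv_lhs => rw [ht]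
      ring
    omega

lemma card_class {n r : ℕ} (hr : 0 < r) (hn : r ≤ n) (i : ℕ) (hi : i < r) :
    #{y : Fin n | r ≤ (y : ℕ) ∧ (y : ℕ) % r = i} = n / r - 1 + (if i < n % r then 1 else 0) := by
  classical
  have h1 : #{y : Fin n | r ≤ (y : ℕ) ∧ (y : ℕ) % r = i} =
      #{y ∈ range n | r ≤ y ∧ y % r = i} := by
    rw [card_filter, card_filter,
      Fin.sum_univ_eq_sum_range (fun y => if r ≤ y ∧ y % r = i then 1 else 0) n]
  have h2 : #{y ∈ range n | y % r = i} = n / r + (if i < n % r then 1 else 0) := by
    have := Nat.count_modEq_card n hr i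
    rw [Nat.count_eq_card_filter_range, Nat.mod_eq_of_lt hi] at this
    rw [← this]
    congr 1
    ext y
    simp only [mem_filter, Nat.ModEq, Nat.mod_eq_of_lt hi]
  have h3 : #{y ∈ range n | y % r = i} = #{y ∈ range n | r ≤ y ∧ y % r = i} + 1 := by
    have : {y ∈ range n | y % r = i} = insert i {y ∈ range n | r ≤ y ∧ y % r = i} := by
      ext y
      simp only [mem_filter, mem_range, mem_insert]
      constructor
      · rintro ⟨h1, h2⟩
        by_cases hy : r ≤ y
        · right; exact ⟨h1, hy, h2⟩
        · left; rw [Nat.mod_eq_of_lt (by omega)] at h2; exact h2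
      · rintro (rfl | ⟨h1, _, h3⟩)
        · exact ⟨by omega, Nat.mod_eq_of_lt hi⟩
        · exact ⟨h1, h3⟩
    rw [this, card_insert_of_notMem]
    simp only [mem_filter, not_and]
    intro _ h; omega
  have h4 : 0 < n / r := Nat.div_pos hn hr
  omega

lemma turan_numCol' {k n : ℕ} (hk : 2 ≤ k) :
    turanColourings n (k - 1) ≤ numCol (turanGraph n (k - 1)) k := by
  classical
  obtain ⟨r, rfl⟩ : ∃ r, k = r + 1 := ⟨k - 1, by omega⟩
  rw [Nat.add_sub_cancel]
  have hr : 0 < r := by omega
  have hmod : ∀ x : ℕ, x % r < r := fun x => Nat.mod_lt _ hr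
  let P : Finset (Fin n) → Prop := fun T =>
    (∀ y ∈ T, r ≤ (y : ℕ)) ∧ ∀ y ∈ T, ∀ z ∈ T, (y : ℕ) % r = (z : ℕ) % r
  let c : {T : Finset (Fin n) // P T} → Fin n → Fin (r + 1) := fun T y =>
    if y ∈ T.1 then ⟨r, by omega⟩ else ⟨(y : ℕ) % r, by have := hmod y; omega⟩
  have h1 := le_numCol_of_family (G := turanGraph n r) (k := r + 1) c (by
    intro T x y hadj
    rw [turanGraph_adj] at hadj
    simp only [c]
    have hx := hmod x
    have hy := hmod y
    split_ifs with h1 h2 h2
    · exact absurd (T.2.2 x h1 y h2) hadj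
    · intro h
      have := congrArg Fin.val h
      simp only at this
      omega
    · intro h
      have := congrArg Fin.val h
      simp only at this
      omega
    · intro h
      exact hadj (congrArg Fin.val h)) (by
    have key : ∀ (T : {T : Finset (Fin n) // P T}) (x : Fin n) (hx : r ≤ (x : ℕ)),
        (c T x = c T ⟨(x : ℕ) % r, by have := hmod x; omega⟩ ↔ x ∉ T.1) := by
      intro T x hx
      have hx' := hmod x
      have hne : (⟨(x : ℕ) % r, by omega⟩ : Fin n) ∉ T.1 := by
        intro h
        have := T.2.1 _ h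
        simp only at this
        omega
      simp only [c]
      rw [if_neg hne]
      by_cases h : x ∈ T.1
      · rw [if_pos h]
        constructor
        · intro h'
          have := congrArg Fin.val h'
          simp only [Nat.mod_mod] at this
          omega
        · intro h'; exact absurd h h'
      · rw [if_neg h]
        exact ⟨fun _ => h, fun _ => by simp⟩
    intro S T hST
    apply Subtype.ext
    ext x
    by_cases hx : r ≤ (x : ℕ)
    · have := (key S x hx).symm.trans ((hST _ _).trans (key T x hx))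
      tauto
    · exact ⟨fun h => absurd (S.2.1 x h) hx, fun h => absurd (T.2.1 x h) hx⟩)
  refine le_trans ?_ h1
  rw [Nat.card_eq_fintype_card, Fintype.card_subtype]
  by_cases hn : r ≤ n
  · let B : ℕ → Finset (Fin n) := fun i => {y : Fin n | r ≤ (y : ℕ) ∧ (y : ℕ) % r = i}
    have hB : ∀ i y, y ∈ B i ↔ r ≤ (y : ℕ) ∧ (y : ℕ) % r = i := by
      intro i y; simp [B]
    have hsub : insert ∅ ((range r).biUnion (fun i => (B i).powerset.erase ∅)) ⊆
        ({T : Finset (Fin n) | P T} : Finset (Finset (Fin n))) := by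
      intro T hT
      rw [mem_filter]
      refine ⟨mem_univ _, ?_⟩
      rw [mem_insert, mem_biUnion] at hT
      rcases hT with rfl | ⟨i, _, hT⟩
      · exact ⟨by simp, by simp⟩
      · have hT' := mem_powerset.1 (mem_erase.1 hT).2
        exact ⟨fun y hy => ((hB i y).1 (hT' hy)).1,
          fun y hy z hz => by rw [((hB i y).1 (hT' hy)).2, ((hB i z).1 (hT' hz)).2]⟩
    refine le_trans ?_ (card_le_card hsub)
    rw [card_insert_of_notMem, card_biUnion]
    · have h2 : ∀ i ∈ range r, #((B i).powerset.erase ∅) =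
          if i < n % r then 2 ^ (n / r) - 1 else 2 ^ (n / r - 1) - 1 := by
        intro i hi
        rw [card_erase_of_mem (mem_powerset.2 (empty_subset _)), card_powerset]
        have h4 : 0 < n / r := Nat.div_pos hn hr
        have h5 : #(B i) = n / r - 1 + (if i < n % r then 1 else 0) :=
          card_class hr hn i (mem_range.1 hi)
        rw [h5]
        split_ifs
        · rw [show n / r - 1 + 1 = n / r by omega]
        · rfl
      rw [sum_congr rfl h2, sum_ite, sum_const, sum_const, smul_eq_mul, smul_eq_mul]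
      have h3 : #{i ∈ range r | i < n % r} = n % r := by
        have : {i ∈ range r | i < n % r} = range (n % r) := by
          ext i; simp only [mem_filter, mem_range]; have := hmod n; omega
        rw [this, card_range]
      have h4 : #{i ∈ range r | i < n % r} + #{i ∈ range r | ¬ i < n % r} = r := by
        rw [card_filter_add_card_filter_not, card_range]
      have h5 : #{i ∈ range r | ¬ i < n % r} = r - n % r := by omega
      rw [h3, h5]
      unfold turanColourings
      omega
    · intro i _ j _ hij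
      rw [Function.onFun, Finset.disjoint_left]
      intro T h1 h2
      have hT1 := mem_powerset.1 (mem_erase.1 h1).2
      have hT2 := mem_powerset.1 (mem_erase.1 h2).2
      have hne := (mem_erase.1 h1).1
      obtain ⟨y, hy⟩ := nonempty_iff_ne_empty.2 hne
      exact hij (((hB i y).1 (hT1 hy)).2.symm.trans ((hB j y).1 (hT2 hy)).2)
    · rw [mem_biUnion]
      rintro ⟨i, _, h⟩
      exact (mem_erase.1 h).1 rfl
  · have hq : n / r = 0 := Nat.div_eq_of_lt (by omega)
    unfold turanColourings
    rw [hq]
    simp only [pow_zero, Nat.sub_self, mul_zero, add_zero, Nat.zero_sub]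
    rw [Nat.one_le_iff_ne_zero, ← Nat.pos_iff_ne_zero, card_pos]
    exact ⟨∅, by rw [mem_filter]; exact ⟨mem_univ _, by simp, by simp⟩⟩

/-- complement of a matching -/
def matchCompl (n m : ℕ) : SimpleGraph (Fin n) where
  Adj := fun x y => x ≠ y ∧ ¬ ((x : ℕ) / 2 = (y : ℕ) / 2 ∧ (x : ℕ) / 2 < m)
  symm := ⟨fun _ _ h => ⟨h.1.symm, fun h' => h.2 ⟨h'.1.symm, h'.1 ▸ h'.2⟩⟩⟩
  loopless := ⟨fun _ h => h.1 rfl⟩

lemma matchCompl_eN {n m : ℕ} (hm : 2 * m ≤ n) : eN (matchCompl n m) + m = n.choose 2 := by
  classical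
  have h1 := eN_compl (matchCompl n m)
  rw [Fintype.card_fin] at h1
  have h2 : eN (matchCompl n m)ᶜ = m := by
    rw [eN_eq]
    have : (matchCompl n m)ᶜ.edgeFinset = (univ : Finset (Fin m)).image
        (fun i : Fin m => s((⟨2 * (i : ℕ), by have := i.2; omega⟩ : Fin n),
          (⟨2 * (i : ℕ) + 1, by have := i.2; omega⟩ : Fin n))) := by
      ext e
      induction e with
      | _ x y =>
        rw [mem_edgeFinset, mem_edgeSet, compl_adj, mem_image]
        simp only [mem_univ, true_and, Sym2.eq_iff, Fin.ext_iff, matchCompl]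
        constructor
        · rintro ⟨h1, h2⟩
          have h3 : (x : ℕ) / 2 = (y : ℕ) / 2 ∧ (x : ℕ) / 2 < m := by
            by_contra h3
            exact h2 ⟨fun h => h1 h, h3⟩
          refine ⟨⟨(x : ℕ) / 2, h3.2⟩, ?_⟩
          simp only
          omega
        · rintro ⟨i, h | h⟩
          · have := i.2
            refine ⟨?_, fun h' => h'.2 ⟨?_, ?_⟩⟩ <;> omega
          · have := i.2
            refine ⟨?_, fun h' => h'.2 ⟨?_, ?_⟩⟩ <;> omega
    rw [this, card_image_of_injective]
    · simp
    · intro i j hij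
      simp only [Sym2.eq_iff, Fin.ext_iff] at hij
      ext
      omega
  omega

/-- collapse the pairs with index in `W` -/
def collapse (n : ℕ) (W : Finset ℕ) (x : Fin n) : Fin n :=
  if (x : ℕ) / 2 ∈ W then ⟨2 * ((x : ℕ) / 2), by have := x.2; omega⟩ else x

lemma collapse_val (n : ℕ) (W : Finset ℕ) (x : Fin n) :
    ((collapse n W x : Fin n) : ℕ) = if (x : ℕ) / 2 ∈ W then 2 * ((x : ℕ) / 2) else x := by
  unfold collapse
  split_ifs <;> rfl

lemma collapse_col {n m k t : ℕ} (hm : 2 * m ≤ n) (ht : n ≤ k + t) {W : Finset ℕ}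
    (hW : W ⊆ range m) (hWt : t ≤ #W) :
    IsColouring (matchCompl n m) k (Setoid.ker (collapse n W)) := by
  classical
  constructor
  · intro x y hxy hadj
    have hxy' : ((collapse n W x : Fin n) : ℕ) = ((collapse n W y : Fin n) : ℕ) :=
      congrArg Fin.val hxy
    rw [collapse_val, collapse_val] at hxy'
    obtain ⟨h1, h2⟩ := hadj
    apply h2
    have h3 : (x : ℕ) ≠ y := fun h => h1 (Fin.ext h)
    split_ifs at hxy' with h4 h5 h5
    · exact ⟨by omega, mem_range.1 (hW h4)⟩
    · exact ⟨by omega, mem_range.1 (hW h4)⟩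
    · have := mem_range.1 (hW h5)
      exact ⟨by omega, by omega⟩
    · exact absurd hxy' h3
  · rw [Nat.card_congr (Setoid.quotientKerEquivRange (collapse n W)), Nat.card_coe_set_eq]
    have h1 : Set.range (collapse n W) ⊆
        ((univ.filter (fun y : Fin n => ¬ ((y : ℕ) % 2 = 1 ∧ (y : ℕ) / 2 ∈ W)) :
          Finset (Fin n)) : Set (Fin n)) := by
      rintro y ⟨x, rfl⟩
      simp only [coe_filter, mem_univ, true_and, Set.mem_ofPred_eq]
      rw [collapse_val]
      split_ifs with h
      · omega
      · tauto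
    have h2 := Set.ncard_le_ncard h1 (Set.toFinite _)
    rw [Set.ncard_coe_finset] at h2
    have h3 : #{y : Fin n | (y : ℕ) % 2 = 1 ∧ (y : ℕ) / 2 ∈ W} +
        #{y : Fin n | ¬ ((y : ℕ) % 2 = 1 ∧ (y : ℕ) / 2 ∈ W)} = n := by
      rw [card_filter_add_card_filter_not, card_univ, Fintype.card_fin]
    have h4 : W ⊆ (univ.filter (fun y : Fin n => (y : ℕ) % 2 = 1 ∧ (y : ℕ) / 2 ∈ W)).image
        (fun y : Fin n => (y : ℕ) / 2) := by
      intro i hi
      have := mem_range.1 (hW hi)
      rw [mem_image]
      refine ⟨⟨2 * i + 1, by omega⟩, ?_, by simp only; omega⟩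
      rw [mem_filter]
      refine ⟨mem_univ _, by simp only; omega, ?_⟩
      simp only
      rwa [show (2 * i + 1) / 2 = i by omega]
    have h5 := (card_le_card h4).trans card_image_le
    omega

lemma collapse_inj {n m : ℕ} (hm : 2 * m ≤ n) {W W' : Finset ℕ} (hW : W ⊆ range m)
    (hW' : W' ⊆ range m) (h : Setoid.ker (collapse n W) = Setoid.ker (collapse n W')) :
    W = W' := by
  have key : ∀ W : Finset ℕ, ∀ i (hi : i < m),
      ((collapse n W ⟨2 * i, by omega⟩ = collapse n W ⟨2 * i + 1, by omega⟩) ↔ i ∈ W) := by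
    intro W i hi
    rw [Fin.ext_iff, collapse_val, collapse_val]
    simp only
    rw [show 2 * i / 2 = i by omega, show (2 * i + 1) / 2 = i by omega]
    split_ifs with h
    · simp [h]
    · simp [h]
  ext i
  constructor
  · intro hi
    have him := mem_range.1 (hW hi)
    rw [← key W' i him]
    exact (iff_of_eq (congrArg (fun s : Setoid (Fin n) => s ⟨2 * i, by omega⟩
      ⟨2 * i + 1, by omega⟩) h)).1 ((key W i him).2 hi)
  · intro hi
    have him := mem_range.1 (hW' hi)
    rw [← key W i him]
    exact (iff_of_eq (congrArg (fun s : Setoid (Fin n) => s ⟨2 * i, by omega⟩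
      ⟨2 * i + 1, by omega⟩) h)).2 ((key W' i him).2 hi)

lemma matchCompl_numCol {k n m t : ℕ} (hm : 2 * m ≤ n) (ht : n ≤ k + t) :
    ∑ j ∈ Icc t m, m.choose j ≤ numCol (matchCompl n m) k := by
  classical
  have h0 := card_filter_powerset ℕ (range m) t
  rw [card_range] at h0
  rw [← h0]
  have hfs := finite_setoid (Fin n)
  have := Nat.card_le_card_of_injective
    (fun W : ({W ∈ (range m).powerset | t ≤ #W} : Finset _) =>
      (⟨Setoid.ker (collapse n W.1), collapse_col hm ht
          (mem_powerset.1 (mem_filter.1 W.2).1) (mem_filter.1 W.2).2⟩ :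
        {r : Setoid (Fin n) // IsColouring (matchCompl n m) k r})) (by
      intro W W' h
      exact Subtype.ext (collapse_inj hm (mem_powerset.1 (mem_filter.1 W.2).1)
        (mem_powerset.1 (mem_filter.1 W'.2).1) (congrArg Subtype.val h)))
  rwa [Nat.card_eq_fintype_card (α := ({W ∈ (range m).powerset | t ≤ #W} : Finset _)),
    Fintype.card_coe] at this

end Pool.Agent.Lib.MP_70fc77_co
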