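import Mathlib
import Pool.Agent.Lib.MP_70fc77_co.Lower

set_option autoImplicit false

namespace Pool.Agent.Lib.MP_70fc77_co

open Finset SimpleGraph

lemma eN_sup_edge {V : Type} [Finite V] (G : SimpleGraph V) {x y : V} (hxy : x ≠ y)
    (h : ¬ G.Adj x y) : eN (G ⊔ edge x y) = eN G + 1 := by
  rw [eN, eN, edgeSet_sup, edgeSet_edge_of_ne hxy, Set.union_singleton,
    Set.ncard_insert_of_notMem (by simpa using h) (Set.toFinite _)]

lemma isGreatest_of {d n k B : ℕ}
    (hub : ∀ G : SimpleGraph (Fin n), FoldColourable d k G → eN G ≤ B)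
    (G : SimpleGraph (Fin n)) (hG : FoldColourable d k G) (he : eN G = B) :
    IsGreatest (edgeCounts d n k) B := by
  constructor
  · refine ⟨G, ⟨hG, ?_⟩, he⟩
    intro x y hxy hadj hfold
    have h1 := hub _ hfold
    rw [eN_sup_edge G hxy hadj] at h1
    omega
  · rintro e ⟨H, hH, rfl⟩
    exact hub H hH.1

lemma pow_clog_lt {d : ℕ} (hd : 2 ≤ d) : 2 ^ Nat.clog 2 d < 2 * d := by
  have h1 := Nat.pow_pred_clog_lt_self (b := 2) (by norm_num) (x := d) (by omega)
  have h2 : 0 < Nat.clog 2 d := Nat.clog_pos (by norm_num) hd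
  obtain ⟨c, hc⟩ : ∃ c, Nat.clog 2 d = c + 1 := ⟨Nat.clog 2 d - 1, by omega⟩
  rw [hc] at h1 ⊢
  simp only [Nat.pred_eq_sub_one, Nat.add_sub_cancel] at h1
  rw [pow_succ]
  omega

lemma hyp_of_fold {V : Type} [Finite V] {G : SimpleGraph V} {d k : ℕ} (hd : 2 ≤ d)
    (h : FoldColourable d k G) : 2 ^ Nat.clog 2 d < 2 * numCol G k :=
  lt_of_lt_of_le (pow_clog_lt hd) (Nat.mul_le_mul_left _ ((fold_iff G d k).1 h))

theorem caseA {d k n : ℕ} (hd : 2 ≤ d) (hk : 2 ≤ k) (hn : (k - 1) * Nat.clog 2 d < n) :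
    IsGreatest (edgeCounts d n k) (ex (n + Nat.clog 2 d) k - n * Nat.clog 2 d) := by
  rw [ex_eq _ _ (by omega)]
  obtain ⟨G, hG⟩ := exists_typeA hk hn
  apply isGreatest_of _ G
  · rw [fold_iff]
    exact (Nat.le_pow_clog (by norm_num) d).trans (typeA_numCol hG)
  · obtain ⟨p, a, F, h, _⟩ := hG
    have := reduced_eN h
    rw [Fintype.card_fin] at this
    omega
  · intro H hH
    have := upper hk n _ H (Fintype.card_fin n) (hyp_of_fold hd hH)
    omega

theorem caseB' {d k n : ℕ} (hd : 2 ≤ d) (hk : 2 ≤ k) (hn : n ≤ (k - 1) * Nat.clog 2 d)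
    (hdn : FoldColourable d k (turanGraph n (k - 1))) :
    IsGreatest (edgeCounts d n k) (ex n (k - 1)) := by
  rw [ex_eq _ _ (by omega)]
  apply isGreatest_of _ _ hdn
  · rw [eN_eq, card_turan _ _ (by omega)]
  · intro H hH
    exact upper_small hk n _ H (Fintype.card_fin n) hn (hyp_of_fold hd hH)

theorem caseB {d k n : ℕ} (hd : 2 ≤ d) (hk : 2 ≤ k) (hn : n ≤ (k - 1) * Nat.clog 2 d)
    (hdn : d ≤ turanColourings n (k - 1)) : IsGreatest (edgeCounts d n k) (ex n (k - 1)) := by
  apply caseB' hd hk hn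
  rw [fold_iff]
  exact hdn.trans (turan_numCol' hk)

lemma minEdges_spec (d t : ℕ) : d ≤ ∑ j ∈ Icc t (minEdges d t), (minEdges d t).choose j := by
  have : (minEdges d t) ∈ {m | d ≤ ∑ j ∈ Icc t m, m.choose j} := by
    apply Nat.sInf_mem
    rcases d with _ | d
    · exact ⟨0, Nat.zero_le _⟩
    · refine ⟨t + d + 1, ?_⟩
      have h1 : (t + d + 1).choose (t + d) ≤ ∑ j ∈ Icc t (t + d + 1), (t + d + 1).choose j :=
        single_le_sum (fun _ _ => Nat.zero_le _) (mem_Icc.2 ⟨by omega, by omega⟩)
      have h2 : (t + d + 1).choose (t + d) = t + d + 1 := Nat.choose_succ_self_right _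
      simp only [Set.mem_ofPred_eq]
      omega
  exact this

theorem caseC {d k n : ℕ} (hm : 2 * minEdges d (n - k) ≤ n) :
    IsGreatest (edgeCounts d n k) (n.choose 2 - minEdges d (n - k)) := by
  apply isGreatest_of _ (matchCompl n (minEdges d (n - k)))
  · rw [fold_iff]
    exact (minEdges_spec _ _).trans (matchCompl_numCol hm (by omega))
  · have := matchCompl_eN hm
    omega
  · intro H hH
    have := upperC H ((fold_iff H d k).1 hH)
    omega

lemma minEdges_le {d t : ℕ} (hd : 2 ≤ d) (ht : t + 2 ≤ d) : minEdges d t ≤ d - 1 := by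
  apply Nat.sInf_le
  simp only [Set.mem_ofPred_eq]
  obtain ⟨e, rfl⟩ : ∃ e, d = e + 2 := ⟨d - 2, by omega⟩
  have h1 : ∑ j ∈ ({e, e + 1} : Finset ℕ), (e + 1).choose j ≤
      ∑ j ∈ Icc t (e + 1), (e + 1).choose j :=
    sum_le_sum_of_subset (by
      intro j hj
      simp only [mem_insert, mem_singleton] at hj
      rw [mem_Icc]
      omega)
  rw [sum_pair (by omega), Nat.choose_self, Nat.choose_succ_self_right] at h1
  have : e + 2 - 1 = e + 1 := by omega
  rw [this]
  omega

lemma minEdges_three : minEdges 3 0 = 2 := by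
  apply le_antisymm
  · apply Nat.sInf_le
    simp only [Set.mem_ofPred_eq]
    decide
  · have h := minEdges_spec 3 0
    by_contra hcon
    push Not at hcon
    have : minEdges 3 0 = 0 ∨ minEdges 3 0 = 1 := by omega
    rcases this with h0 | h0
    · rw [h0] at h; revert h; decide
    · rw [h0] at h; revert h; decide

lemma case_three {k : ℕ} (hk : 3 ≤ k) : IsGreatest (edgeCounts 3 3 k) 1 := by
  have h0 : 3 - k = 0 := by omega
  have hne : (0 : Fin 3) ≠ 1 := by decide
  apply isGreatest_of _ (edge (0 : Fin 3) 1)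
  · rw [fold_iff]
    have hk0 : 0 < k := by omega
    let z : ℕ → Fin k := fun i => ⟨i % k, Nat.mod_lt _ hk0⟩
    have hz01 : z 0 ≠ z 1 := by
      intro h
      have := congrArg Fin.val h
      simp only [z] at this
      rw [Nat.mod_eq_of_lt (by omega), Nat.mod_eq_of_lt (by omega)] at this
      omega
    have hz02 : z 0 ≠ z 2 := by
      intro h
      have := congrArg Fin.val h
      simp only [z] at this
      rw [Nat.mod_eq_of_lt (by omega), Nat.mod_eq_of_lt (by omega)] at this
      omega
    have hz12 : z 1 ≠ z 2 := by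
      intro h
      have := congrArg Fin.val h
      simp only [z] at this
      rw [Nat.mod_eq_of_lt (by omega), Nat.mod_eq_of_lt (by omega)] at this
      omega
    have h1 := le_numCol_of_family (G := edge (0 : Fin 3) 1) (k := k)
      (fun (T : Fin 3) (x : Fin 3) => if x = 0 then z 0 else if x = 1 then z 1 else
        (if T = 0 then z 0 else if T = 1 then z 1 else z 2)) (by
        intro T x y hadj
        rw [edge_adj] at hadj
        obtain ⟨h1, h2⟩ := hadj
        rcases h1 with ⟨rfl, rfl⟩ | ⟨rfl, rfl⟩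
        · simpa using hz01
        · simpa using hz01.symm) (by
        intro S T h
        have h1 := h 0 2
        have h2 := h 1 2
        clear h
        simp only at h1 h2
        fin_cases S <;> fin_cases T <;> simp_all)
    simpa using h1
  · rw [eN, edgeSet_edge_of_ne hne]
    simp
  · intro H hH
    have := upperC H ((fold_iff H 3 k).1 hH)
    rw [h0, minEdges_three] at this
    simp only [show Nat.choose 3 2 = 3 by decide] at this
    omega

lemma numCol_one_le {n : ℕ} (G : SimpleGraph (Fin n)) : numCol G 1 ≤ 1 := by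
  have := finite_setoid (Fin n)
  have hs : Subsingleton {r : Setoid (Fin n) // IsColouring G 1 r} := by
    constructor
    intro r s
    apply Subtype.ext
    have key : ∀ r : {r : Setoid (Fin n) // IsColouring G 1 r}, ∀ x y, r.1 x y := by
      intro r x y
      have h := r.2.2
      have : Subsingleton (Quotient r.1) := (Finite.card_le_one_iff_subsingleton).1 h
      exact Quotient.exact (Subsingleton.elim (Quotient.mk r.1 x) (Quotient.mk r.1 y))
    ext x y
    exact ⟨fun _ => key s x y, fun _ => key r x y⟩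
  exact Finite.card_le_one_iff_subsingleton.2 hs

theorem case_one {d n : ℕ} (hd : 2 ≤ d) : edgeCounts d n 1 = ∅ := by
  ext e
  simp only [Set.mem_empty_iff_false, iff_false]
  rintro ⟨G, hG, _⟩
  have h1 := (fold_iff G d 1).1 hG.1
  have h2 := numCol_one_le G
  omega

lemma card_setoid_le {n : ℕ} (hn : n < 3) (G : SimpleGraph (Fin n)) (k : ℕ) :
    numCol G k ≤ 2 := by
  have h1 := numCol_le_sum G k
  have h2 := eN_compl G
  rw [Fintype.card_fin] at h2
  have h3 : n.choose 2 ≤ 1 := by
    have : n = 0 ∨ n = 1 ∨ n = 2 := by omega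
    rcases this with rfl | rfl | rfl <;> decide
  have h4 : ∑ j ∈ Icc (n - k) (eN Gᶜ), (eN Gᶜ).choose j ≤ ∑ j ∈ Icc 0 (eN Gᶜ), (eN Gᶜ).choose j :=
    sum_le_sum_of_subset (Icc_subset_Icc (Nat.zero_le _) le_rfl)
  have h5 : eN Gᶜ = 0 ∨ eN Gᶜ = 1 := by omega
  rcases h5 with h5 | h5
  · rw [h5] at h1 h4
    have : ∑ j ∈ Icc 0 0, Nat.choose 0 j = 1 := by decide
    omega
  · rw [h5] at h1 h4
    have : ∑ j ∈ Icc 0 1, Nat.choose 1 j = 2 := by decide
    omega

theorem case_small {n k : ℕ} (hn : n < 3) : edgeCounts 3 n k = ∅ := by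
  ext e
  simp only [Set.mem_empty_iff_false, iff_false]
  rintro ⟨G, hG, _⟩
  have h1 := (fold_iff G 3 k).1 hG.1
  have h2 := card_setoid_le hn G k
  omega

theorem main1 {d k n : ℕ} (hd : 2 ≤ d) (hk : 2 ≤ k)
    (hn : 2 * d ≤ n + 2 ∨ (k - 1) * Nat.clog 2 d < n ∨ d ≤ turanColourings n (k - 1) ∨
      2 * minEdges d (n - k) ≤ n ∨ (d = 3 ∧ n = 3)) :
    IsGreatest (edgeCounts d n k) (fValue d n k) := by
  unfold fValue
  split_ifs with h1 h2
  · exact caseA hd hk h1
  · exact caseB hd hk (by omega) h2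
  · rcases hn with h | h | h | h | ⟨rfl, rfl⟩
    · apply caseC
      have h3 := turanColourings_ge (n := n) (r := k - 1) (by omega)
      have := minEdges_le hd (show n - k + 2 ≤ d by omega)
      omega
    · exact absurd h h1
    · exact absurd h h2
    · exact caseC h
    · have hc : Nat.clog 2 3 = 2 := by
        apply le_antisymm
        · exact Nat.clog_le_of_le_pow (by norm_num)
        · by_contra hcon
          have h3 := Nat.le_pow_clog (b := 2) (by norm_num) 3
          have : Nat.clog 2 3 ≤ 1 := by omega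
          have := Nat.pow_le_pow_right (n := 2) (by norm_num) this
          omega
      rw [hc] at h1
      have h3 : 3 ≤ k := by omega
      rw [show 3 - k = 0 by omega, minEdges_three, show Nat.choose 3 2 - 2 = 1 by decide]
      exact case_three h3

end Pool.Agent.Lib.MP_70fc77_co
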