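import Mathlib
import Pool.Agent.Lib.MP_70fc77_co.Main1

set_option autoImplicit false

namespace Pool.Agent.Lib.MP_70fc77_co

open Finset SimpleGraph

variable {V : Type} [Fintype V] {G : SimpleGraph V} {k L : ℕ}

lemma typeC_numCol (h : TypeC G k L) : 2 ^ L ≤ numCol G k := by
  classical
  obtain ⟨p, a, b, x₁, x₂, y₁, y₂, hab, hx₁, hy₁, hx₂, hy₂, hx, hy, hA, hB, hO, hadj⟩ := h
  have hcard : Nat.card (Set.powerset ({x | p x = b} \ {x₂})) = 2 ^ L := by
    have h1 : ({x | p x = b} \ {x₂}).ncard = L := by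
      rw [Set.ncard_sdiff_singleton_of_mem (show x₂ ∈ {x | p x = b} from hx₂), hB]
      rfl
    have : Nat.card (Set.powerset ({x | p x = b} \ {x₂})) =
        2 ^ ({x | p x = b} \ {x₂}).ncard := by
      rw [← Set.ncard_powerset]; rfl
    rw [this, h1]
  rw [← hcard]
  let c : Set.powerset ({x | p x = b} \ {x₂}) → V → Fin k := fun T x =>
    if x ∈ T.1 then a else if x = y₁ ∧ y₂ ∈ T.1 then b else p x
  refine le_numCol_of_family c ?_ ?_
  · intro T x y hxy
    have hT : ∀ z ∈ T.1, p z = b ∧ z ≠ x₂ := fun z hz => T.2 hz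
    rw [hadj] at hxy
    obtain ⟨h1, h2, h3⟩ := hxy
    simp only [c]
    split_ifs with h4 h5 h6 h7 h8 h9 h10 h11
    · exact absurd ((hT x h4).1.trans (hT y h5).1.symm) h1
    · exact hab
    · intro h
      rcases h3 (hT x h4).1 h.symm with h | h
      · exact (hT x h4).2 h.1
      · exact h6 ⟨h.2, h.1 ▸ h4⟩
    · exact hab.symm
    · exact absurd (by rw [h7.1, h9.1]) h1
    · intro h
      rcases h2 (h7.1 ▸ hy₁) h.symm with h' | h'
      · exact hx (h'.1.symm.trans h7.1)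
      · exact h8 (h'.2 ▸ h7.2)
    · intro h
      rcases h2 h (hT y h10).1 with h' | h'
      · exact (hT y h10).2 h'.2
      · exact h7 ⟨h'.1, h'.2 ▸ h10⟩
    · intro h
      rcases h3 h (h11.1 ▸ hy₁) with h' | h'
      · exact hx (h'.2.symm.trans h11.1)
      · exact h4 (h'.1 ▸ h11.2)
    · exact h1
  · intro S T hST
    have key : ∀ (T : Set.powerset ({x | p x = b} \ {x₂})) (x : V),
        x ∈ ({x | p x = b} \ {x₂} : Set V) → (c T x = c T x₁ ↔ x ∈ T.1) := by
      intro T x hx'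
      have hT : ∀ z ∈ T.1, p z = b ∧ z ≠ x₂ := fun z hz => T.2 hz
      have h1 : x₁ ∉ T.1 := fun h => hab (hx₁.symm.trans (hT _ h).1)
      have h2 : x ≠ y₁ := fun h => hab (hy₁.symm.trans (h ▸ hx'.1))
      simp only [c]
      rw [if_neg h1, if_neg (fun h : x₁ = y₁ ∧ y₂ ∈ T.1 => hx h.1),
        if_neg (fun h : x = y₁ ∧ y₂ ∈ T.1 => h2 h.1), hx₁]
      by_cases h3 : x ∈ T.1
      · rw [if_pos h3]; exact ⟨fun _ => h3, fun _ => rfl⟩
      · rw [if_neg h3]
        exact ⟨fun h => absurd (h.symm.trans hx'.1) hab, fun h => absurd h h3⟩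
    apply Subtype.ext
    ext x
    by_cases hx' : x ∈ ({x | p x = b} \ {x₂} : Set V)
    · exact (key S x hx').symm.trans ((hST x x₁).trans (key T x hx'))
    · exact ⟨fun h => absurd (S.2 h) hx', fun h => absurd (T.2 h) hx'⟩

lemma typeC_eN (h : TypeC G k L) :
    eN G + Fintype.card V * L = tau k (Fintype.card V + L) := by
  classical
  obtain ⟨p, a, b, x₁, x₂, y₁, y₂, hab, hx₁, hy₁, hx₂, hy₂, hx, hy, hA, hB, hO, hadj⟩ := h
  let F : Set V := {x | p x = b} \ {x₂}
  let G0 : SimpleGraph V :=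
    { Adj := fun x y => p x ≠ p y ∧ ¬ (x ∈ F ∧ p y = a) ∧ ¬ (y ∈ F ∧ p x = a)
      symm := ⟨fun _ _ h => ⟨h.1.symm, h.2.2, h.2.1⟩⟩
      loopless := ⟨fun _ h => h.1 rfl⟩ }
  have hG0 : ∀ x y, G0.Adj x y ↔ p x ≠ p y ∧ ¬ (x ∈ F ∧ p y = a) ∧ ¬ (y ∈ F ∧ p x = a) :=
    fun _ _ => Iff.rfl
  have hFc : F.ncard = L := by
    rw [Set.ncard_sdiff_singleton_of_mem (show x₂ ∈ {x | p x = b} from hx₂), hB]
    rfl
  have hFa : ∀ x ∈ F, p x ≠ a := fun x hx h => hab (h.symm.trans hx.1)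
  have hVa : ∀ x, p x = a → x = x₁ ∨ x = y₁ := by
    intro x hxa
    have h1 : ({x₁, y₁} : Set V) = {x | p x = a} := by
      apply Set.eq_of_subset_of_ncard_le
      · intro z hz
        rcases hz with rfl | hz
        · exact hx₁
        · rw [Set.mem_singleton_iff.1 hz]; exact hy₁
      · rw [hA, Set.ncard_pair hx]
      · exact Set.toFinite _
    have : x ∈ ({x₁, y₁} : Set V) := by rw [h1]; exact hxa
    rcases this with h | h
    · left; exact h
    · right; exact Set.mem_singleton_iff.1 h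
  have e1 : eN (G ⊔ edge y₁ x₂) = eN G + 1 := by
    apply eN_sup_edge
    · intro h; exact hab (hy₁.symm.trans (h ▸ hx₂))
    · rw [hadj]
      rintro ⟨_, h2, _⟩
      rcases h2 hy₁ hx₂ with h | h
      · exact hx h.1.symm
      · exact hy h.2
  have e2 : eN (G0 ⊔ edge y₁ y₂) = eN G0 + 1 := by
    apply eN_sup_edge
    · intro h; exact hab (hy₁.symm.trans (h ▸ hy₂))
    · rw [hG0]
      rintro ⟨_, _, h3⟩
      exact h3 ⟨⟨hy₂, fun h => hy (Set.mem_singleton_iff.1 h).symm⟩, hy₁⟩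
  have e3 : G ⊔ edge y₁ x₂ = G0 ⊔ edge y₁ y₂ := by
    have hy₁x₂ : y₁ ≠ x₂ := fun h => hab (hy₁.symm.trans (h ▸ hx₂))
    have hy₁y₂ : y₁ ≠ y₂ := fun h => hab (hy₁.symm.trans (h ▸ hy₂))
    have hF : ∀ z, z ∈ F ↔ p z = b ∧ z ≠ x₂ := fun z => Iff.rfl
    ext x y
    rw [sup_adj, sup_adj, hadj, hG0, edge_adj, edge_adj, hF, hF]
    have h1 := hVa x
    have h2 := hVa y
    clear hadj hG0 hF hVa e1 e2 hO hFa hFc hA hB
    grind
  have e4 : eN G = eN G0 := by
    rw [e3, e2] at e1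
    omega
  rw [e4]
  have e5 := reduced_count (G := G0) (k := k) (L := L) (p := p) (a := a) (F := F)
    ⟨hFc, hFa, hG0⟩
  have hbal : ∀ i j, msize L p a i ≤ msize L p a j + 1 := by
    have h1 : ∀ i, msize L p a i = L + 1 ∨ msize L p a i = L + 2 := by
      intro i
      unfold msize
      by_cases hia : i = a
      · rw [if_pos hia, hia, hA]; right; omega
      · rw [if_neg hia]
        by_cases hib : i = b
        · rw [hib, hB]; left; rfl
        · exact hO i hia hib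
    intro i j
    have := h1 i
    have := h1 j
    omega
  have e6 := tau_balanced a.pos (msize L p a) hbal
  rw [msize_sum] at e6
  omega

end Pool.Agent.Lib.MP_70fc77_co
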