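import Mathlib
import Pool.Agent.Lib.MP_70fc77_co.TypeC

set_option autoImplicit false

namespace Pool.Agent.Lib.MP_70fc77_co

open Finset SimpleGraph

lemma numCol_le_ncard {V ι : Type} [Finite V] {G : SimpleGraph V} {k : ℕ} (S : Set ι)
    (hS : S.Finite) (f : Setoid V → ι) (hf : ∀ r, IsColouring G k r → f r ∈ S)
    (h : ∀ r s, IsColouring G k r → IsColouring G k s → f r = f s → r = s) :
    numCol G k ≤ S.ncard := by
  have := hS.to_subtype
  rw [numCol, ← Nat.card_coe_set_eq]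
  exact Nat.card_le_card_of_injective
    (fun r : {r : Setoid V // IsColouring G k r} => (⟨f r.1, hf r.1 r.2⟩ : S))
    (fun r s hrs => Subtype.ext (h r.1 s.1 r.2 s.2 (congrArg Subtype.val hrs)))

lemma numCol_le_pow {V : Type} [Finite V] {G : SimpleGraph V} {k : ℕ} (E : Set V)
    (Φ : Setoid V → V → Prop)
    (h : ∀ r s, IsColouring G k r → IsColouring G k s → (∀ f ∈ E, (Φ r f ↔ Φ s f)) → r = s) :
    numCol G k ≤ 2 ^ E.ncard := by
  rw [← Set.ncard_powerset]
  refine numCol_le_ncard (𝒫 E) (Set.toFinite _) (fun r => {f | f ∈ E ∧ Φ r f})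
    (fun r _ x hx => hx.1) ?_
  intro r s hr hs hrs
  apply h r s hr hs
  intro f hf
  have : f ∈ {f | f ∈ E ∧ Φ r f} ↔ f ∈ {f | f ∈ E ∧ Φ s f} := by rw [hrs]
  simp only [Set.mem_ofPred_eq, hf, true_and] at this
  exact this

/-- a graph with a vertex `u` in a `k`-clique and a further `k`-clique of anchors -/
structure Anchors {V : Type} (G : SimpleGraph V) (k : ℕ) (u : V) (q : Fin k → V) : Prop where
  cl : ∃ K : Finset V, G.IsNClique k K ∧ u ∈ K
  qadj : ∀ i j, i ≠ j → G.Adj (q i) (q j)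

namespace Anchors

variable {V : Type} {G : SimpleGraph V} {k : ℕ} {u : V} {q : Fin k → V} {r s : Setoid V}

lemma cover [Finite V] (S : Anchors G k u q) (hr : IsColouring G k r) (x : V) :
    ∃ i, r x (q i) := by
  classical
  have hinj : Function.Injective q := by
    intro i j h
    by_contra hne
    exact (S.qadj i j hne).ne h
  have hK : G.IsNClique k (univ.image q) := by
    constructor
    · intro x hx y hy hxy
      rw [coe_image] at hx hy
      obtain ⟨i, _, rfl⟩ := hx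
      obtain ⟨j, _, rfl⟩ := hy
      exact S.qadj i j (fun h => hxy (by rw [h]))
    · rw [card_image_of_injective _ hinj, card_univ, Fintype.card_fin]
  obtain ⟨y, hy, hxy⟩ := clique_cover hr hK x
  rw [mem_image] at hy
  obtain ⟨i, _, rfl⟩ := hy
  exact ⟨i, hxy⟩

lemma uniq (S : Anchors G k u q) (hr : IsColouring G k r) {x : V} {i j : Fin k}
    (hi : r x (q i)) (hj : r x (q j)) : i = j := by
  by_contra hne
  exact hr.1 _ _ (r.trans (r.symm hi) hj) (S.qadj i j hne)

lemma det0 [Finite V] (S : Anchors G k u q) (hr : IsColouring G k r) (hs : IsColouring G k s)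
    (h : ∀ x, x ≠ u → ∀ i, (r x (q i) → s x (q i))) : r = s := by
  obtain ⟨K, hK, hu⟩ := S.cl
  refine restr_inj hr hs hK hu ?_
  have h' : ∀ x, x ≠ u → ∀ i, (r x (q i) ↔ s x (q i)) := by
    intro x hx i
    refine ⟨h x hx i, fun hsx => ?_⟩
    obtain ⟨j, hj⟩ := S.cover hr x
    have := S.uniq hs hsx (h x hx j hj)
    rw [this]; exact hj
  have key : ∀ r : Setoid V, IsColouring G k r → ∀ x y, r x y ↔ ∃ i, r x (q i) ∧ r y (q i) := by
    intro r hr x y
    constructor
    · intro hxy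
      obtain ⟨i, hi⟩ := S.cover hr x
      exact ⟨i, hi, r.trans (r.symm hxy) hi⟩
    · rintro ⟨i, h1, h2⟩
      exact r.trans h1 (r.symm h2)
  ext ⟨x, hx⟩ ⟨y, hy⟩
  change r x y ↔ s x y
  rw [key r hr, key s hs]
  constructor
  · rintro ⟨i, h1, h2⟩; exact ⟨i, (h' x hx i).1 h1, (h' y hy i).1 h2⟩
  · rintro ⟨i, h1, h2⟩; exact ⟨i, (h' x hx i).2 h1, (h' y hy i).2 h2⟩

end Anchors

/-- `G - u` is a reduced Turan graph with anchors -/
structure Setup {V : Type} (G : SimpleGraph V) (k : ℕ) (u : V) (p : V → Fin k) (a : Fin k)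
    (F : Set V) (q : Fin k → V) : Prop where
  cl : ∃ K : Finset V, G.IsNClique k K ∧ u ∈ K
  uF : u ∉ F
  Fa : ∀ x ∈ F, p x ≠ a
  adj : ∀ x y, x ≠ u → y ≠ u →
    (G.Adj x y ↔ p x ≠ p y ∧ ¬ (x ∈ F ∧ p y = a) ∧ ¬ (y ∈ F ∧ p x = a))
  qu : ∀ i, q i ≠ u
  qp : ∀ i, p (q i) = i
  qF : ∀ i, q i ∉ F

namespace Setup

variable {V : Type} {G : SimpleGraph V} {k : ℕ} {u : V} {p : V → Fin k} {a : Fin k}
  {F : Set V} {q : Fin k → V} {r s : Setoid V}

lemma toAnchors (S : Setup G k u p a F q) : Anchors G k u q where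
  cl := S.cl
  qadj := by
    intro i j hij
    rw [S.adj _ _ (S.qu i) (S.qu j), S.qp, S.qp]
    exact ⟨hij, fun h => S.qF _ h.1, fun h => S.qF _ h.1⟩

lemma val (S : Setup G k u p a F q) (hr : IsColouring G k r) {x : V} (hx : x ≠ u) (hxF : x ∉ F)
    {i : Fin k} (h : r x (q i)) : i = p x := by
  by_contra hne
  refine hr.1 _ _ h ?_
  rw [S.adj _ _ hx (S.qu i), S.qp]
  exact ⟨fun h => hne h.symm, fun h => hxF h.1, fun h => S.qF _ h.1⟩

lemma valF (S : Setup G k u p a F q) (hr : IsColouring G k r) {x : V} (hxF : x ∈ F)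
    {i : Fin k} (h : r x (q i)) : i = p x ∨ i = a := by
  by_contra hne
  push Not at hne
  refine hr.1 _ _ h ?_
  rw [S.adj _ _ (fun h => S.uF (h ▸ hxF)) (S.qu i), S.qp]
  exact ⟨fun h => hne.1 h.symm, fun h => hne.2 h.2, fun h => S.qF _ h.1⟩

lemma rel [Finite V] (S : Setup G k u p a F q) (hr : IsColouring G k r) {x : V} (hx : x ≠ u)
    (hxF : x ∉ F) : r x (q (p x)) := by
  obtain ⟨i, hi⟩ := S.toAnchors.cover hr x
  rwa [S.val hr hx hxF hi] at hi

lemma relF [Finite V] (S : Setup G k u p a F q) (hr : IsColouring G k r) {x : V} (hxF : x ∈ F) :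
    r x (q a) ∨ r x (q (p x)) := by
  obtain ⟨i, hi⟩ := S.toAnchors.cover hr x
  rcases S.valF hr hxF hi with h | h
  · right; rwa [h] at hi
  · left; rwa [h] at hi

lemma notadj [Finite V] (S : Setup G k u p a F q) (hr : IsColouring G k r) {j : Fin k}
    (hj : r u (q j)) {y : V} (hy : y ≠ u) (hyF : y ∉ F) (hyj : p y = j) : ¬ G.Adj y u := by
  have := S.rel hr hy hyF
  rw [hyj] at this
  exact hr.1 _ _ (r.trans this (r.symm hj))

lemma notadj' (hr : IsColouring G k r) {j : Fin k}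
    (hj : r u (q j)) {y : V} (hy : r y (q j)) : ¬ G.Adj y u :=
  hr.1 _ _ (r.trans hy (r.symm hj))

lemma det [Finite V] (S : Setup G k u p a F q) (hr : IsColouring G k r) (hs : IsColouring G k s)
    (h : ∀ f ∈ F, (r f (q a) ↔ s f (q a))) : r = s := by
  apply S.toAnchors.det0 hr hs
  intro x hx i hi
  by_cases hxF : x ∈ F
  · rcases S.valF hr hxF hi with h' | h'
    · have hna : ¬ r x (q a) := by
        intro hra
        have := S.toAnchors.uniq hr hi hra
        exact S.Fa x hxF (h'.symm.trans this)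
      rw [h x hxF] at hna
      rcases S.relF hs hxF with h2 | h2
      · exact absurd h2 hna
      · rwa [h']
    · rw [h'] at hi ⊢
      exact (h x hxF).1 hi
  · rw [S.val hr hx hxF hi]
    exact S.rel hs hx hxF

/-- if the position of `f₀` is determined by the others, there are few colourings -/
lemma count [Finite V] (S : Setup G k u p a F q) {f₀ : V} (hf₀ : f₀ ∈ F)
    (h : ∀ r s, IsColouring G k r → IsColouring G k s →
      (∀ f ∈ F, f ≠ f₀ → (r f (q a) ↔ s f (q a))) → (r f₀ (q a) → s f₀ (q a))) :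
    2 * numCol G k ≤ 2 ^ F.ncard := by
  have h1 : numCol G k ≤ 2 ^ (F \ {f₀}).ncard := by
    apply numCol_le_pow (F \ {f₀}) (fun r f => r f (q a))
    intro r s hr hs hrs
    have hrs' : ∀ f ∈ F, f ≠ f₀ → (r f (q a) ↔ s f (q a)) := fun f hf hne =>
      hrs f ⟨hf, hne⟩
    apply S.det hr hs
    intro f hf
    by_cases hff : f = f₀
    · rw [hff]
      exact ⟨h r s hr hs hrs', h s r hs hr (fun f hf hne => (hrs' f hf hne).symm)⟩
    · exact hrs' f hf hff
  have h2 : (F \ {f₀}).ncard + 1 = F.ncard :=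
    Set.ncard_sdiff_singleton_add_one hf₀ (Set.toFinite F)
  rw [← h2, pow_succ]
  omega

/-- all flexible vertices have the same two classes -/
theorem stepA [Finite V] (S : Setup G k u p a F q) (hN : 2 ^ F.ncard < 2 * numCol G k)
    {b : Fin k} (hab : a ≠ b) (hb : ∀ x ∈ F, p x = b) :
    (∃ j, ∀ y, y ≠ u → (p y = j ∨ (y ∈ F ∧ j = a)) → ¬ G.Adj y u) ∨
    (∃ f ∈ F, G.Adj f u ∧ (∀ y, y ≠ u → p y = a → ¬ G.Adj y u) ∧
      (∀ y, y ≠ u → p y = b → y ≠ f → ¬ G.Adj y u)) := by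
  by_contra hcon
  push Not at hcon
  obtain ⟨H, H2⟩ := hcon
  have hFb : ∀ y, y ∈ F → y ≠ u := fun y hy h => S.uF (h ▸ hy)
  have h1 : ∀ r, IsColouring G k r → r u (q a) ∨ r u (q b) := by
    intro r hr
    obtain ⟨j, hj⟩ := S.toAnchors.cover hr u
    by_cases hja : j = a
    · left; rwa [hja] at hj
    by_cases hjb : j = b
    · right; rwa [hjb] at hj
    obtain ⟨y, hy, hy2, hy3⟩ := H j
    rcases hy2 with hy2 | hy2
    · refine absurd hy3 (S.notadj hr hj hy (fun hyF => ?_) hy2)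
      exact hjb (hy2.symm.trans (hb y hyF))
    · exact absurd hy2.2 hja
  have h2 : ∃ r, IsColouring G k r ∧ r u (q a) := by
    by_contra hno
    push Not at hno
    obtain ⟨y, hy, hy2, hy3⟩ := H b
    rcases hy2 with hy2 | hy2
    · by_cases hyF : y ∈ F
      · have := S.count hyF (fun r s hr hs _ _ => by
          have hsu : s u (q b) := (h1 s hs).resolve_left (hno s hs)
          rcases S.relF hs hyF with h | h
          · exact h
          · rw [hb y hyF] at h
            exact absurd hy3 (notadj' hs hsu h))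
        omega
      · have hpos : 0 < numCol G k := by
          rcases Nat.eq_zero_or_pos (numCol G k) with h | h
          · rw [h] at hN; simp at hN
          · exact h
        have hf := finite_setoid V
        obtain ⟨⟨r, hr⟩⟩ := (Nat.card_pos_iff.1 hpos).1
        exact S.notadj hr ((h1 r hr).resolve_left (hno r hr)) hy hyF hy2 hy3
    · exact hab hy2.2.symm
  have h3 : ∃ r, IsColouring G k r ∧ r u (q b) := by
    by_contra hno
    push Not at hno
    obtain ⟨y, hy, hy2, hy3⟩ := H a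
    by_cases hyF : y ∈ F
    · have := S.count hyF (fun r s hr hs _ hra => by
        have hru : r u (q a) := (h1 r hr).resolve_right (hno r hr)
        exact absurd hy3 (notadj' hr hru hra))
      omega
    · obtain ⟨r, hr, hra⟩ := h2
      rcases hy2 with hy2 | hy2
      · exact S.notadj hr hra hy hyF hy2 hy3
      · exact hyF hy2.1
  obtain ⟨r₁, hr₁, hr₁a⟩ := h2
  obtain ⟨r₂, hr₂, hr₂b⟩ := h3
  have h4 : ∀ y, y ≠ u → p y = a → ¬ G.Adj y u := fun y hy hya =>
    S.notadj hr₁ hr₁a hy (fun hyF => S.Fa y hyF hya) hya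
  obtain ⟨f, hf, hf2, hf3⟩ := H a
  have hfF : f ∈ F := by
    rcases hf2 with hf2 | hf2
    · exact absurd hf3 (h4 f hf hf2)
    · exact hf2.1
  obtain ⟨y, hy, hy2, hy3, hy4⟩ := H2 f hfF hf3 h4
  have hyF : y ∈ F := by
    by_contra hyF
    exact S.notadj hr₂ hr₂b hy hyF hy2 hy4
  have := S.count hyF (fun r s hr hs hrs hra => by
    have key : ∀ r, IsColouring G k r → ∀ x, x ∈ F → G.Adj x u → (r x (q a) ↔ r u (q b)) := by
      intro r hr x hx hxu
      constructor
      · intro h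
        exact (h1 r hr).resolve_left (fun h' => notadj' hr h' h hxu)
      · intro h
        rcases S.relF hr hx with h' | h'
        · exact h'
        · rw [hb x hx] at h'
          exact absurd hxu (notadj' hr h h')
    have e1 := (key r hr y hyF hy4).1 hra
    have e2 := (key r hr f hfF hf3).2 e1
    have e3 := (hrs f hfF (Ne.symm hy3)).1 e2
    exact (key s hs y hyF hy4).2 ((key s hs f hfF hf3).1 e3))
  omega

lemma ncard_lt_of {V : Type} [Finite V] {C X : Set V} {e t₁ t₂ : V} (he : e ∈ C)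
    (h1 : t₁ ∉ C) (h2 : t₂ ∉ C) (h12 : t₁ ≠ t₂) (hX : C \ {e} ⊆ X) (h1X : t₁ ∈ X) (h2X : t₂ ∈ X) :
    C.ncard < X.ncard := by
  have e1 : (C \ {e}).ncard + 1 = C.ncard := Set.ncard_sdiff_singleton_add_one he (Set.toFinite _)
  have e2 : (insert t₁ (insert t₂ (C \ {e}))).ncard = (C \ {e}).ncard + 2 := by
    rw [Set.ncard_insert_of_notMem _ (Set.toFinite _),
      Set.ncard_insert_of_notMem (fun h => h2 h.1) (Set.toFinite _)]
    intro h
    rcases h with h | h
    · exact h12 h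
    · exact h1 h.1
  have e3 : insert t₁ (insert t₂ (C \ {e})) ⊆ X :=
    Set.insert_subset h1X (Set.insert_subset h2X hX)
  have := Set.ncard_le_ncard e3 (Set.toFinite _)
  omega

/-- every admissible position occurs -/
lemma realise [Finite V] (S : Setup G k u p a F q) (hN : 2 ^ F.ncard < 2 * numCol G k)
    {b : Fin k} {w : V} (hw : w ∈ F) (hwb : p w ≠ b) (hb : ∀ x ∈ F, x ≠ w → p x = b)
    (T : Set V) (hT : T = {w} ∨ T ⊆ F \ {w}) :
    ∃ r, IsColouring G k r ∧ ∀ f ∈ F, (r f (q a) ↔ f ∈ T) := by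
  by_contra hno
  push Not at hno
  have hTm : T ∈ insert {w} (𝒫 (F \ {w})) := by
    rcases hT with h | h
    · left; exact h
    · right; exact h
  have h1 := numCol_le_ncard (G := G) (k := k) (insert {w} (𝒫 (F \ {w})) \ {T})
    (Set.toFinite _) (fun r => {f | f ∈ F ∧ r f (q a)}) (by
      intro r hr
      constructor
      · by_cases hrw : r w (q a)
        · left
          ext f
          simp only [Set.mem_ofPred_eq, Set.mem_singleton_iff]
          constructor
          · rintro ⟨hf, hfa⟩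
            by_contra hfw
            refine hr.1 _ _ (r.trans hfa (r.symm hrw)) ?_
            rw [S.adj _ _ (fun h => S.uF (h ▸ hf)) (fun h => S.uF (h ▸ hw))]
            exact ⟨fun h => hwb (h.symm.trans (hb f hf hfw)), fun h => S.Fa w hw h.2,
              fun h => S.Fa f hf h.2⟩
          · rintro rfl
            exact ⟨hw, hrw⟩
        · right
          intro f hf
          exact ⟨hf.1, fun h => hrw (Set.mem_singleton_iff.1 h ▸ hf.2)⟩
      · intro h
        obtain ⟨f, hf, hf2⟩ := hno r hr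
        have h3 : T = {f | f ∈ F ∧ r f (q a)} := (Set.mem_singleton_iff.1 h).symm
        have h4 : f ∈ T ↔ r f (q a) := by
          rw [h3]
          exact ⟨fun h => h.2, fun h => ⟨hf, h⟩⟩
        tauto)
    (by
      intro r s hr hs hrs
      apply S.det hr hs
      intro f hf
      have : f ∈ {f | f ∈ F ∧ r f (q a)} ↔ f ∈ {f | f ∈ F ∧ s f (q a)} := by rw [hrs]
      simp only [Set.mem_ofPred_eq, hf, true_and] at this
      exact this)
  have h2 := Set.ncard_sdiff_singleton_add_one hTm (Set.toFinite _)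
  have h3 : (insert {w} (𝒫 (F \ {w}))).ncard = 2 ^ (F \ {w}).ncard + 1 := by
    rw [Set.ncard_insert_of_notMem _ (Set.toFinite _), Set.ncard_powerset]
    intro h
    exact (h (Set.mem_singleton w)).2 rfl
  have h4 : (F \ {w}).ncard + 1 = F.ncard :=
    Set.ncard_sdiff_singleton_add_one hw (Set.toFinite F)
  rw [← h4, pow_succ] at hN
  omega

/-- one flexible vertex has a class different from that of the others -/
theorem stepB [Finite V] (S : Setup G k u p a F q) (hN : 2 ^ F.ncard < 2 * numCol G k)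
    {b : Fin k} {w : V} (hw : w ∈ F) (hwb : p w ≠ b) (hb : ∀ x ∈ F, x ≠ w → p x = b)
    (hF2 : ∃ f ∈ F, f ≠ w) :
    (∃ j, ∀ y, y ≠ u → (p y = j ∨ (y ∈ F ∧ j = a)) → ¬ G.Adj y u) ∨
    (∃ j, j ≠ a ∧ {y | y ≠ u ∧ p y = j}.ncard < {y | y ≠ u ∧ ¬ G.Adj y u}.ncard) := by
  by_contra hcon
  push Not at hcon
  obtain ⟨H, H2⟩ := hcon
  have hFu : ∀ y, y ∈ F → y ≠ u := fun y hy h => S.uF (h ▸ hy)
  have hwu := hFu w hw
  obtain ⟨f₀, hf₀, hf₀w⟩ := hF2
  have hba : b ≠ a := by
    rw [← hb f₀ hf₀ hf₀w]; exact S.Fa f₀ hf₀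
  have hwa : p w ≠ a := S.Fa w hw
  have hqa : q a ≠ w := fun h => S.qF a (h ▸ hw)
  -- the classes of `u`
  have h1 : ∀ r, IsColouring G k r → r u (q a) ∨ r u (q b) ∨ r u (q (p w)) := by
    intro r hr
    obtain ⟨j, hj⟩ := S.toAnchors.cover hr u
    by_cases hja : j = a
    · left; rwa [hja] at hj
    by_cases hjb : j = b
    · right; left; rwa [hjb] at hj
    by_cases hjw : j = p w
    · right; right; rwa [hjw] at hj
    obtain ⟨y, hy, hy2, hy3⟩ := H j
    rcases hy2 with hy2 | hy2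
    · refine absurd hy3 (S.notadj hr hj hy (fun hyF => ?_) hy2)
      by_cases hyw : y = w
      · exact hjw (hy2.symm.trans (by rw [hyw]))
      · exact hjb (hy2.symm.trans (hb y hyF hyw))
    · exact absurd hy2.2 hja
  -- three colourings
  obtain ⟨r₀, hr₀, hr₀T⟩ := S.realise hN hw hwb hb ∅ (Or.inr (Set.empty_subset _))
  obtain ⟨r₁, hr₁, hr₁T⟩ := S.realise hN hw hwb hb (F \ {w}) (Or.inr le_rfl)
  obtain ⟨r₂, hr₂, hr₂T⟩ := S.realise hN hw hwb hb {w} (Or.inl rfl)
  have inb : ∀ r, IsColouring G k r → ∀ f ∈ F, f ≠ w → ¬ r f (q a) → r f (q b) := by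
    intro r hr f hf hfw h
    rcases S.relF hr hf with h' | h'
    · exact absurd h' h
    · rwa [hb f hf hfw] at h'
  have inw : ∀ r, IsColouring G k r → ¬ r w (q a) → r w (q (p w)) := fun r hr h =>
    (S.relF hr hw).resolve_left h
  have Va : ∀ r, IsColouring G k r → r u (q a) → ∀ y, y ≠ u → p y = a → ¬ G.Adj y u :=
    fun r hr hra y hy hya => S.notadj hr hra hy (fun hyF => S.Fa y hyF hya) hya
  have Vb : ∀ r, IsColouring G k r → r u (q b) → ∀ y, y ≠ u → y ∉ F → p y = b → ¬ G.Adj y u :=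
    fun r hr hrb y hy hyF hyb => S.notadj hr hrb hy hyF hyb
  -- `C_b` is not contained in `X`
  have nb : ¬ ((∀ f ∈ F, f ≠ w → ¬ G.Adj f u) ∧
      (∀ y, y ≠ u → y ∉ F → p y = b → ¬ G.Adj y u)) := by
    rintro ⟨h2, h3⟩
    obtain ⟨y, hy, hy2, hy3⟩ := H b
    rcases hy2 with hy2 | hy2
    · by_cases hyF : y ∈ F
      · exact h2 y hyF (fun h => hwb (h ▸ hy2)) hy3
      · exact h3 y hy hyF hy2 hy3
    · exact hba hy2.2
  have na : ¬ ((∀ f ∈ F, ¬ G.Adj f u) ∧ (∀ y, y ≠ u → p y = a → ¬ G.Adj y u)) := by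
    rintro ⟨h2, h3⟩
    obtain ⟨y, hy, hy2, hy3⟩ := H a
    rcases hy2 with hy2 | hy2
    · exact h3 y hy hy2 hy3
    · exact h2 y hy2.1 hy3
  have r₂b : ¬ r₂ u (q b) := by
    intro h
    apply nb
    refine ⟨fun f hf hfw => ?_, Vb r₂ hr₂ h⟩
    exact notadj' hr₂ h (inb r₂ hr₂ f hf hfw (by rw [hr₂T f hf]; exact hfw))
  have r₀b : ¬ r₀ u (q b) := by
    intro h
    apply nb
    refine ⟨fun f hf hfw => ?_, Vb r₀ hr₀ h⟩
    exact notadj' hr₀ h (inb r₀ hr₀ f hf hfw (by rw [hr₀T f hf]; exact fun h => h))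
  have r₀w : r₀ w (q (p w)) := inw r₀ hr₀ (by rw [hr₀T w hw]; exact fun h => h)
  have r₁w : r₁ w (q (p w)) := inw r₁ hr₁ (by rw [hr₁T w hw]; exact fun h => h.2 rfl)
  have r₂w : r₂ w (q a) := (hr₂T w hw).2 rfl
  by_cases hc : ∃ r, IsColouring G k r ∧ r u (q (p w))
  · obtain ⟨r, hr, hrc⟩ := hc
    have hVc : ∀ y, y ≠ u → y ≠ w → p y = p w → ¬ G.Adj y u := by
      intro y hy hyw hyc
      refine S.notadj hr hrc hy (fun hyF => ?_) hyc
      exact hwb (hyc.symm.trans (hb y hyF hyw))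
    have hwX : G.Adj w u := by
      by_contra hwX
      obtain ⟨y, hy, hy2, hy3⟩ := H (p w)
      rcases hy2 with hy2 | hy2
      · by_cases hyw : y = w
        · exact hwX (hyw ▸ hy3)
        · exact hVc y hy hyw hy2 hy3
      · exact hwa hy2.2
    have r₀a : r₀ u (q a) := by
      rcases h1 r₀ hr₀ with h | h | h
      · exact h
      · exact absurd h r₀b
      · exact absurd hwX (notadj' hr₀ h r₀w)
    have hqaX : ¬ G.Adj (q a) u := Va r₀ hr₀ r₀a (q a) (S.qu a) (S.qp a)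
    have hqac : p (q a) ≠ p w := by rw [S.qp]; exact hwa.symm
    have hex : ∃ t, t ≠ u ∧ ¬ G.Adj t u ∧ p t = b := by
      rcases h1 r₁ hr₁ with h | h | h
      · refine ⟨f₀, hFu f₀ hf₀, ?_, hb f₀ hf₀ hf₀w⟩
        exact notadj' hr₁ h ((hr₁T f₀ hf₀).2 ⟨hf₀, hf₀w⟩)
      · exact ⟨q b, S.qu b, Vb r₁ hr₁ h (q b) (S.qu b) (S.qF b) (S.qp b), S.qp b⟩
      · exact absurd hwX (notadj' hr₁ h r₁w)
    obtain ⟨t, htu, htX, htb⟩ := hex
    have h5 := H2 (p w) hwa
    have h6 := ncard_lt_of (C := {y | y ≠ u ∧ p y = p w}) (X := {y | y ≠ u ∧ ¬ G.Adj y u})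
      (e := w) (t₁ := q a) (t₂ := t) ⟨hwu, rfl⟩ (fun h => hqac h.2)
      (fun h => hwb (h.2.symm.trans htb)) (fun h => hba (by rw [← htb, ← h, S.qp]))
      (fun y hy => ⟨hy.1.1, hVc y hy.1.1 hy.2 hy.1.2⟩) ⟨S.qu a, hqaX⟩ ⟨htu, htX⟩
    omega
  · push Not at hc
    have h1' : ∀ r, IsColouring G k r → r u (q a) ∨ r u (q b) := by
      intro r hr
      rcases h1 r hr with h | h | h
      · left; exact h
      · right; exact h
      · exact absurd h (hc r hr)
    have r₂a : r₂ u (q a) := (h1' r₂ hr₂).resolve_right r₂b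
    have hwX : ¬ G.Adj w u := notadj' hr₂ r₂a r₂w
    have hVa := Va r₂ hr₂ r₂a
    have hf : ∃ f ∈ F, f ≠ w ∧ G.Adj f u := by
      by_contra hno
      push Not at hno
      apply na
      refine ⟨fun f hf => ?_, hVa⟩
      by_cases hfw : f = w
      · rw [hfw]; exact hwX
      · exact hno f hf hfw
    obtain ⟨f, hfF, hfw, hfX⟩ := hf
    have hVb : ∀ y, y ≠ u → y ∉ F → p y = b → ¬ G.Adj y u := by
      rcases h1' r₁ hr₁ with h | h
      · exact absurd hfX (notadj' hr₁ h ((hr₁T f hfF).2 ⟨hfF, hfw⟩))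
      · exact Vb r₁ hr₁ h
    have huniq : ∀ f' ∈ F, f' ≠ w → f' ≠ f → ¬ G.Adj f' u := by
      intro f' hf' hf'w hne hadj
      obtain ⟨r₃, hr₃, hr₃T⟩ := S.realise hN hw hwb hb {f} (Or.inr (by
        intro z hz
        rw [Set.mem_singleton_iff.1 hz]
        exact ⟨hfF, hfw⟩))
      rcases h1' r₃ hr₃ with h | h
      · exact notadj' hr₃ h ((hr₃T f hfF).2 rfl) hfX
      · exact notadj' hr₃ h (inb r₃ hr₃ f' hf' hf'w (by rw [hr₃T f' hf']; exact hne)) hadj
    have h5 := H2 b hba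
    have h6 := ncard_lt_of (C := {y | y ≠ u ∧ p y = b}) (X := {y | y ≠ u ∧ ¬ G.Adj y u})
      (e := f) (t₁ := q a) (t₂ := w) ⟨hFu f hfF, hb f hfF hfw⟩
      (fun h => hba (by rw [← h.2, S.qp])) (fun h => hwb h.2) hqa
      (fun y hy => ⟨hy.1.1, by
        by_cases hyF : y ∈ F
        · exact huniq y hyF (fun h => hwb (h ▸ hy.1.2)) hy.2
        · exact hVb y hy.1.1 hyF hy.1.2⟩)
      ⟨S.qu a, hVa (q a) (S.qu a) (S.qp a)⟩ ⟨hwu, hwX⟩
    omega

end Setup

end Pool.Agent.Lib.MP_70fc77_co
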