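import Mathlib
import Pool.Agent.Lib.MP_70fc77_co.Step

set_option autoImplicit false

namespace Pool.Agent.Lib.MP_70fc77_co

open Finset SimpleGraph

/-- `G - u` is a sporadic graph -/
structure SetupC {V : Type} (G : SimpleGraph V) (k : ℕ) (u : V) (p : V → Fin k) (a b : Fin k)
    (x₁ x₂ y₁ y₂ : V) (q : Fin k → V) : Prop where
  cl : ∃ K : Finset V, G.IsNClique k K ∧ u ∈ K
  ab : a ≠ b
  hx₁ : p x₁ = a
  hy₁ : p y₁ = a
  hx₂ : p x₂ = b
  hy₂ : p y₂ = b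
  hx : x₁ ≠ y₁
  hy : x₂ ≠ y₂
  ux₁ : x₁ ≠ u
  uy₁ : y₁ ≠ u
  ux₂ : x₂ ≠ u
  uy₂ : y₂ ≠ u
  Va : ∀ y, y ≠ u → p y = a → y = x₁ ∨ y = y₁
  adj : ∀ x y, x ≠ u → y ≠ u → (G.Adj x y ↔ p x ≠ p y ∧
      (p x = a → p y = b → (x = x₁ ∧ y = x₂) ∨ (x = y₁ ∧ y = y₂)) ∧
      (p x = b → p y = a → (x = x₂ ∧ y = x₁) ∨ (x = y₂ ∧ y = y₁)))
  qu : ∀ i, q i ≠ u
  qp : ∀ i, p (q i) = i
  qa : q a = x₁
  qb : q b = x₂

namespace SetupC

variable {V : Type} {G : SimpleGraph V} {k : ℕ} {u : V} {p : V → Fin k} {a b : Fin k}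
  {x₁ x₂ y₁ y₂ : V} {q : Fin k → V} {r s : Setoid V}

lemma adj_out (S : SetupC G k u p a b x₁ x₂ y₁ y₂ q) {x y : V} (hx : x ≠ u) (hy : y ≠ u)
    (h : p x ≠ p y) (hya : p y ≠ a) (hyb : p y ≠ b) : G.Adj x y := by
  rw [S.adj x y hx hy]
  exact ⟨h, fun _ h => absurd h hyb, fun _ h => absurd h hya⟩

lemma adjx (S : SetupC G k u p a b x₁ x₂ y₁ y₂ q) : G.Adj x₁ x₂ := by
  rw [S.adj x₁ x₂ S.ux₁ S.ux₂, S.hx₁, S.hx₂]
  exact ⟨S.ab, fun _ _ => Or.inl ⟨rfl, rfl⟩, fun h => absurd h S.ab⟩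

lemma adjy (S : SetupC G k u p a b x₁ x₂ y₁ y₂ q) : G.Adj y₁ y₂ := by
  rw [S.adj y₁ y₂ S.uy₁ S.uy₂, S.hy₁, S.hy₂]
  exact ⟨S.ab, fun _ _ => Or.inr ⟨rfl, rfl⟩, fun h => absurd h S.ab⟩

lemma toAnchors (S : SetupC G k u p a b x₁ x₂ y₁ y₂ q) : Anchors G k u q where
  cl := S.cl
  qadj := by
    have key : ∀ i j, i ≠ j → j ≠ a → j ≠ b → G.Adj (q i) (q j) := by
      intro i j hij hja hjb
      apply S.adj_out (S.qu i) (S.qu j)
      · rwa [S.qp, S.qp]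
      · rwa [S.qp]
      · rwa [S.qp]
    intro i j hij
    by_cases hja : j = a
    · by_cases hib : i = b
      · rw [hja, hib, S.qa, S.qb]; exact S.adjx.symm
      · exact (key j i hij.symm (fun h => hij (h.trans hja.symm)) hib).symm
    · by_cases hjb : j = b
      · by_cases hia : i = a
        · rw [hjb, hia, S.qa, S.qb]; exact S.adjx
        · exact (key j i hij.symm hia (fun h => hij (h.trans hjb.symm))).symm
      · exact key i j hij hja hjb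

lemma val (S : SetupC G k u p a b x₁ x₂ y₁ y₂ q) (hr : IsColouring G k r) {x : V} (hx : x ≠ u)
    (hxa : p x ≠ a) (hxb : p x ≠ b) {i : Fin k} (h : r x (q i)) : i = p x := by
  by_contra hne
  refine hr.1 _ _ h (S.adj_out (S.qu i) hx ?_ hxa hxb).symm
  rwa [S.qp]

lemma valZ (S : SetupC G k u p a b x₁ x₂ y₁ y₂ q) (hr : IsColouring G k r) {x : V} (hx : x ≠ u)
    (hxZ : p x = a ∨ p x = b) {i : Fin k} (h : r x (q i)) : i = a ∨ i = b := by
  by_contra hne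
  push Not at hne
  refine hr.1 _ _ h (S.adj_out hx (S.qu i) ?_ (by rw [S.qp]; exact hne.1)
    (by rw [S.qp]; exact hne.2))
  rw [S.qp]
  rcases hxZ with h | h
  · rw [h]; exact hne.1.symm
  · rw [h]; exact hne.2.symm

lemma relZ [Finite V] (S : SetupC G k u p a b x₁ x₂ y₁ y₂ q) (hr : IsColouring G k r) {x : V}
    (hx : x ≠ u) (hxZ : p x = a ∨ p x = b) : r x (q a) ∨ r x (q b) := by
  obtain ⟨i, hi⟩ := S.toAnchors.cover hr x
  rcases S.valZ hr hx hxZ hi with h | h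
  · left; rwa [h] at hi
  · right; rwa [h] at hi

lemma notboth (S : SetupC G k u p a b x₁ x₂ y₁ y₂ q) (hr : IsColouring G k r) {x : V}
    (h1 : r x (q a)) (h2 : r x (q b)) : False :=
  S.ab (S.toAnchors.uniq hr h1 h2)

lemma Py₁ [Finite V] (S : SetupC G k u p a b x₁ x₂ y₁ y₂ q) (hr : IsColouring G k r) :
    r y₁ (q a) ↔ ¬ r y₂ (q a) := by
  constructor
  · intro h1 h2
    exact hr.1 _ _ (r.trans h1 (r.symm h2)) S.adjy
  · intro h2
    rcases S.relZ hr S.uy₁ (Or.inl S.hy₁) with h | h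
    · exact h
    · rcases S.relZ hr S.uy₂ (Or.inr S.hy₂) with h' | h'
      · exact absurd h' h2
      · exact absurd S.adjy (hr.1 _ _ (r.trans h (r.symm h')))

lemma agree [Finite V] (S : SetupC G k u p a b x₁ x₂ y₁ y₂ q) (hr : IsColouring G k r)
    (hs : IsColouring G k s) (f₀ : V)
    (h : ∀ f, f ≠ u → p f = b → f ≠ x₂ → f ≠ f₀ → (r f (q a) ↔ s f (q a))) {g : V} (hg : g ≠ u)
    (hgZ : p g = a ∨ p g = b) (hgf : g ≠ f₀) (hgy : g = y₁ → y₂ ≠ f₀) :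
    r g (q a) → s g (q a) := by
  intro hga
  rcases hgZ with hgZ | hgZ
  · rcases S.Va g hg hgZ with rfl | rfl
    · rw [S.qa]
    · rw [S.Py₁ hs, ← h y₂ S.uy₂ S.hy₂ S.hy.symm (hgy rfl), ← S.Py₁ hr]
      exact hga
  · by_cases hg2 : g = x₂
    · exfalso
      refine S.notboth hr hga ?_
      rw [hg2, S.qb]
    · exact (h g hg hgZ hg2 hgf).1 hga

lemma detC [Finite V] (S : SetupC G k u p a b x₁ x₂ y₁ y₂ q) (hr : IsColouring G k r)
    (hs : IsColouring G k s)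
    (h : ∀ f, f ≠ u → p f = b → f ≠ x₂ → (r f (q a) ↔ s f (q a))) : r = s := by
  apply S.toAnchors.det0 hr hs
  intro x hx i hi
  have hag := fun {g : V} (hg : g ≠ u) (hgZ : p g = a ∨ p g = b) =>
    S.agree hr hs u (fun f h1 h2 h3 _ => h f h1 h2 h3) hg hgZ hg (fun _ => S.uy₂)
  have hag' := fun {g : V} (hg : g ≠ u) (hgZ : p g = a ∨ p g = b) =>
    S.agree hs hr u (fun f h1 h2 h3 _ => (h f h1 h2 h3).symm) hg hgZ hg (fun _ => S.uy₂)
  by_cases hxZ : p x = a ∨ p x = b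
  · rcases S.valZ hr hx hxZ hi with hia | hib
    · rw [hia] at hi ⊢
      exact hag hx hxZ hi
    · rw [hib] at hi ⊢
      rcases S.relZ hs hx hxZ with h' | h'
      · exact (S.notboth hr (hag' hx hxZ h') hi).elim
      · exact h'
  · push Not at hxZ
    rw [S.val hr hx hxZ.1 hxZ.2 hi]
    obtain ⟨j, hj⟩ := S.toAnchors.cover hs x
    rwa [S.val hs hx hxZ.1 hxZ.2 hj] at hj

lemma countC [Finite V] (S : SetupC G k u p a b x₁ x₂ y₁ y₂ q) {L : ℕ}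
    (hL : {y | y ≠ u ∧ p y = b}.ncard = L + 1) {f₀ : V} (hf₀ : f₀ ≠ u) (hf₀b : p f₀ = b)
    (hf₀x : f₀ ≠ x₂)
    (h : ∀ r s, IsColouring G k r → IsColouring G k s →
      (∀ f, f ≠ u → p f = b → f ≠ x₂ → f ≠ f₀ → (r f (q a) ↔ s f (q a))) →
      (r f₀ (q a) → s f₀ (q a))) :
    2 * numCol G k ≤ 2 ^ L := by
  have e1 : ({y | y ≠ u ∧ p y = b} \ {x₂}).ncard + 1 = L + 1 := by
    rw [← hL]
    exact Set.ncard_sdiff_singleton_add_one ⟨S.ux₂, S.hx₂⟩ (Set.toFinite _)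
  have e2 : (({y | y ≠ u ∧ p y = b} \ {x₂}) \ {f₀}).ncard + 1 =
      ({y | y ≠ u ∧ p y = b} \ {x₂}).ncard :=
    Set.ncard_sdiff_singleton_add_one ⟨⟨hf₀, hf₀b⟩, hf₀x⟩ (Set.toFinite _)
  have h1 : numCol G k ≤ 2 ^ (({y | y ≠ u ∧ p y = b} \ {x₂}) \ {f₀}).ncard := by
    apply numCol_le_pow _ (fun r f => r f (q a))
    intro r s hr hs hrs
    have hrs' : ∀ f, f ≠ u → p f = b → f ≠ x₂ → f ≠ f₀ → (r f (q a) ↔ s f (q a)) :=
      fun f h1 h2 h3 h4 => hrs f ⟨⟨⟨h1, h2⟩, h3⟩, h4⟩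
    apply S.detC hr hs
    intro f hf hfb hfx
    by_cases hff : f = f₀
    · rw [hff]
      exact ⟨h r s hr hs hrs', h s r hs hr (fun f h1 h2 h3 h4 => (hrs' f h1 h2 h3 h4).symm)⟩
    · exact hrs' f hf hfb hfx hff
  have e3 : L = (({y | y ≠ u ∧ p y = b} \ {x₂}) \ {f₀}).ncard + 1 := by omega
  rw [e3, pow_succ]
  omega

theorem stepC [Finite V] (S : SetupC G k u p a b x₁ x₂ y₁ y₂ q) {L : ℕ}
    (hL : {y | y ≠ u ∧ p y = b}.ncard = L + 1) (hN : 2 ^ L < 2 * numCol G k) :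
    (∃ j, j ≠ a ∧ j ≠ b ∧ ∀ y, y ≠ u → p y = j → ¬ G.Adj y u) ∨
    (∀ g₁ g₂, g₁ ≠ u → g₂ ≠ u → (p g₁ = a ∨ p g₁ = b) → (p g₂ = a ∨ p g₂ = b) →
      G.Adj g₁ u → G.Adj g₂ u → g₁ = g₂) := by
  by_contra hcon
  push Not at hcon
  obtain ⟨H, g₁, g₂, hg₁, hg₂, hg₁Z, hg₂Z, hadj₁, hadj₂, hne⟩ := hcon
  have h1 : ∀ r, IsColouring G k r → r u (q a) ∨ r u (q b) := by
    intro r hr
    obtain ⟨j, hj⟩ := S.toAnchors.cover hr u
    by_cases hja : j = a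
    · left; rwa [hja] at hj
    by_cases hjb : j = b
    · right; rwa [hjb] at hj
    obtain ⟨y, hy, hy2, hy3⟩ := H j hja hjb
    obtain ⟨i, hi⟩ := S.toAnchors.cover hr y
    have := S.val hr hy (by rw [hy2]; exact hja) (by rw [hy2]; exact hjb) hi
    rw [this, hy2] at hi
    exact absurd hy3 (hr.1 _ _ (r.trans hi (r.symm hj)))
  have key : ∀ r, IsColouring G k r → ∀ x, x ≠ u → (p x = a ∨ p x = b) → G.Adj x u →
      (r x (q a) ↔ r u (q b)) := by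
    intro r hr x hx hxZ hxu
    constructor
    · intro h
      exact (h1 r hr).resolve_left (fun h' => hr.1 _ _ (r.trans h (r.symm h')) hxu)
    · intro h
      rcases S.relZ hr hx hxZ with h' | h'
      · exact h'
      · exact absurd hxu (hr.1 _ _ (r.trans h' (r.symm h)))
  have key2 : ∀ r, IsColouring G k r → (r g₁ (q a) ↔ r g₂ (q a)) := fun r hr =>
    (key r hr g₁ hg₁ hg₁Z hadj₁).trans (key r hr g₂ hg₂ hg₂Z hadj₂).symm
  -- general argument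
  have gen : ∀ f₀ g, f₀ ≠ u → p f₀ = b → f₀ ≠ x₂ → g ≠ u → (p g = a ∨ p g = b) → g ≠ f₀ →
      (g = y₁ → y₂ ≠ f₀) → (∀ r, IsColouring G k r → (r f₀ (q a) ↔ r g (q a))) → False := by
    intro f₀ g h1 h2 h3 h4 h5 h6 h7 h8
    have := S.countC hL h1 h2 h3 (fun r s hr hs hrs hra =>
      (h8 s hs).2 (S.agree hr hs f₀ hrs h4 h5 h6 h7 ((h8 r hr).1 hra)))
    omega
  have gen2 : ∀ g, g ≠ u → (p g = a ∨ p g = b) → g ≠ y₂ → g ≠ y₁ →
      (∀ r, IsColouring G k r → (r y₁ (q a) ↔ r g (q a))) → False := by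
    intro g h4 h5 h6 h7 h8
    have := S.countC hL S.uy₂ S.hy₂ S.hy.symm (fun r s hr hs hrs hra => by
      by_contra hsa
      have h9 := (S.Py₁ hs).2 hsa
      have h10 := (h8 s hs).1 h9
      have h11 := S.agree hs hr y₂ (fun f h1 h2 h3 h4 => (hrs f h1 h2 h3 h4).symm) h4 h5 h6
        (fun h => absurd h h7) h10
      have h12 := (h8 r hr).2 h11
      exact (S.Py₁ hr).1 h12 hra)
    omega
  -- classify the vertices
  have cls : ∀ g, g ≠ u → (p g = a ∨ p g = b) → g = x₁ ∨ g = y₁ ∨ g = x₂ ∨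
      (p g = b ∧ g ≠ x₂) := by
    intro g hg hgZ
    rcases hgZ with h | h
    · rcases S.Va g hg h with h | h
      · left; exact h
      · right; left; exact h
    · by_cases hgx : g = x₂
      · right; right; left; exact hgx
      · right; right; right; exact ⟨h, hgx⟩
  have hpos : ∃ r, IsColouring G k r := by
    have hpos : 0 < numCol G k := by
      rcases Nat.eq_zero_or_pos (numCol G k) with h | h
      · rw [h] at hN; simp at hN
      · exact h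
    have hf := finite_setoid V
    obtain ⟨⟨r, hr⟩⟩ := (Nat.card_pos_iff.1 hpos).1
    exact ⟨r, hr⟩
  obtain ⟨r, hr⟩ := hpos
  have hrx₁ : r x₁ (q a) := by rw [S.qa]
  have hrx₂ : ¬ r x₂ (q a) := fun h => S.notboth hr h (by rw [S.qb])
  have hxy : x₁ ≠ y₂ := fun h => S.ab (S.hx₁.symm.trans (h ▸ S.hy₂))
  have hyx : x₂ ≠ y₁ := fun h => S.ab (S.hy₁.symm.trans (h ▸ S.hx₂))
  -- the case of one vertex in `V_b` other than `x₂` and `y₂`
  have big : ∀ g g', g ≠ u → p g = b → g ≠ x₂ → g ≠ y₂ → g' ≠ u → (p g' = a ∨ p g' = b) →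
      g' ≠ g → (∀ r, IsColouring G k r → (r g (q a) ↔ r g' (q a))) → False := by
    intro g g' h1 h2 h3 h4 h5 h6 h7 h8
    exact gen g g' h1 h2 h3 h5 h6 h7 (fun _ => h4.symm) h8
  have key2' : ∀ r, IsColouring G k r → (r g₂ (q a) ↔ r g₁ (q a)) := fun r hr =>
    (key2 r hr).symm
  by_cases hb₁ : p g₁ = b ∧ g₁ ≠ x₂ ∧ g₁ ≠ y₂
  · exact big g₁ g₂ hg₁ hb₁.1 hb₁.2.1 hb₁.2.2 hg₂ hg₂Z hne.symm key2
  by_cases hb₂ : p g₂ = b ∧ g₂ ≠ x₂ ∧ g₂ ≠ y₂
  · exact big g₂ g₁ hg₂ hb₂.1 hb₂.2.1 hb₂.2.2 hg₁ hg₁Z hne key2'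
  have c₁ : g₁ = x₁ ∨ g₁ = y₁ ∨ g₁ = x₂ ∨ g₁ = y₂ := by
    rcases cls g₁ hg₁ hg₁Z with h | h | h | h
    · left; exact h
    · right; left; exact h
    · right; right; left; exact h
    · right; right; right
      by_contra h'
      exact hb₁ ⟨h.1, h.2, h'⟩
  have c₂ : g₂ = x₁ ∨ g₂ = y₁ ∨ g₂ = x₂ ∨ g₂ = y₂ := by
    rcases cls g₂ hg₂ hg₂Z with h | h | h | h
    · left; exact h
    · right; left; exact h
    · right; right; left; exact h
    · right; right; right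
      by_contra h'
      exact hb₂ ⟨h.1, h.2, h'⟩
  rcases c₁ with rfl | rfl | rfl | rfl
  · rcases c₂ with rfl | rfl | rfl | rfl
    · exact hne rfl
    · exact gen2 g₁ hg₁ hg₁Z hxy hne key2'
    · exact hrx₂ ((key2 r hr).1 hrx₁)
    · exact gen g₂ g₁ hg₂ S.hy₂ S.hy.symm hg₁ hg₁Z hne (fun h => absurd h S.hx) key2'
  · rcases c₂ with rfl | rfl | rfl | rfl
    · exact gen2 g₂ hg₂ hg₂Z hxy hne.symm key2
    · exact hne rfl
    · exact gen2 g₂ hg₂ hg₂Z S.hy hne.symm key2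
    · have h2 := key2 r hr
      have h3 := S.Py₁ hr
      tauto
  · rcases c₂ with rfl | rfl | rfl | rfl
    · exact hrx₂ ((key2 r hr).2 hrx₁)
    · exact gen2 g₁ hg₁ hg₁Z S.hy hne key2'
    · exact hne rfl
    · exact gen g₂ g₁ hg₂ S.hy₂ S.hy.symm hg₁ hg₁Z hne (fun h => absurd h hyx) key2'
  · rcases c₂ with rfl | rfl | rfl | rfl
    · exact gen g₁ g₂ hg₁ S.hy₂ S.hy.symm hg₂ hg₂Z hne.symm (fun h => absurd h S.hx) key2
    · have h2 := key2 r hr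
      have h3 := S.Py₁ hr
      tauto
    · exact gen g₁ g₂ hg₁ S.hy₂ S.hy.symm hg₂ hg₂Z hne.symm (fun h => absurd h hyx) key2
    · exact hne rfl

end SetupC

end Pool.Agent.Lib.MP_70fc77_co
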