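import Mathlib
import Pool.Agent.Lib.MP_70fc77_co.StepC

set_option autoImplicit false

namespace Pool.Agent.Lib.MP_70fc77_co

open Finset SimpleGraph

lemma prop_tri {A B C A' B' C' : Prop} (e1 : (A ∨ C) ↔ (A' ∨ C')) (e2 : (B ∨ C) ↔ (B' ∨ C'))
    (r12 : ¬ (A ∧ B)) (r13 : ¬ (A ∧ C)) (r23 : ¬ (B ∧ C))
    (s12 : ¬ (A' ∧ B')) (s13 : ¬ (A' ∧ C')) (s23 : ¬ (B' ∧ C')) :
    (A ↔ A') ∧ (B ↔ B') ∧ (C ↔ C') := by
  by_cases hA : A <;> by_cases hB : B <;> by_cases hC : C <;> by_cases hC' : C' <;> simp_all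

lemma prop_sq {A B C D A' B' C' D' : Prop} (e1 : (A ∨ C) ↔ (A' ∨ C')) (e2 : (B ∨ D) ↔ (B' ∨ D'))
    (e3 : (C ∨ D) ↔ (C' ∨ D'))
    (hr : ¬ (A ∧ C) ∧ ¬ (A ∧ D) ∧ ¬ (B ∧ C) ∧ ¬ (B ∧ D))
    (hs : ¬ (A' ∧ C') ∧ ¬ (A' ∧ D') ∧ ¬ (B' ∧ C') ∧ ¬ (B' ∧ D')) :
    (A ↔ A') ∧ (B ↔ B') ∧ (C ↔ C') ∧ (D ↔ D') := by
  by_cases hC : C <;> by_cases hD : D <;> by_cases hC' : C' <;> by_cases hD' : D' <;> simp_all

/-- `G - u` is complete multipartite with the `k - 1` parts different from the part of `a` -/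
structure SetupT {V : Type} (G : SimpleGraph V) (k : ℕ) (u : V) (p : V → Fin k) (a : Fin k)
    (K : Finset V) : Prop where
  cl : G.IsNClique k K
  uK : u ∈ K
  pa : ∀ x, x ≠ u → p x ≠ a
  adj : ∀ x y, x ≠ u → y ≠ u → (G.Adj x y ↔ p x ≠ p y)

namespace SetupT

variable {V : Type} {G : SimpleGraph V} {k : ℕ} {u : V} {p : V → Fin k} {a : Fin k}
  {K : Finset V} {r s : Setoid V}

lemma exists_anchor (S : SetupT G k u p a K) (i : Fin k) (hi : i ≠ a) :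
    ∃ y ∈ K, y ≠ u ∧ p y = i := by
  classical
  have hinj : Set.InjOn p (K.erase u : Finset V) := by
    intro x hx y hy hxy
    rw [mem_coe, mem_erase] at hx hy
    by_contra hne
    have h1 : G.Adj x y := S.cl.1 hx.2 hy.2 hne
    rw [S.adj x y hx.1 hy.1] at h1
    exact h1 hxy
  have hc : #((K.erase u).image p) = k - 1 := by
    rw [card_image_of_injOn hinj, card_erase_of_mem S.uK, S.cl.2]
  have hsub : (K.erase u).image p ⊆ univ.erase a := by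
    intro j hj
    rw [mem_image] at hj
    obtain ⟨y, hy, rfl⟩ := hj
    rw [mem_erase] at hy
    rw [mem_erase]
    exact ⟨S.pa y hy.1, mem_univ _⟩
  have heq := eq_of_subset_of_card_le hsub (by
    rw [hc, card_erase_of_mem (mem_univ _), card_univ, Fintype.card_fin])
  have : i ∈ (K.erase u).image p := by
    rw [heq, mem_erase]
    exact ⟨hi, mem_univ _⟩
  rw [mem_image] at this
  obtain ⟨y, hy, hyi⟩ := this
  rw [mem_erase] at hy
  exact ⟨y, hy.2, hy.1, hyi⟩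

lemma exists_anchors (S : SetupT G k u p a K) :
    ∃ q : Fin k → V, Anchors G k u q ∧ q a = u ∧ (∀ i, i ≠ a → q i ≠ u ∧ p (q i) = i) := by
  classical
  choose f hf1 hf2 hf3 using S.exists_anchor
  refine ⟨fun i => if h : i = a then u else f i h, ⟨⟨K, S.cl, S.uK⟩, ?_⟩, ?_, ?_⟩
  · intro i j hij
    by_cases hi : i = a
    · have hj : j ≠ a := fun h => hij (hi.trans h.symm)
      rw [dif_pos hi, dif_neg hj]
      exact S.cl.1 S.uK (hf1 j hj) (hf2 j hj).symm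
    · by_cases hj : j = a
      · rw [dif_neg hi, dif_pos hj]
        exact S.cl.1 (hf1 i hi) S.uK (hf2 i hi)
      · rw [dif_neg hi, dif_neg hj, S.adj _ _ (hf2 i hi) (hf2 j hj), hf3, hf3]
        exact hij
  · simp
  · intro i hi
    simp only [dif_neg hi]
    exact ⟨hf2 i hi, hf3 i hi⟩

lemma detT [Finite V] (S : SetupT G k u p a K) (hr : IsColouring G k r)
    (hs : IsColouring G k s) (h : ∀ x, x ≠ u → ¬ G.Adj x u → (r x u ↔ s x u)) : r = s := by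
  obtain ⟨q, Q, hqa, hq⟩ := S.exists_anchors
  have val : ∀ r : Setoid V, IsColouring G k r → ∀ x, x ≠ u → ∀ i, r x (q i) →
      i = p x ∨ i = a := by
    intro r hr x hx i hi
    by_contra hne
    push Not at hne
    refine hr.1 _ _ hi ?_
    rw [S.adj _ _ hx (hq i hne.2).1, (hq i hne.2).2]
    exact fun h => hne.1 h.symm
  have hu : ∀ r s : Setoid V, IsColouring G k r → IsColouring G k s →
      (∀ x, x ≠ u → ¬ G.Adj x u → (r x u ↔ s x u)) → ∀ x, x ≠ u → r x u → s x u := by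
    intro r s hr hs h x hx hxu
    exact (h x hx (hr.1 _ _ hxu)).1 hxu
  apply Q.det0 hr hs
  intro x hx i hi
  rcases val r hr x hx i hi with h' | h'
  · obtain ⟨j, hj⟩ := Q.cover hs x
    rcases val s hs x hx j hj with h2 | h2
    · rw [h', ← h2]; exact hj
    · rw [h2, hqa] at hj
      have h3 := hu s r hs hr (fun x hx hxu => (h x hx hxu).symm) x hx hj
      have h4 : i = a := Q.uniq hr hi (by rw [hqa]; exact h3)
      rw [h4, hqa]; exact hj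
  · rw [h', hqa] at hi ⊢
    exact hu r s hr hs h x hx hi

lemma countT [Finite V] (S : SetupT G k u p a K) :
    numCol G k ≤ 2 ^ {y | y ≠ u ∧ ¬ G.Adj y u}.ncard := by
  apply numCol_le_pow _ (fun r x => r x u)
  intro r s hr hs hrs
  exact S.detT hr hs (fun x hx hxu => hrs x ⟨hx, hxu⟩)

lemma indep (S : SetupT G k u p a K) (hr : IsColouring G k r) {x y : V} (hx : x ≠ u)
    (hy : y ≠ u) (hxu : r x u) (hyu : r y u) : p x = p y := by
  by_contra hne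
  exact hr.1 _ _ (r.trans hxu (r.symm hyu)) ((S.adj x y hx hy).2 hne)

lemma countT' [Finite V] (S : SetupT G k u p a K) {z : V} (hz : z ≠ u) (hzX : ¬ G.Adj z u)
    (Φ : Setoid V → V → Prop)
    (h : ∀ r s, IsColouring G k r → IsColouring G k s →
      (∀ f, f ≠ u → ¬ G.Adj f u → f ≠ z → (Φ r f ↔ Φ s f)) →
      ∀ x, x ≠ u → ¬ G.Adj x u → (r x u ↔ s x u)) :
    2 * numCol G k ≤ 2 ^ {y | y ≠ u ∧ ¬ G.Adj y u}.ncard := by
  have h1 : numCol G k ≤ 2 ^ ({y | y ≠ u ∧ ¬ G.Adj y u} \ {z}).ncard := by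
    apply numCol_le_pow _ Φ
    intro r s hr hs hrs
    exact S.detT hr hs (h r s hr hs (fun f h1 h2 h3 => hrs f ⟨⟨h1, h2⟩, h3⟩))
  have h2 : ({y | y ≠ u ∧ ¬ G.Adj y u} \ {z}).ncard + 1 = {y | y ≠ u ∧ ¬ G.Adj y u}.ncard :=
    Set.ncard_sdiff_singleton_add_one ⟨hz, hzX⟩ (Set.toFinite _)
  rw [← h2, pow_succ]
  omega

theorem stepT [Finite V] (S : SetupT G k u p a K)
    (hN : 2 ^ {y | y ≠ u ∧ ¬ G.Adj y u}.ncard < 2 * numCol G k)
    (hne : ∃ x, x ≠ u ∧ ¬ G.Adj x u) :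
    (∃ b, ∀ x, x ≠ u → ¬ G.Adj x u → p x = b) ∨
    (∃ b w, w ≠ u ∧ ¬ G.Adj w u ∧ p w ≠ b ∧ ∀ x, x ≠ u → ¬ G.Adj x u → x ≠ w → p x = b) := by
  classical
  by_contra hcon
  push Not at hcon
  obtain ⟨H1, H2⟩ := hcon
  obtain ⟨x₀, hx₀, hx₀X⟩ := hne
  obtain ⟨x₁, hx₁, hx₁X, h01⟩ := H1 (p x₀)
  obtain ⟨y₀, hy₀, hy₀X, hy₀x, hy₀p⟩ := H2 (p x₁) x₀ hx₀ hx₀X (fun h => h01 h.symm)
  obtain ⟨y₁, hy₁, hy₁X, hy₁x, hy₁p⟩ := H2 (p x₀) x₁ hx₁ hx₁X h01
  -- a triangle gives few colourings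
  have tri : ∀ t₁ t₂ t₃, t₁ ≠ u → t₂ ≠ u → t₃ ≠ u → ¬ G.Adj t₁ u → ¬ G.Adj t₂ u →
      ¬ G.Adj t₃ u → p t₁ ≠ p t₂ → p t₁ ≠ p t₃ → p t₂ ≠ p t₃ → False := by
    intro t₁ t₂ t₃ h1 h2 h3 h1X h2X h3X h12 h13 h23
    have n13 : t₁ ≠ t₃ := fun h => h13 (by rw [h])
    have n23 : t₂ ≠ t₃ := fun h => h23 (by rw [h])
    have n12 : t₁ ≠ t₂ := fun h => h12 (by rw [h])
    have := S.countT' h3 h3X (fun r f => if f = t₁ then (r t₁ u ∨ r t₃ u) else
      if f = t₂ then (r t₂ u ∨ r t₃ u) else r f u) (by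
        intro r s hr hs hrs x hx hxX
        have e1 := hrs t₁ h1 h1X n13
        have e2 := hrs t₂ h2 h2X n23
        simp only [if_true] at e1
        simp only [if_neg n12.symm, if_true] at e2
        have r12 : ¬ (r t₁ u ∧ r t₂ u) := fun h => h12 (S.indep hr h1 h2 h.1 h.2)
        have r13 : ¬ (r t₁ u ∧ r t₃ u) := fun h => h13 (S.indep hr h1 h3 h.1 h.2)
        have r23 : ¬ (r t₂ u ∧ r t₃ u) := fun h => h23 (S.indep hr h2 h3 h.1 h.2)
        have s12 : ¬ (s t₁ u ∧ s t₂ u) := fun h => h12 (S.indep hs h1 h2 h.1 h.2)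
        have s13 : ¬ (s t₁ u ∧ s t₃ u) := fun h => h13 (S.indep hs h1 h3 h.1 h.2)
        have s23 : ¬ (s t₂ u ∧ s t₃ u) := fun h => h23 (S.indep hs h2 h3 h.1 h.2)
        obtain ⟨k1, k2, k3⟩ := prop_tri e1 e2 r12 r13 r23 s12 s13 s23
        by_cases hx1 : x = t₁
        · rw [hx1]; exact k1
        by_cases hx2 : x = t₂
        · rw [hx2]; exact k2
        by_cases hx3 : x = t₃
        · rw [hx3]; exact k3
        have e3 := hrs x hx hxX hx3
        simp only [if_neg hx1, if_neg hx2] at e3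
        exact e3)
    omega
  have hy₀' : p y₀ = p x₀ := by
    by_contra h
    exact tri x₀ x₁ y₀ hx₀ hx₁ hy₀ hx₀X hx₁X hy₀X (Ne.symm h01) (Ne.symm h) (Ne.symm hy₀p)
  have hy₁' : p y₁ = p x₁ := by
    by_contra h
    exact tri x₀ x₁ y₁ hx₀ hx₁ hy₁ hx₀X hx₁X hy₁X (Ne.symm h01) (Ne.symm hy₁p) (Ne.symm h)
  -- a 4-cycle gives few colourings
  have d1 : x₀ ≠ x₁ := fun h => h01 (by rw [h])
  have d2 : x₀ ≠ y₁ := fun h => hy₁p (by rw [h])
  have d3 : y₀ ≠ x₁ := fun h => hy₀p (by rw [h])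
  have d4 : y₀ ≠ y₁ := fun h => hy₀p (by rw [h]; exact hy₁')
  have := S.countT' hy₁ hy₁X (fun r f => if f = x₀ then (r x₀ u ∨ r x₁ u) else
      if f = y₀ then (r y₀ u ∨ r y₁ u) else if f = x₁ then (r x₁ u ∨ r y₁ u) else r f u) (by
        intro r s hr hs hrs x hx hxX
        have e1 := hrs x₀ hx₀ hx₀X d2
        have e2 := hrs y₀ hy₀ hy₀X d4
        have e3 := hrs x₁ hx₁ hx₁X hy₁x.symm
        simp only [if_true] at e1
        simp only [if_neg hy₀x, if_true] at e2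
        simp only [if_neg d1.symm, if_neg d3.symm, if_true] at e3
        have key : ∀ r : Setoid V, IsColouring G k r →
            ¬ (r x₀ u ∧ r x₁ u) ∧ ¬ (r x₀ u ∧ r y₁ u) ∧ ¬ (r y₀ u ∧ r x₁ u) ∧
              ¬ (r y₀ u ∧ r y₁ u) := fun r hr =>
          ⟨fun h => h01 (S.indep hr hx₀ hx₁ h.1 h.2).symm,
            fun h => hy₁p (S.indep hr hx₀ hy₁ h.1 h.2).symm,
            fun h => hy₀p (S.indep hr hy₀ hx₁ h.1 h.2),
            fun h => hy₀p ((S.indep hr hy₀ hy₁ h.1 h.2).trans hy₁')⟩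
        obtain ⟨k1, k2, k3, k4⟩ := prop_sq e1 e2 e3 (key r hr) (key s hs)
        by_cases hxx₀ : x = x₀
        · rw [hxx₀]; exact k1
        by_cases hxy₀ : x = y₀
        · rw [hxy₀]; exact k2
        by_cases hxx₁ : x = x₁
        · rw [hxx₁]; exact k3
        by_cases hxy₁ : x = y₁
        · rw [hxy₁]; exact k4
        have e4 := hrs x hx hxX hxy₁
        simp only [if_neg hxx₀, if_neg hxy₀, if_neg hxx₁] at e4
        exact e4)
  omega

end SetupT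

end Pool.Agent.Lib.MP_70fc77_co
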