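import Mathlib
import Pool.Agent.Lib.MP_70fc77_co.StepT

set_option autoImplicit false

namespace Pool.Agent.Lib.MP_70fc77_co

open Finset SimpleGraph

lemma turan_iso {W : Type} [Fintype W] {k : ℕ} (hk : 2 ≤ k) (G : SimpleGraph W)
    (hc : G.CliqueFree k) (he : eN G = tau (k - 1) (Fintype.card W)) :
    Nonempty (G ≃g turanGraph (Fintype.card W) (k - 1)) := by
  classical
  have hk1 : k - 1 + 1 = k := by omega
  have : G.IsTuranMaximal (k - 1) := by
    refine ⟨by rw [hk1]; exact hc, fun G' _ h' => ?_⟩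
    have := turan_le G' (k - 1) (by omega) h'
    rw [← eN_eq, ← eN_eq, he]
    exact this
  exact this.nonempty_iso_turanGraph

lemma turan_struct {W : Type} [Fintype W] {k : ℕ} (hk : 2 ≤ k) (G : SimpleGraph W)
    (hc : G.CliqueFree k) (he : eN G = tau (k - 1) (Fintype.card W)) :
    ∃ (p : W → Fin k) (a : Fin k), (∀ x, p x ≠ a) ∧ ∀ x y, G.Adj x y ↔ p x ≠ p y := by
  obtain ⟨f⟩ := turan_iso hk G hc he
  have hmod : ∀ x : ℕ, x % (k - 1) < k - 1 := fun x => Nat.mod_lt _ (by omega)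
  refine ⟨fun x => ⟨(f x : ℕ) % (k - 1), by have := hmod (f x); omega⟩, ⟨k - 1, by omega⟩, ?_, ?_⟩
  · intro x h
    have := congrArg Fin.val h
    simp only at this
    have := hmod (f x)
    omega
  · intro x y
    rw [← f.map_adj_iff, turanGraph_adj, ne_eq, ne_eq, Fin.ext_iff]

variable {V : Type} {k L : ℕ} {u : V}

lemma extendFun (p' : ({u}ᶜ : Set V) → Fin k) (c : Fin k) :
    ∃ p : V → Fin k, p u = c ∧ ∀ x : ({u}ᶜ : Set V), p x = p' x := by
  classical
  refine ⟨fun x => if h : x ≠ u then p' ⟨x, h⟩ else c, by simp, ?_⟩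
  rintro ⟨x, hx⟩
  have hx' : x ≠ u := hx
  simp only
  rw [dif_pos hx']

lemma card_fibre {p' : ({u}ᶜ : Set V) → Fin k} {p : V → Fin k}
    (hp : ∀ x : ({u}ᶜ : Set V), p x = p' x) (i : Fin k) :
    {x | x ≠ u ∧ p x = i}.ncard = {x | p' x = i}.ncard := by
  have : {x | x ≠ u ∧ p x = i} = Subtype.val '' {x | p' x = i} := by
    ext x
    simp only [Set.mem_ofPred_eq, Set.mem_image, Subtype.exists, exists_and_right, exists_eq_right]
    constructor
    · rintro ⟨hx, hxi⟩
      exact ⟨hx, by rw [← hp ⟨x, hx⟩]; exact hxi⟩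
    · rintro ⟨hx, hxi⟩
      exact ⟨hx, by rw [← hxi]; exact hp ⟨x, hx⟩⟩
  rw [this, Set.ncard_image_of_injective _ Subtype.val_injective]

lemma card_X [Fintype V] (G : SimpleGraph V) :
    {y | y ≠ u ∧ ¬ G.Adj y u}.ncard + 1 = nn G u := by
  have : {y | y ≠ u ∧ ¬ G.Adj y u} = {y | ¬ G.Adj y u} \ {u} := by
    ext y
    simp only [Set.mem_ofPred_eq, Set.mem_sdiff, Set.mem_singleton_iff]
    tauto
  rw [this, nn]
  exact Set.ncard_sdiff_singleton_add_one (by simp) (Set.toFinite _)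

/-- data of a reduced Turan graph on `G - u`, transported to `V` -/
lemma transport [Fintype V] {G : SimpleGraph V} {p' : ({u}ᶜ : Set V) → Fin k} {a : Fin k}
    {F' : Set ({u}ᶜ : Set V)} (h : IsReducedTuran (G.induce {u}ᶜ) k L p' a F') :
    ∃ (p : V → Fin k) (F : Set V), (∀ x : ({u}ᶜ : Set V), p x = p' x) ∧
      F = Subtype.val '' F' ∧ F.ncard = L ∧ u ∉ F ∧ (∀ x ∈ F, p x ≠ a) ∧
      (∀ x y, x ≠ u → y ≠ u →
        (G.Adj x y ↔ p x ≠ p y ∧ ¬ (x ∈ F ∧ p y = a) ∧ ¬ (y ∈ F ∧ p x = a))) ∧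
      (∀ i, (Fintype.card V - 1 + L) / k ≤
        {x | x ≠ u ∧ p x = i}.ncard + (if i = a then L else 0)) := by
  classical
  obtain ⟨p, -, hp⟩ := extendFun p' a
  have hmem : ∀ x (hx : x ≠ u), x ∈ Subtype.val '' F' ↔ (⟨x, hx⟩ : ({u}ᶜ : Set V)) ∈ F' := by
    intro x hx
    simp only [Set.mem_image, Subtype.exists, exists_and_right, exists_eq_right]
    exact ⟨fun ⟨_, h⟩ => h, fun h => ⟨hx, h⟩⟩
  refine ⟨p, Subtype.val '' F', hp, rfl, ?_, ?_, ?_, ?_, ?_⟩
  · rw [Set.ncard_image_of_injective _ Subtype.val_injective]; exact h.1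
  · rintro ⟨x, _, hx⟩
    exact x.2 hx
  · rintro x ⟨z, hz, rfl⟩
    rw [hp]
    exact h.2.1 z hz
  · intro x y hx hy
    have h1 := h.2.2.1 ⟨x, hx⟩ ⟨y, hy⟩
    rw [hmem x hx, hmem y hy]
    have e1 : p x = p' ⟨x, hx⟩ := hp ⟨x, hx⟩
    have e2 : p y = p' ⟨y, hy⟩ := hp ⟨y, hy⟩
    rw [e1, e2]
    exact h1
  · intro i
    have h1 := (sum_sq_balanced (msize L p' a) h.2.2.2 i).1
    rw [msize_sum] at h1
    have h2 := card_compl_sing u
    rw [card_fibre hp i]
    have h3 : Fintype.card V - 1 = Fintype.card ({u}ᶜ : Set V) := by omega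
    rw [h3]
    exact h1

lemma finish_reduced [Fintype V] {G : SimpleGraph V} {p : V → Fin k} {a : Fin k} {F : Set V}
    [DecidableEq V] (hF : F.ncard = L) (uF : u ∉ F) (Fa : ∀ x ∈ F, p x ≠ a)
    (adj : ∀ x y, x ≠ u → y ≠ u →
        (G.Adj x y ↔ p x ≠ p y ∧ ¬ (x ∈ F ∧ p y = a) ∧ ¬ (y ∈ F ∧ p x = a)))
    {j : Fin k} (hsub : ∀ y, y ≠ u → (p y = j ∨ (y ∈ F ∧ j = a)) → ¬ G.Adj y u)
    (hcard : {y | y ≠ u ∧ ¬ G.Adj y u}.ncard ≤
      {x | x ≠ u ∧ p x = j}.ncard + (if j = a then L else 0))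
    (he : eN G + Fintype.card V * L = tau k (Fintype.card V + L)) :
    IsReducedTuran G k L (Function.update p u j) a F := by
  classical
  have hX : {y | y ≠ u ∧ (p y = j ∨ (y ∈ F ∧ j = a))} = {y | y ≠ u ∧ ¬ G.Adj y u} := by
    have hs : {y | y ≠ u ∧ (p y = j ∨ (y ∈ F ∧ j = a))} ⊆ {y | y ≠ u ∧ ¬ G.Adj y u} :=
      fun y hy => ⟨hy.1, hsub y hy.1 hy.2⟩
    apply Set.eq_of_subset_of_ncard_le hs _ (Set.toFinite _)
    refine hcard.trans ?_
    by_cases hj : j = a
    · rw [if_pos hj]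
      have : {y | y ≠ u ∧ (p y = j ∨ (y ∈ F ∧ j = a))} = {x | x ≠ u ∧ p x = j} ∪ F := by
        ext y
        simp only [Set.mem_ofPred_eq, Set.mem_union, hj, and_true]
        constructor
        · rintro ⟨h1, h2 | h2⟩
          · left; exact ⟨h1, h2⟩
          · right; exact h2
        · rintro (h | h)
          · exact ⟨h.1, Or.inl h.2⟩
          · exact ⟨fun h' => uF (h' ▸ h), Or.inr h⟩
      rw [this, Set.ncard_union_eq _ (Set.toFinite _) (Set.toFinite _), hF]
      rw [Set.disjoint_left]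
      intro y h1 h2
      exact Fa y h2 (h1.2.trans hj)
    · rw [if_neg hj, add_zero]
      apply Set.ncard_le_ncard _ (Set.toFinite _)
      intro y hy
      exact ⟨hy.1, Or.inl hy.2⟩
  have hX' : ∀ y, y ≠ u → (G.Adj y u ↔ p y ≠ j ∧ ¬ (y ∈ F ∧ j = a)) := by
    intro y hy
    have : y ∈ {y | y ≠ u ∧ (p y = j ∨ (y ∈ F ∧ j = a))} ↔ y ∈ {y | y ≠ u ∧ ¬ G.Adj y u} := by
      rw [hX]
    simp only [Set.mem_ofPred_eq] at this
    tauto
  apply reduced_of_struct _ he
  refine ⟨hF, ?_, ?_⟩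
  · intro x hx
    have hxu : x ≠ u := fun h => uF (h ▸ hx)
    rw [Function.update_of_ne hxu]
    exact Fa x hx
  · intro x y
    by_cases hx : x = u
    · by_cases hy : y = u
      · rw [hx, hy]
        simp
      · rw [hx, Function.update_self, Function.update_of_ne hy, G.adj_comm, hX' y hy]
        constructor
        · rintro ⟨h1, h2⟩
          exact ⟨fun h => h1 h.symm, fun h => uF h.1, h2⟩
        · rintro ⟨h1, h2, h3⟩
          exact ⟨fun h => h1 h.symm, h3⟩
    · by_cases hy : y = u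
      · rw [hy, Function.update_self, Function.update_of_ne hx, hX' x hx]
        constructor
        · rintro ⟨h1, h2⟩
          exact ⟨h1, h2, fun h => uF h.1⟩
        · rintro ⟨h1, h2, h3⟩
          exact ⟨h1, h2⟩
      · rw [Function.update_of_ne hx, Function.update_of_ne hy]
        exact adj x y hx hy

/-- type A with all parts nonempty -/
def StrongA {V : Type} (G : SimpleGraph V) (k L : ℕ) : Prop :=
  ∃ (p : V → Fin k) (a : Fin k) (F : Set V), IsReducedTuran G k L p a F ∧ (∃ x, p x = a) ∧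
    ∃ b, (∀ x ∈ F, p x = b) ∧ ∃ x, x ∉ F ∧ p x = b

/-- complete multipartite with one part empty -/
def TypeT {V : Type} (G : SimpleGraph V) (k : ℕ) : Prop :=
  ∃ (p : V → Fin k) (a : Fin k), (∀ x, p x ≠ a) ∧ ∀ x y, G.Adj x y ↔ p x ≠ p y

lemma div_ge (hk : 0 < k) {m : ℕ} (hm : (k - 1) * L ≤ m) : L ≤ (m + L) / k := by
  rw [Nat.le_div_iff_mul_le hk]
  obtain ⟨k', rfl⟩ : ∃ k', k = k' + 1 := ⟨k - 1, by omega⟩
  simp only [Nat.add_sub_cancel] at hm
  nlinarith

theorem step_A [Fintype V] {G : SimpleGraph V} (hL : 1 ≤ L)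
    (hcl : ∃ K : Finset V, G.IsNClique k K ∧ u ∈ K) (hN : 2 ^ L < 2 * numCol G k)
    (he : eN G + Fintype.card V * L = tau k (Fintype.card V + L))
    (hX : {y | y ≠ u ∧ ¬ G.Adj y u}.ncard = (Fintype.card V - 1 + L) / k)
    (hn : (k - 1) * L ≤ Fintype.card V - 1)
    (h : StrongA (G.induce {u}ᶜ) k L) : StrongA G k L ∨ TypeC G k L := by
  classical
  obtain ⟨p', a, F', h, ⟨xa, hxa⟩, b, hb', xb, hxbF, hxb⟩ := h
  have hk : 0 < k := a.pos
  obtain ⟨p, F, hp, hFF, hFc, uF, Fa, adj, hm⟩ := transport h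
  have hmuL := div_ge hk hn
  set μ := (Fintype.card V - 1 + L) / k with hμ
  have hFne : F.Nonempty := by
    rw [← Set.ncard_pos (Set.toFinite _)]; omega
  have hb : ∀ x ∈ F, p x = b := by
    intro x hx
    rw [hFF] at hx
    obtain ⟨z, hz, rfl⟩ := hx
    rw [hp]; exact hb' z hz
  obtain ⟨f₀, hf₀⟩ := hFne
  have hab : a ≠ b := fun h => Fa f₀ hf₀ ((hb f₀ hf₀).trans h.symm)
  have hxa' : p xa = a := by rw [hp]; exact hxa
  have hxb' : p xb = b := by rw [hp]; exact hxb
  have hxbF' : (xb : V) ∉ F := by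
    rw [hFF]
    rintro ⟨z, hz, hzx⟩
    exact hxbF (Subtype.ext hzx ▸ hz)
  have hq : ∀ i, ∃ y, y ≠ u ∧ p y = i ∧ y ∉ F := by
    intro i
    by_cases hia : i = a
    · exact ⟨xa, xa.2, by rw [hxa', hia], fun h => Fa _ h hxa'⟩
    by_cases hib : i = b
    · exact ⟨xb, xb.2, by rw [hxb', hib], hxbF'⟩
    · have h1 := hm i
      rw [if_neg hia] at h1
      have h2 : {x | x ≠ u ∧ p x = i}.Nonempty := by
        rw [← Set.ncard_pos (Set.toFinite _)]; omega
      obtain ⟨y, hy⟩ := h2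
      exact ⟨y, hy.1, hy.2, fun h => hib (hy.2.symm.trans (hb y h))⟩
  choose q hq1 hq2 hq3 using hq
  have S : Setup G k u p a F q := ⟨hcl, uF, Fa, adj, hq1, hq2, hq3⟩
  rcases S.stepA (by rw [hFc]; exact hN) hab hb with ⟨j, hj⟩ | ⟨f, hf, hfu, h1, h2⟩
  · left
    have hred := finish_reduced hFc uF Fa adj hj (by rw [hX]; exact hm j) he
    refine ⟨Function.update p u j, a, F, hred, ⟨xa, ?_⟩, b, ?_, xb, hxbF', ?_⟩
    · rw [Function.update_of_ne xa.2]; exact hxa'
    · intro x hx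
      have hxu : x ≠ u := fun h => uF (h ▸ hx)
      rw [Function.update_of_ne hxu]
      exact hb x hx
    · rw [Function.update_of_ne xb.2]; exact hxb'
  · right
    have hma := hm a
    have hmb := hm b
    rw [if_pos rfl] at hma
    rw [if_neg hab.symm] at hmb
    have hfu' : f ≠ u := fun h => uF (h ▸ hf)
    -- the size of the parts
    have hsub : {x | x ≠ u ∧ p x = a} ∪ ({x | x ≠ u ∧ p x = b} \ {f}) ⊆
        {y | y ≠ u ∧ ¬ G.Adj y u} := by
      rintro y (hy | hy)
      · exact ⟨hy.1, h1 y hy.1 hy.2⟩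
      · exact ⟨hy.1.1, h2 y hy.1.1 hy.1.2 hy.2⟩
    have hdis : Disjoint {x | x ≠ u ∧ p x = a} ({x | x ≠ u ∧ p x = b} \ {f}) := by
      rw [Set.disjoint_left]
      intro y hy1 hy2
      exact hab (hy1.2.symm.trans hy2.1.2)
    have hc1 := Set.ncard_le_ncard hsub (Set.toFinite _)
    rw [Set.ncard_union_eq hdis (Set.toFinite _) (Set.toFinite _), hX] at hc1
    have hc2 : ({x | x ≠ u ∧ p x = b} \ {f}).ncard + 1 = {x | x ≠ u ∧ p x = b}.ncard :=
      Set.ncard_sdiff_singleton_add_one ⟨hfu', hb f hf⟩ (Set.toFinite _)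
    have hc3 : 1 ≤ {x | x ≠ u ∧ p x = a}.ncard := by
      rw [Nat.one_le_iff_ne_zero, ← Nat.pos_iff_ne_zero, Set.ncard_pos (Set.toFinite _)]
      exact ⟨xa, xa.2, hxa'⟩
    have hc4 : L + 1 ≤ {x | x ≠ u ∧ p x = b}.ncard := by
      rw [← hFc, ← Set.ncard_insert_of_notMem hxbF' (Set.toFinite _)]
      apply Set.ncard_le_ncard _ (Set.toFinite _)
      rintro y (hy | hy)
      · rw [hy]; exact ⟨xb.2, hxb'⟩
      · exact ⟨fun h => uF (h ▸ hy), hb y hy⟩
    have hca : {x | x ≠ u ∧ p x = a}.ncard = 1 := by omega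
    have hcb : {x | x ≠ u ∧ p x = b}.ncard = L + 1 := by omega
    have hμL : μ = L + 1 := by omega
    -- the parts
    have hVa : {x | x ≠ u ∧ p x = a} = {(xa : V)} := by
      symm
      apply Set.eq_of_subset_of_ncard_le
      · intro y hy
        rw [Set.mem_singleton_iff.1 hy]; exact ⟨xa.2, hxa'⟩
      · rw [hca, Set.ncard_singleton]
      · exact Set.toFinite _
    have hVb : {x | x ≠ u ∧ p x = b} = insert (xb : V) F := by
      symm
      apply Set.eq_of_subset_of_ncard_le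
      · rintro y (hy | hy)
        · rw [hy]; exact ⟨xb.2, hxb'⟩
        · exact ⟨fun h => uF (h ▸ hy), hb y hy⟩
      · rw [hcb, Set.ncard_insert_of_notMem hxbF' (Set.toFinite _), hFc]
      · exact Set.toFinite _
    have hXeq : {x | x ≠ u ∧ p x = a} ∪ ({x | x ≠ u ∧ p x = b} \ {f}) =
        {y | y ≠ u ∧ ¬ G.Adj y u} := by
      apply Set.eq_of_subset_of_ncard_le hsub _ (Set.toFinite _)
      rw [Set.ncard_union_eq hdis (Set.toFinite _) (Set.toFinite _), hX]
      omega
    have hXu : ∀ y, y ≠ u → (G.Adj y u ↔ p y ≠ a ∧ (p y = b → y = f)) := by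
      intro y hy
      have : y ∈ {x | x ≠ u ∧ p x = a} ∪ ({x | x ≠ u ∧ p x = b} \ {f}) ↔
          y ∈ {y | y ≠ u ∧ ¬ G.Adj y u} := by rw [hXeq]
      simp only [Set.mem_union, Set.mem_ofPred_eq, Set.mem_sdiff, Set.mem_singleton_iff] at this
      tauto
    have hVa' : ∀ y, y ≠ u → p y = a → y = xa := by
      intro y hy hya
      have : y ∈ {x | x ≠ u ∧ p x = a} := ⟨hy, hya⟩
      rw [hVa] at this
      exact this
    have hVb' : ∀ y, y ≠ u → p y = b → y = xb ∨ y ∈ F := by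
      intro y hy hyb
      have : y ∈ {x | x ≠ u ∧ p x = b} := ⟨hy, hyb⟩
      rw [hVb] at this
      exact this
    have hxaf : (xa : V) ≠ u := xa.2
    have hxbf : (xb : V) ≠ u := xb.2
    have hxbf' : (xb : V) ≠ f := fun h => hxbF' (h ▸ hf)
    set p2 := Function.update p u a with hp2
    have hp2u : p2 u = a := Function.update_self _ _ _
    have hp2x : ∀ x, x ≠ u → p2 x = p x := fun x hx => Function.update_of_ne hx _ _
    have hfib : ∀ i, i ≠ a → {x | p2 x = i} = {x | x ≠ u ∧ p x = i} := by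
      intro i hia
      ext x
      simp only [Set.mem_ofPred_eq]
      constructor
      · intro h
        have hxu : x ≠ u := fun h' => hia (by rw [← h, h', hp2u])
        exact ⟨hxu, by rw [← hp2x x hxu]; exact h⟩
      · rintro ⟨hxu, h⟩
        rw [hp2x x hxu]; exact h
    refine ⟨p2, a, b, xa, xb, u, f, hab, by rw [hp2x _ hxaf, hxa'], hp2u,
      by rw [hp2x _ hxbf, hxb'], by rw [hp2x _ hfu', hb f hf], hxaf, hxbf', ?_, ?_, ?_, ?_⟩
    · have : {x | p2 x = a} = {(xa : V), u} := by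
        ext x
        simp only [Set.mem_ofPred_eq, Set.mem_insert_iff, Set.mem_singleton_iff]
        constructor
        · intro h
          by_cases hxu : x = u
          · right; exact hxu
          · left; rw [hp2x x hxu] at h; exact hVa' x hxu h
        · rintro (h | h)
          · rw [h, hp2x _ hxaf, hxa']
          · rw [h, hp2u]
      rw [this, Set.ncard_pair hxaf]
    · rw [hfib b hab.symm, hcb]
    · intro i hia hib
      rw [hfib i hia]
      have h3 := hm i
      rw [if_neg hia, add_zero] at h3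
      have h4 := (sum_sq_balanced (msize L p' a) h.2.2.2 i).2
      rw [msize_sum] at h4
      unfold msize at h4
      rw [if_neg hia, add_zero, ← card_fibre hp i] at h4
      have h5 := card_compl_sing u
      have h6 : Fintype.card V - 1 = Fintype.card ({u}ᶜ : Set V) := by omega
      rw [← h6, ← hμ, hμL] at h4
      omega
    · intro x y
      by_cases hx : x = u
      · by_cases hy : y = u
        · rw [hx, hy]; simp
        · rw [hx, hp2u, hp2x y hy, G.adj_comm, hXu y hy]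
          have := hxaf.symm
          grind
      · by_cases hy : y = u
        · rw [hy, hp2u, hp2x x hx, hXu x hx]
          have := hxaf.symm
          grind
        · rw [hp2x x hx, hp2x y hy, adj x y hx hy]
          have e1 := hVa' x hx
          have e2 := hVa' y hy
          have e3 := hVb' x hx
          have e4 := hVb' y hy
          have e5 := Fa x
          have e6 := Fa y
          have e7 := hb x
          have e8 := hb y
          grind

end Pool.Agent.Lib.MP_70fc77_co
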