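import Mathlib
import Pool.Agent.Lib.MP_70fc77_co.Classify

set_option autoImplicit false

namespace Pool.Agent.Lib.MP_70fc77_co

open Finset SimpleGraph

variable {V : Type} {k L : ℕ} {u : V}

theorem step_B [Fintype V] {G : SimpleGraph V} (hL : 2 ≤ L)
    (hcl : ∃ K : Finset V, G.IsNClique k K ∧ u ∈ K) (hN : 2 ^ L < 2 * numCol G k)
    (he : eN G + Fintype.card V * L = tau k (Fintype.card V + L))
    (hX : {y | y ≠ u ∧ ¬ G.Adj y u}.ncard = (Fintype.card V - 1 + L) / k)
    (hn : (k - 1) * L ≤ Fintype.card V - 1)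
    (h : TypeB (G.induce {u}ᶜ) k L) : TypeB G k L := by
  classical
  obtain ⟨p', a, F', h, ⟨xa, hxa⟩, b, w', hw', hwb', hb'⟩ := h
  have hk : 0 < k := a.pos
  obtain ⟨p, F, hp, hFF, hFc, uF, Fa, adj, hm⟩ := transport h
  have hmuL := div_ge hk hn
  set μ := (Fintype.card V - 1 + L) / k with hμ
  have hw : (w' : V) ∈ F := by rw [hFF]; exact ⟨w', hw', rfl⟩
  have hwb : p w' ≠ b := by rw [hp]; exact hwb'
  have hb : ∀ x ∈ F, x ≠ w' → p x = b := by
    intro x hx hxw
    rw [hFF] at hx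
    obtain ⟨z, hz, rfl⟩ := hx
    rw [hp]; exact hb' z hz (fun h => hxw (by rw [h]))
  have hF2 : ∃ f ∈ F, f ≠ w' := by
    by_contra hno
    push Not at hno
    have : F ⊆ {(w' : V)} := fun x hx => hno x hx
    have := Set.ncard_le_ncard this (Set.toFinite _)
    rw [Set.ncard_singleton] at this
    omega
  obtain ⟨f₀, hf₀, hf₀w⟩ := hF2
  have hab : a ≠ b := fun h => Fa f₀ hf₀ ((hb f₀ hf₀ hf₀w).trans h.symm)
  have hxa' : p xa = a := by rw [hp]; exact hxa
  have hwa : p w' ≠ a := Fa _ hw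
  have hFw : (F \ {(w' : V)}).ncard + 1 = L := by
    rw [← hFc]; exact Set.ncard_sdiff_singleton_add_one hw (Set.toFinite _)
  have hq : ∀ i, ∃ y, y ≠ u ∧ p y = i ∧ y ∉ F := by
    intro i
    by_cases hia : i = a
    · exact ⟨xa, xa.2, by rw [hxa', hia], fun h => Fa _ h hxa'⟩
    have h1 := hm i
    rw [if_neg hia, add_zero] at h1
    by_contra hno
    push Not at hno
    have h2 : {x | x ≠ u ∧ p x = i} ⊆ if i = b then F \ {(w' : V)} else {(w' : V)} := by
      intro x hx
      have hxF := hno x hx.1 hx.2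
      by_cases hib : i = b
      · rw [if_pos hib]
        exact ⟨hxF, fun h => hwb (by rw [← Set.mem_singleton_iff.1 h, hx.2, hib])⟩
      · rw [if_neg hib]
        by_contra hxw
        exact hib (hx.2.symm.trans (hb x hxF hxw))
    have h3 := Set.ncard_le_ncard h2 (Set.toFinite _)
    by_cases hib : i = b
    · rw [if_pos hib] at h3; omega
    · rw [if_neg hib, Set.ncard_singleton] at h3; omega
  choose q hq1 hq2 hq3 using hq
  have S : Setup G k u p a F q := ⟨hcl, uF, Fa, adj, hq1, hq2, hq3⟩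
  rcases S.stepB (by rw [hFc]; exact hN) hw hwb hb ⟨f₀, hf₀, hf₀w⟩ with ⟨j, hj⟩ | ⟨j, hja, hj⟩
  · have hred := finish_reduced hFc uF Fa adj hj (by rw [hX]; exact hm j) he
    refine ⟨Function.update p u j, a, F, hred, ⟨xa, ?_⟩, b, w', hw, ?_, ?_⟩
    · rw [Function.update_of_ne xa.2]; exact hxa'
    · rw [Function.update_of_ne w'.2]; exact hwb
    · intro x hx hxw
      have hxu : x ≠ u := fun h => uF (h ▸ hx)
      rw [Function.update_of_ne hxu]
      exact hb x hx hxw
  · exfalso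
    have h1 := hm j
    rw [if_neg hja, add_zero] at h1
    rw [hX] at hj
    omega

theorem step_C [Fintype V] {G : SimpleGraph V} (hL : 1 ≤ L)
    (hcl : ∃ K : Finset V, G.IsNClique k K ∧ u ∈ K) (hN : 2 ^ L < 2 * numCol G k)
    (hX : {y | y ≠ u ∧ ¬ G.Adj y u}.ncard = (Fintype.card V - 1 + L) / k)
    (h : TypeC (G.induce {u}ᶜ) k L) : TypeC G k L := by
  classical
  obtain ⟨p', a, b, x₁, x₂, y₁, y₂, hab, hx₁, hy₁, hx₂, hy₂, hx, hy, hA, hB, hO, hadj⟩ := h
  have hk : 0 < k := a.pos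
  obtain ⟨p, -, hp⟩ := extendFun p' a
  have hV := card_compl_sing u
  have fib := card_fibre hp
  -- the quotient
  have hsz : ∀ i, msize L p' a i = L + 1 ∨ msize L p' a i = L + 2 := by
    intro i
    unfold msize
    by_cases hia : i = a
    · rw [if_pos hia, hia, hA]; right; omega
    · rw [if_neg hia]
      by_cases hib : i = b
      · rw [hib, hB]; left; rfl
      · exact hO i hia hib
  have hμ : (Fintype.card V - 1 + L) / k = L + 1 := by
    have h1 : Fintype.card V - 1 + L = ∑ i, msize L p' a i := by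
      rw [msize_sum]; omega
    rw [h1]
    have h2 : ∑ i : Fin k, (L + 1) ≤ ∑ i, msize L p' a i := by
      apply sum_le_sum
      intro i _
      have := hsz i
      omega
    have h3 : ∑ i, msize L p' a i < ∑ i : Fin k, (L + 2) := by
      apply sum_lt_sum
      · intro i _
        have := hsz i
        omega
      · refine ⟨b, mem_univ _, ?_⟩
        unfold msize
        rw [hB, if_neg hab.symm]
        omega
    rw [sum_const, card_univ, Fintype.card_fin, smul_eq_mul] at h2 h3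
    apply le_antisymm
    · rw [← Nat.lt_succ_iff, Nat.div_lt_iff_lt_mul hk, mul_comm]
      exact h3
    · rw [Nat.le_div_iff_mul_le hk, mul_comm]
      exact h2
  have e1 : p x₁ = a := by rw [hp]; exact hx₁
  have e2 : p x₂ = b := by rw [hp]; exact hx₂
  have e3 : p y₁ = a := by rw [hp]; exact hy₁
  have e4 : p y₂ = b := by rw [hp]; exact hy₂
  have hx' : (x₁ : V) ≠ y₁ := fun h => hx (Subtype.ext h)
  have hy' : (x₂ : V) ≠ y₂ := fun h => hy (Subtype.ext h)
  have hVa : {x | x ≠ u ∧ p x = a} = {(x₁ : V), (y₁ : V)} := by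
    symm
    apply Set.eq_of_subset_of_ncard_le
    · rintro z (hz | hz)
      · rw [hz]; exact ⟨x₁.2, e1⟩
      · rw [Set.mem_singleton_iff.1 hz]; exact ⟨y₁.2, e3⟩
    · rw [fib, hA, Set.ncard_pair hx']
    · exact Set.toFinite _
  have adj : ∀ x y, x ≠ u → y ≠ u → (G.Adj x y ↔ p x ≠ p y ∧
      (p x = a → p y = b → (x = x₁ ∧ y = x₂) ∨ (x = y₁ ∧ y = y₂)) ∧
      (p x = b → p y = a → (x = x₂ ∧ y = x₁) ∨ (x = y₂ ∧ y = y₁))) := by
    intro x y hxu hyu
    have h1 := hadj ⟨x, hxu⟩ ⟨y, hyu⟩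
    have h2 : p x = p' ⟨x, hxu⟩ := hp ⟨x, hxu⟩
    have h3 : p y = p' ⟨y, hyu⟩ := hp ⟨y, hyu⟩
    rw [h2, h3]
    simp only [Subtype.ext_iff] at h1
    exact h1
  have hq : ∀ i, ∃ y, y ≠ u ∧ p y = i ∧ (i = a → y = x₁) ∧ (i = b → y = x₂) := by
    intro i
    by_cases hia : i = a
    · exact ⟨x₁, x₁.2, by rw [e1, hia], fun _ => rfl, fun h => absurd (hia.symm.trans h) hab⟩
    by_cases hib : i = b
    · exact ⟨x₂, x₂.2, by rw [e2, hib], fun h => absurd h hia, fun _ => rfl⟩
    have h1 := fib i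
    have h2 : {x | x ≠ u ∧ p x = i}.Nonempty := by
      rw [← Set.ncard_pos (Set.toFinite _)]
      have := hO i hia hib
      omega
    obtain ⟨y, hy⟩ := h2
    exact ⟨y, hy.1, hy.2, fun h => absurd h hia, fun h => absurd h hib⟩
  choose q hq1 hq2 hq3 hq4 using hq
  have S : SetupC G k u p a b x₁ x₂ y₁ y₂ q :=
    { cl := hcl, ab := hab, hx₁ := e1, hy₁ := e3, hx₂ := e2, hy₂ := e4, hx := hx', hy := hy'
      ux₁ := x₁.2, uy₁ := y₁.2, ux₂ := x₂.2, uy₂ := y₂.2
      Va := by
        intro y hy hya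
        have : y ∈ {x | x ≠ u ∧ p x = a} := ⟨hy, hya⟩
        rw [hVa] at this
        exact this
      adj := adj, qu := hq1, qp := hq2, qa := hq3 a rfl, qb := hq4 b rfl }
  have hBu : {y | y ≠ u ∧ p y = b}.ncard = L + 1 := by rw [fib, hB]
  rcases S.stepC hBu hN with ⟨j, hja, hjb, hj⟩ | hone
  · have hjs := hO j hja hjb
    rw [← fib j] at hjs
    have hsub : {x | x ≠ u ∧ p x = j} ⊆ {y | y ≠ u ∧ ¬ G.Adj y u} :=
      fun y hy => ⟨hy.1, hj y hy.1 hy.2⟩
    have hle := Set.ncard_le_ncard hsub (Set.toFinite _)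
    rw [hX, hμ] at hle
    have hjL : {x | x ≠ u ∧ p x = j}.ncard = L + 1 := by omega
    have heq : {x | x ≠ u ∧ p x = j} = {y | y ≠ u ∧ ¬ G.Adj y u} := by
      apply Set.eq_of_subset_of_ncard_le hsub _ (Set.toFinite _)
      rw [hX, hμ, hjL]
    have hXu : ∀ y, y ≠ u → (G.Adj y u ↔ p y ≠ j) := by
      intro y hy
      have : y ∈ {x | x ≠ u ∧ p x = j} ↔ y ∈ {y | y ≠ u ∧ ¬ G.Adj y u} := by rw [heq]
      simp only [Set.mem_ofPred_eq] at this
      tauto
    set p2 := Function.update p u j with hp2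
    have hp2u : p2 u = j := Function.update_self _ _ _
    have hp2x : ∀ x, x ≠ u → p2 x = p x := fun x hx => Function.update_of_ne hx _ _
    have hfib : ∀ i, i ≠ j → {x | p2 x = i} = {x | x ≠ u ∧ p x = i} := by
      intro i hij
      ext x
      simp only [Set.mem_ofPred_eq]
      constructor
      · intro h
        have hxu : x ≠ u := fun h' => hij (by rw [← h, h', hp2u])
        exact ⟨hxu, by rw [← hp2x x hxu]; exact h⟩
      · rintro ⟨hxu, h⟩
        rw [hp2x x hxu]; exact h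
    refine ⟨p2, a, b, x₁, x₂, y₁, y₂, hab, by rw [hp2x _ x₁.2, e1], by rw [hp2x _ y₁.2, e3],
      by rw [hp2x _ x₂.2, e2], by rw [hp2x _ y₂.2, e4], hx', hy', ?_, ?_, ?_, ?_⟩
    · rw [hfib a (Ne.symm hja), fib, hA]
    · rw [hfib b (Ne.symm hjb), fib, hB]
    · intro i hia hib
      by_cases hij : i = j
      · right
        have : {x | p2 x = i} = insert u {x | x ≠ u ∧ p x = j} := by
          ext x
          simp only [Set.mem_ofPred_eq, Set.mem_insert_iff]
          by_cases hxu : x = u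
          · simp [hxu, hp2u, hij]
          · rw [hp2x x hxu, hij]; simp [hxu]
        rw [this, Set.ncard_insert_of_notMem (fun h => h.1 rfl) (Set.toFinite _), hjL]
      · rw [hfib i hij, fib]
        exact hO i hia hib
    · have n1 := x₁.2
      have n2 := x₂.2
      have n3 := y₁.2
      have n4 := y₂.2
      have n1' : (x₁ : V) ≠ u := n1
      have n2' : (x₂ : V) ≠ u := n2
      have n3' : (y₁ : V) ≠ u := n3
      have n4' : (y₂ : V) ≠ u := n4
      intro x y
      by_cases hx : x = u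
      · by_cases hy : y = u
        · rw [hx, hy]; simp
        · rw [hx, hp2u, hp2x y hy, G.adj_comm, hXu y hy]
          constructor
          · intro h
            exact ⟨fun h' => h h'.symm, fun h' => absurd h' hja, fun h' => absurd h' hjb⟩
          · rintro ⟨h, _⟩
            exact fun h' => h h'.symm
      · by_cases hy : y = u
        · rw [hy, hp2u, hp2x x hx, hXu x hx]
          constructor
          · intro h
            exact ⟨h, fun _ h' => absurd h' hjb, fun _ h' => absurd h' hja⟩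
          · rintro ⟨h, _⟩
            exact h
        · rw [hp2x x hx, hp2x y hy]
          exact adj x y hx hy
  · exfalso
    -- at least `L + 2` vertices of `V_a ∪ V_b` are not adjacent to `u`
    have hdis : Disjoint {x | x ≠ u ∧ p x = a} {x | x ≠ u ∧ p x = b} := by
      rw [Set.disjoint_left]
      intro y hy1 hy2
      exact hab (hy1.2.symm.trans hy2.2)
    have hZ : ({x | x ≠ u ∧ p x = a} ∪ {x | x ≠ u ∧ p x = b}).ncard = L + 3 := by
      rw [Set.ncard_union_eq hdis (Set.toFinite _) (Set.toFinite _), fib, fib, hA, hB]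
      omega
    have hmemZ : ∀ y, y ∈ {x | x ≠ u ∧ p x = a} ∪ {x | x ≠ u ∧ p x = b} →
        y ≠ u ∧ (p y = a ∨ p y = b) := by
      rintro y (hy | hy)
      · exact ⟨hy.1, Or.inl hy.2⟩
      · exact ⟨hy.1, Or.inr hy.2⟩
    by_cases hg : ∃ g ∈ {x | x ≠ u ∧ p x = a} ∪ {x | x ≠ u ∧ p x = b}, G.Adj g u
    · obtain ⟨g, hgZ, hgu⟩ := hg
      have hsub : ({x | x ≠ u ∧ p x = a} ∪ {x | x ≠ u ∧ p x = b}) \ {g} ⊆
          {y | y ≠ u ∧ ¬ G.Adj y u} := by
        rintro y ⟨hyZ, hyg⟩
        have h1 := hmemZ y hyZ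
        have h2 := hmemZ g hgZ
        refine ⟨h1.1, fun hyu => hyg ?_⟩
        exact hone y g h1.1 h2.1 h1.2 h2.2 hyu hgu
      have h1 := Set.ncard_le_ncard hsub (Set.toFinite _)
      have h2 := Set.ncard_sdiff_singleton_add_one hgZ (Set.toFinite _)
      omega
    · push Not at hg
      have hsub : ({x | x ≠ u ∧ p x = a} ∪ {x | x ≠ u ∧ p x = b}) ⊆
          {y | y ≠ u ∧ ¬ G.Adj y u} := fun y hy => ⟨(hmemZ y hy).1, hg y hy⟩
      have h1 := Set.ncard_le_ncard hsub (Set.toFinite _)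
      omega

/-- `G - u` complete multipartite, `u` with exactly `L` non-neighbours -/
theorem step_T [Fintype V] {G : SimpleGraph V} (hL : 1 ≤ L)
    (hcl : ∃ K : Finset V, G.IsNClique k K ∧ u ∈ K) (hN : 2 ^ L < 2 * numCol G k)
    (he : eN G + Fintype.card V * L = tau k (Fintype.card V + L))
    (hX : {y | y ≠ u ∧ ¬ G.Adj y u}.ncard = L)
    (h : TypeT (G.induce {u}ᶜ) k) : StrongA G k L ∨ (2 ≤ L ∧ TypeB G k L) := by
  classical
  obtain ⟨p', a, hpa', hadj'⟩ := h
  obtain ⟨p, hpu, hp⟩ := extendFun p' a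
  obtain ⟨K, hK, huK⟩ := hcl
  have pa : ∀ x, x ≠ u → p x ≠ a := fun x hx => by rw [hp ⟨x, hx⟩]; exact hpa' _
  have adj : ∀ x y, x ≠ u → y ≠ u → (G.Adj x y ↔ p x ≠ p y) := by
    intro x y hx hy
    rw [hp ⟨x, hx⟩, hp ⟨y, hy⟩]
    exact hadj' ⟨x, hx⟩ ⟨y, hy⟩
  have S : SetupT G k u p a K := ⟨hK, huK, pa, adj⟩
  have hne : ∃ x, x ≠ u ∧ ¬ G.Adj x u := by
    have : {y | y ≠ u ∧ ¬ G.Adj y u}.Nonempty := by
      rw [← Set.ncard_pos (Set.toFinite _)]; omega
    exact this
  have hred : IsReducedTuran G k L p a {y | y ≠ u ∧ ¬ G.Adj y u} := by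
    apply reduced_of_struct _ he
    refine ⟨hX, fun x hx => pa x hx.1, ?_⟩
    intro x y
    by_cases hx : x = u
    · by_cases hy : y = u
      · rw [hx, hy]; simp
      · rw [hx, G.adj_comm]
        simp only [Set.mem_ofPred_eq, hpu, ne_eq, not_true_eq_false, false_and, not_false_eq_true,
          and_true, true_and, hy, not_not]
        constructor
        · intro h
          exact ⟨fun h' => pa y hy h'.symm, h⟩
        · rintro ⟨_, h⟩
          exact h
    · by_cases hy : y = u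
      · rw [hy]
        simp only [Set.mem_ofPred_eq, hpu, ne_eq, not_true_eq_false, false_and, not_false_eq_true,
          and_true, hx, not_not, true_and]
        constructor
        · intro h
          exact ⟨fun h' => pa x hx h', h⟩
        · rintro ⟨_, h⟩
          exact h
      · rw [adj x y hx hy]
        have h1 := pa x hx
        have h2 := pa y hy
        constructor
        · intro h
          exact ⟨h, fun h' => h2 h'.2, fun h' => h1 h'.2⟩
        · rintro ⟨h, _⟩
          exact h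
  by_cases h1 : ∃ b, ∀ x, x ≠ u → ¬ G.Adj x u → p x = b
  · left
    obtain ⟨b, hb⟩ := h1
    obtain ⟨x₀, hx₀, hx₀u⟩ := hne
    have hba : b ≠ a := by rw [← hb x₀ hx₀ hx₀u]; exact pa x₀ hx₀
    obtain ⟨y, hyK, hyu, hyb⟩ := S.exists_anchor b hba
    refine ⟨p, a, _, hred, ⟨u, hpu⟩, b, fun x hx => hb x hx.1 hx.2, y, ?_, hyb⟩
    intro hy
    exact hy.2 (hK.1 hyK huK hyu)
  · right
    rcases S.stepT (by rw [hX]; exact hN) hne with h | ⟨b, w, hwu, hwX, hwb, hb⟩
    · exact absurd h h1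
    · push Not at h1
      obtain ⟨x, hxu, hxX, hxw⟩ := h1 (p w)
      have hxw' : x ≠ w := fun h => hxw (by rw [h])
      constructor
      · have : ({w, x} : Set V) ⊆ {y | y ≠ u ∧ ¬ G.Adj y u} := by
          rintro z (hz | hz)
          · rw [hz]; exact ⟨hwu, hwX⟩
          · rw [Set.mem_singleton_iff.1 hz]; exact ⟨hxu, hxX⟩
        have h2 := Set.ncard_le_ncard this (Set.toFinite _)
        rw [Set.ncard_pair hxw'.symm, hX] at h2
        exact h2
      · exact ⟨p, a, _, hred, ⟨u, hpu⟩, b, w, ⟨hwu, hwX⟩, hwb,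
          fun x hx hxw => hb x hx.1 hx.2 hxw⟩

end Pool.Agent.Lib.MP_70fc77_co
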