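import Mathlib
import Pool.Agent.Lib.MP_70fc77_co.Classify2

set_option autoImplicit false

namespace Pool.Agent.Lib.MP_70fc77_co

open Finset SimpleGraph

/-- uniqueness for `n ≤ (k - 1) L` -/
theorem cliqueFree_of_small {k L : ℕ} (hk : 2 ≤ k) : ∀ (n : ℕ) (V : Type) [Fintype V]
    (G : SimpleGraph V), Fintype.card V = n → n ≤ (k - 1) * L → 2 ^ L < 2 * numCol G k →
    eN G = tau (k - 1) n → G.CliqueFree k := by
  intro n
  induction n with
  | zero =>
    intro V _ G hV _ _ _
    have : IsEmpty V := Fintype.card_eq_zero_iff.1 hV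
    intro K hK
    have h1 := hK.2
    have : K = ∅ := by
      ext x; exact isEmptyElim x
    rw [this, card_empty] at h1
    omega
  | succ n ih =>
    intro V _ G hV hn hL he
    classical
    by_contra hc
    unfold CliqueFree at hc
    push Not at hc
    obtain ⟨K, hK⟩ := hc
    obtain ⟨u, hu, hun⟩ := exists_nn_ge hK (by omega) hL
    have hcs := card_compl_sing u
    have hN' := lt_of_lt_of_le hL (Nat.mul_le_mul_left _ (numCol_del hK hu))
    have h1 := upper_small hk n _ (G.induce {u}ᶜ) (by omega) (by omega) hN'
    have h2 := eN_del G u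
    rw [hV] at h2 hun
    rw [tau_succ] at he
    have h3 : n / (k - 1) < nn G u := by
      rw [Nat.div_lt_iff_lt_mul (by omega)]
      by_contra hcon
      push Not at hcon
      obtain ⟨k', rfl⟩ : ∃ k', k = k' + 1 := ⟨k - 1, by omega⟩
      simp only [Nat.add_sub_cancel] at hcon hn
      have h5 : L + 1 ≤ nn G u := by nlinarith
      have h6 : k' * (L + 1) ≤ k' * nn G u := Nat.mul_le_mul_left _ h5
      nlinarith
    have h4 : n / (k - 1) ≤ n := Nat.div_le_self _ _
    have h5 : eN (G.induce {u}ᶜ) = tau (k - 1) n := by omega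
    have h6 : nn G u = n / (k - 1) + 1 := by omega
    have h7 := ih _ (G.induce {u}ᶜ) (by omega) (by omega) hN' h5
    have hcard : Fintype.card ({u}ᶜ : Set V) = n := by omega
    obtain ⟨p', a, hpa', hadj'⟩ := turan_struct hk (G.induce {u}ᶜ) h7 (by rw [hcard]; exact h5)
    obtain ⟨p, hpu, hp⟩ := extendFun p' a
    have S : SetupT G k u p a K := ⟨hK, hu, fun x hx => by rw [hp ⟨x, hx⟩]; exact hpa' _, by
      intro x y hx hy
      rw [hp ⟨x, hx⟩, hp ⟨y, hy⟩]
      exact hadj' ⟨x, hx⟩ ⟨y, hy⟩⟩
    have h8 := S.countT
    have h9 := card_X (u := u) G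
    have h10 : {y | y ≠ u ∧ ¬ G.Adj y u}.ncard = n / (k - 1) := by omega
    rw [h10] at h8
    have h11 : n / (k - 1) < L := by
      rw [Nat.div_lt_iff_lt_mul (by omega), mul_comm]
      omega
    have h12 : 2 ^ (n / (k - 1) + 1) ≤ 2 ^ L := Nat.pow_le_pow_right (by norm_num) h11
    rw [pow_succ] at h12
    omega

lemma tau_eq_at {k L : ℕ} (hk : 2 ≤ k) :
    tau k ((k - 1) * L + L) = tau (k - 1) ((k - 1) * L) + (k - 1) * L * L := by
  obtain ⟨k', rfl⟩ : ∃ k', k = k' + 1 := ⟨k - 1, by omega⟩
  simp only [Nat.add_sub_cancel]
  have hk' : 0 < k' := by omega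
  have h1 := two_tau (k' + 1) (k' * L + L) (by omega)
  have h2 := two_tau k' (k' * L) hk'
  have e1 : (k' * L + L) / (k' + 1) = L := by
    rw [show k' * L + L = (k' + 1) * L by ring]
    exact Nat.mul_div_cancel_left _ (by omega)
  have e2 : (k' * L) / k' = L := Nat.mul_div_cancel_left _ hk'
  rw [e1] at h1
  rw [e2] at h2
  push_cast at h1 h2
  have : (tau (k' + 1) (k' * L + L) : ℤ) = tau k' (k' * L) + k' * L * L := by nlinarith
  exact_mod_cast this

/-- a complete multipartite graph with an empty part is a reduced Turan graph -/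
lemma typeT_reduced {V : Type} [Fintype V] {G : SimpleGraph V} {k L : ℕ} {p : V → Fin k}
    {a : Fin k} (hpa : ∀ x, p x ≠ a) (hadj : ∀ x y, G.Adj x y ↔ p x ≠ p y)
    (he : eN G + Fintype.card V * L = tau k (Fintype.card V + L)) {F : Set V}
    (hF : F.ncard = L) : IsReducedTuran G k L p a F := by
  apply reduced_of_struct _ he
  refine ⟨hF, fun x _ => hpa x, fun x y => ?_⟩
  rw [hadj]
  constructor
  · intro h
    exact ⟨h, fun h' => hpa y h'.2, fun h' => hpa x h'.2⟩
  · rintro ⟨h, _⟩
    exact h

theorem classify {k L : ℕ} (hk : 2 ≤ k) (hL : 1 ≤ L) : ∀ (n : ℕ) (V : Type) [Fintype V]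
    (G : SimpleGraph V), Fintype.card V = n → (k - 1) * L ≤ n → 2 ^ L < 2 * numCol G k →
    eN G + n * L = tau k (n + L) →
    StrongA G k L ∨ (2 ≤ L ∧ TypeB G k L) ∨ TypeC G k L ∨ TypeT G k := by
  intro n
  induction n with
  | zero =>
    intro V _ G hV hn _ _
    exfalso
    have : 1 ≤ (k - 1) * L := Nat.mul_pos (by omega) (by omega)
    omega
  | succ n ih =>
    intro V _ G hV hn hN he
    classical
    rcases Nat.lt_or_ge n ((k - 1) * L) with hlt | hge
    · -- `n + 1 = (k - 1) L`
      have hn1 : n + 1 = (k - 1) * L := by omega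
      right; right; right
      have h1 := tau_eq_at (L := L) hk
      rw [← hn1] at h1
      have h2 : eN G = tau (k - 1) (n + 1) := by omega
      have h3 := cliqueFree_of_small hk (n + 1) V G hV (by omega) hN h2
      exact turan_struct hk G h3 (by rw [hV]; exact h2)
    · by_cases hc : G.CliqueFree k
      · right; right; right
        have hk1 : k = (k - 1) + 1 := by omega
        have h1 : eN G ≤ tau (k - 1) (n + 1) := by
          rw [← hV]
          exact turan_le G (k - 1) (by omega) (by rw [← hk1]; exact hc)
        have h2 := tau_add_le (k - 1) (n + 1) L (by omega)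
        rw [← hk1] at h2
        exact turan_struct hk G hc (by rw [hV]; omega)
      · unfold CliqueFree at hc
        push Not at hc
        obtain ⟨K, hK⟩ := hc
        obtain ⟨u, hu, hun⟩ := exists_nn_ge hK (by omega) hN
        have hcs := card_compl_sing u
        have hN' := lt_of_lt_of_le hN (Nat.mul_le_mul_left _ (numCol_del hK hu))
        have h1 := upper hk n _ (G.induce {u}ᶜ) (by omega) hN'
        have h2 := eN_del G u
        have h3 : (n + L) / k < nn G u := by
          rw [Nat.div_lt_iff_lt_mul (by omega), mul_comm]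
          omega
        have h4 : (n + L) / k ≤ n + L := Nat.div_le_self _ _
        rw [hV] at h2
        have h5 : (n + 1) * L = n * L + L := by ring
        have h6 : tau k (n + 1 + L) = tau k (n + L) + (n + L - (n + L) / k) := by
          rw [show n + 1 + L = n + L + 1 by ring, tau_succ]
        have h7 : eN (G.induce {u}ᶜ) + n * L = tau k (n + L) := by omega
        have h8 : nn G u = (n + L) / k + 1 := by omega
        have h9 := card_X (u := u) G
        have he' : eN G + Fintype.card V * L = tau k (Fintype.card V + L) := by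
          rw [hV]; exact he
        have hcl : ∃ K : Finset V, G.IsNClique k K ∧ u ∈ K := ⟨K, hK, hu⟩
        have hX : {y | y ≠ u ∧ ¬ G.Adj y u}.ncard = (Fintype.card V - 1 + L) / k := by
          rw [hV, Nat.add_sub_cancel]; omega
        have hn' : (k - 1) * L ≤ Fintype.card V - 1 := by rw [hV]; omega
        rcases ih _ (G.induce {u}ᶜ) (by omega) hge hN' h7 with h | ⟨hL2, h⟩ | h | h
        · rcases step_A hL hcl hN he' hX hn' h with h | h
          · left; exact h
          · right; right; left; exact h
        · right; left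
          exact ⟨hL2, step_B hL2 hcl hN he' hX hn' h⟩
        · right; right; left
          exact step_C hL hcl hN hX h
        · -- the number of non-neighbours is `L`
          have hXL : {y | y ≠ u ∧ ¬ G.Adj y u}.ncard = L := by
            rw [hX]
            apply le_antisymm
            · obtain ⟨p', a, hpa', hadj'⟩ := h
              have hcard : Fintype.card ({u}ᶜ : Set V) = n := by omega
              have hLn : L ≤ n := by
                have : 1 * L ≤ (k - 1) * L := Nat.mul_le_mul_right _ (by omega)
                omega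
              obtain ⟨F, -, hF⟩ := Set.exists_subset_card_eq
                (s := (Set.univ : Set ({u}ᶜ : Set V))) (n := L) (by
                  rw [Set.ncard_univ, Nat.card_eq_fintype_card]; omega)
              have hred := typeT_reduced (L := L) hpa' hadj' (by rw [hcard]; exact h7) hF
              have hsum := msize_sum L p' a
              have ha : msize L p' a a = L := by
                unfold msize
                rw [if_pos rfl]
                have : {x | p' x = a} = ∅ := by
                  ext x
                  simp only [Set.mem_ofPred_eq, Set.mem_empty_iff_false, iff_false]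
                  exact hpa' x
                rw [this, Set.ncard_empty, zero_add]
              have hlt : ∑ i, msize L p' a i < ∑ i : Fin k, (L + 1) := by
                apply sum_lt_sum
                · intro i _
                  have := hred.2.2.2 i a
                  change msize L p' a i ≤ msize L p' a a + 1 at this
                  omega
                · exact ⟨a, mem_univ _, by omega⟩
              rw [sum_const, card_univ, Fintype.card_fin, smul_eq_mul, hsum] at hlt
              rw [← Nat.lt_succ_iff, Nat.div_lt_iff_lt_mul (by omega), mul_comm]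
              have : Fintype.card V - 1 + L = Fintype.card ({u}ᶜ : Set V) + L := by omega
              rw [this]
              exact hlt
            · exact div_ge (by omega) hn'
          rcases step_T hL hcl hN he' hXL h with h | h
          · left; exact h
          · right; left; exact h

lemma typeT_typeA {V : Type} [Fintype V] {G : SimpleGraph V} {k L : ℕ} (hk : 2 ≤ k)
    (hn : (k - 1) * L < Fintype.card V) (h : TypeT G k)
    (he : eN G + Fintype.card V * L = tau k (Fintype.card V + L)) : TypeA G k L := by
  classical
  obtain ⟨p, a, hpa, hadj⟩ := h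
  have hex : ∃ b, L + 1 ≤ {x | p x = b}.ncard := by
    by_contra hno
    push Not at hno
    have h1 := msize_sum L p a
    have h2 : ∑ i, msize L p a i ≤ ∑ i : Fin k, L := by
      apply sum_le_sum
      intro i _
      unfold msize
      by_cases hia : i = a
      · rw [if_pos hia, hia]
        have : {x | p x = a} = ∅ := by
          ext x
          simp only [Set.mem_ofPred_eq, Set.mem_empty_iff_false, iff_false]
          exact hpa x
        rw [this, Set.ncard_empty, zero_add]
      · rw [if_neg hia]
        have := hno i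
        omega
    rw [sum_const, card_univ, Fintype.card_fin, smul_eq_mul] at h2
    obtain ⟨k', rfl⟩ : ∃ k', k = k' + 1 := ⟨k - 1, by omega⟩
    simp only [Nat.add_sub_cancel] at hn
    have : (k' + 1) * L = k' * L + L := by ring
    omega
  obtain ⟨b, hb⟩ := hex
  obtain ⟨F, hF, hFc⟩ := Set.exists_subset_card_eq (s := {x | p x = b}) (n := L) (by omega)
  refine ⟨p, a, F, typeT_reduced hpa hadj he hFc, b, fun x hx => hF hx, ?_⟩
  by_contra hcon
  push Not at hcon
  have : {x | p x = b} ⊆ F := fun x hx => by
    by_contra hxF
    exact hcon x hxF hx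
  have h3 := Set.ncard_le_ncard this (Set.toFinite F)
  omega

/-- upper bound for the number of colourings of a graph of type B -/
lemma typeB_numCol_le {V : Type} [Fintype V] {G : SimpleGraph V} {k L : ℕ} (hk : 2 ≤ k)
    (hL : 2 ≤ L) (hn : (k - 1) * L < Fintype.card V) (h : TypeB G k L) :
    numCol G k ≤ 2 ^ (L - 1) + 1 := by
  classical
  obtain ⟨p, a, F, h, ⟨xa, hxa⟩, b, w, hw, hwb, hb⟩ := h
  obtain ⟨hFc, Fa, adj, hbal⟩ := h
  have hmL : ∀ i, L ≤ msize L p a i := by
    intro i
    have h1 := (sum_sq_balanced (msize L p a) hbal i).1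
    rw [msize_sum] at h1
    exact (div_ge (by omega) hn.le).trans h1
  have hFw : (F \ {w}).ncard + 1 = L := by
    rw [← hFc]; exact Set.ncard_sdiff_singleton_add_one hw (Set.toFinite _)
  have hwa : p w ≠ a := Fa _ hw
  have hq : ∀ i, ∃ y, p y = i ∧ y ∉ F := by
    intro i
    by_cases hia : i = a
    · exact ⟨xa, by rw [hxa, hia], fun h => Fa _ h hxa⟩
    have h1 := hmL i
    unfold msize at h1
    rw [if_neg hia, add_zero] at h1
    by_contra hno
    push Not at hno
    have h2 : {x | p x = i} ⊆ if i = b then F \ {w} else {w} := by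
      intro x hx
      have hxF := hno x hx
      by_cases hib : i = b
      · rw [if_pos hib]
        exact ⟨hxF, fun h => hwb (by rw [← Set.mem_singleton_iff.1 h, hx, hib])⟩
      · rw [if_neg hib]
        by_contra hxw
        exact hib (hx.symm.trans (hb x hxF hxw))
    have h3 := Set.ncard_le_ncard h2 (Set.toFinite _)
    by_cases hib : i = b
    · rw [if_pos hib] at h3; omega
    · rw [if_neg hib, Set.ncard_singleton] at h3; omega
  choose q hq1 hq2 using hq
  have qadj : ∀ i j, i ≠ j → G.Adj (q i) (q j) := by
    intro i j hij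
    rw [adj, hq1, hq1]
    exact ⟨hij, fun h => hq2 _ h.1, fun h => hq2 _ h.1⟩
  have Q : Anchors G k (q a) q := by
    refine ⟨⟨univ.image q, ?_, mem_image_of_mem _ (mem_univ _)⟩, qadj⟩
    have hinj : Function.Injective q := by
      intro i j h
      by_contra hne
      exact (qadj i j hne).ne h
    constructor
    · intro x hx y hy hxy
      rw [coe_image] at hx hy
      obtain ⟨i, _, rfl⟩ := hx
      obtain ⟨j, _, rfl⟩ := hy
      exact qadj i j (fun h => hxy (by rw [h]))
    · rw [card_image_of_injective _ hinj, card_univ, Fintype.card_fin]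
  have val : ∀ r : Setoid V, IsColouring G k r → ∀ x, x ∉ F → ∀ i, r x (q i) → i = p x := by
    intro r hr x hxF i h
    by_contra hne
    refine hr.1 _ _ h ?_
    rw [adj, hq1]
    exact ⟨fun h => hne h.symm, fun h => hxF h.1, fun h => hq2 _ h.1⟩
  have valF : ∀ r : Setoid V, IsColouring G k r → ∀ x, x ∈ F → ∀ i, r x (q i) →
      i = p x ∨ i = a := by
    intro r hr x hxF i h
    by_contra hne
    push Not at hne
    refine hr.1 _ _ h ?_
    rw [adj, hq1]
    exact ⟨fun h => hne.1 h.symm, fun h => hne.2 h.2, fun h => hq2 _ h.1⟩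
  have h1 := numCol_le_ncard (G := G) (k := k) (insert {w} (𝒫 (F \ {w})))
    (Set.toFinite _) (fun r => {f | f ∈ F ∧ r f (q a)}) (by
      intro r hr
      by_cases hrw : r w (q a)
      · left
        ext f
        simp only [Set.mem_ofPred_eq, Set.mem_singleton_iff]
        constructor
        · rintro ⟨hf, hfa⟩
          by_contra hfw
          refine hr.1 _ _ (r.trans hfa (r.symm hrw)) ?_
          rw [adj]
          exact ⟨fun h => hwb (h.symm.trans (hb f hf hfw)), fun h => Fa w hw h.2,
            fun h => Fa f hf h.2⟩
        · rintro rfl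
          exact ⟨hw, hrw⟩
      · right
        intro f hf
        exact ⟨hf.1, fun h => hrw (Set.mem_singleton_iff.1 h ▸ hf.2)⟩)
    (by
      intro r s hr hs hrs
      have hrs' : ∀ f ∈ F, (r f (q a) ↔ s f (q a)) := by
        intro f hf
        have : f ∈ {f | f ∈ F ∧ r f (q a)} ↔ f ∈ {f | f ∈ F ∧ s f (q a)} := by rw [hrs]
        simp only [Set.mem_ofPred_eq, hf, true_and] at this
        exact this
      apply Q.det0 hr hs
      intro x _ i hi
      obtain ⟨j, hj⟩ := Q.cover hs x
      by_cases hxF : x ∈ F
      · rcases valF r hr x hxF i hi with h' | h'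
        · rcases valF s hs x hxF j hj with h2 | h2
          · rw [h', ← h2]; exact hj
          · rw [h2] at hj
            have h3 := (hrs' x hxF).2 hj
            have h4 := Q.uniq hr hi h3
            rw [h4]; exact hj
        · rw [h'] at hi ⊢
          exact (hrs' x hxF).1 hi
      · rw [val r hr x hxF i hi, ← val s hs x hxF j hj]
        exact hj)
  have h3 : (insert {w} (𝒫 (F \ {w}))).ncard = 2 ^ (F \ {w}).ncard + 1 := by
    rw [Set.ncard_insert_of_notMem _ (Set.toFinite _), Set.ncard_powerset]
    intro h
    exact (h (Set.mem_singleton w)).2 rfl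
  rw [h3] at h1
  have : (F \ {w}).ncard = L - 1 := by omega
  rw [this] at h1
  exact h1

lemma strongA_typeA {V : Type} {G : SimpleGraph V} {k L : ℕ} (h : StrongA G k L) :
    TypeA G k L := by
  obtain ⟨p, a, F, h, _, hb⟩ := h
  exact ⟨p, a, F, h, hb⟩

/-- the extremal graphs for `n > (k - 1) L` -/
theorem main2 {d k n : ℕ} (hd : 2 ≤ d) (hk : 2 ≤ k) (hn : (k - 1) * Nat.clog 2 d < n)
    (G : SimpleGraph (Fin n)) :
    (MaxFoldColourable d k G ∧ eN G + n * Nat.clog 2 d = tau k (n + Nat.clog 2 d)) ↔
      (TypeA G k (Nat.clog 2 d) ∨ (d = 2 ^ (Nat.clog 2 d - 1) + 1 ∧ TypeB G k (Nat.clog 2 d)) ∨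
        TypeC G k (Nat.clog 2 d)) := by
  have hub : ∀ H : SimpleGraph (Fin n), FoldColourable d k H →
      eN H + n * Nat.clog 2 d ≤ tau k (n + Nat.clog 2 d) := fun H hH =>
    upper hk n _ H (Fintype.card_fin n) (hyp_of_fold hd hH)
  have hmax : FoldColourable d k G → eN G + n * Nat.clog 2 d = tau k (n + Nat.clog 2 d) →
      MaxFoldColourable d k G := by
    intro h1 h2
    refine ⟨h1, ?_⟩
    intro x y hxy hadj hfold
    have h3 := hub _ hfold
    rw [eN_sup_edge G hxy hadj] at h3
    omega
  have hLpos : 1 ≤ Nat.clog 2 d := Nat.clog_pos (by norm_num) hd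
  have hle := Nat.le_pow_clog (b := 2) (by norm_num) d
  have hlt := pow_clog_lt hd
  generalize Nat.clog 2 d = L at *
  have hcard := Fintype.card_fin n
  constructor
  · rintro ⟨hG, he⟩
    have hN := lt_of_lt_of_le hlt (Nat.mul_le_mul_left 2 ((fold_iff G d k).1 hG.1))
    rcases classify hk hLpos n _ G hcard hn.le hN he with h | ⟨hL2, h⟩ | h | h
    · left; exact strongA_typeA h
    · right; left
      refine ⟨?_, h⟩
      have h1 := typeB_numCol_le hk hL2 (by rw [hcard]; exact hn) h
      have h2 := (fold_iff G d k).1 hG.1
      have h3 : 2 ^ L = 2 * 2 ^ (L - 1) := by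
        rw [← pow_succ']
        congr 1
        omega
      omega
    · right; right; exact h
    · left
      exact typeT_typeA hk (by rw [hcard]; exact hn) h (by rw [hcard]; exact he)
  · rintro (h | ⟨hdL, h⟩ | h)
    · have h1 : FoldColourable d k G := (fold_iff _ _ _).2 (hle.trans (typeA_numCol h))
      have h2 : eN G + n * L = tau k (n + L) := by
        obtain ⟨p, a, F, h, _⟩ := h
        have := reduced_eN h
        rwa [hcard] at this
      exact ⟨hmax h1 h2, h2⟩
    · have h1 : FoldColourable d k G := (fold_iff _ _ _).2 (hdL.le.trans (typeB_numCol h))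
      have h2 : eN G + n * L = tau k (n + L) := by
        obtain ⟨p, a, F, h, _⟩ := h
        have := reduced_eN h
        rwa [hcard] at this
      exact ⟨hmax h1 h2, h2⟩
    · have h1 : FoldColourable d k G := (fold_iff _ _ _).2 (hle.trans (typeC_numCol h))
      have h2 : eN G + n * L = tau k (n + L) := by
        have := typeC_eN h
        rwa [hcard] at this
      exact ⟨hmax h1 h2, h2⟩

/-- the extremal graph for `n ≤ (k - 1) L` -/
theorem main3 {d k n : ℕ} (hd : 2 ≤ d) (hk : 2 ≤ k) (hn : n ≤ (k - 1) * Nat.clog 2 d)
    (hdc : d ≤ turanColourings n (k - 1)) (G : SimpleGraph (Fin n)) :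
    (MaxFoldColourable d k G ∧ eN G = tau (k - 1) n) ↔
      Nonempty (G ≃g turanGraph n (k - 1)) := by
  have hub : ∀ H : SimpleGraph (Fin n), FoldColourable d k H → eN H ≤ tau (k - 1) n :=
    fun H hH => upper_small hk n _ H (Fintype.card_fin n) hn (hyp_of_fold hd hH)
  have hcard := Fintype.card_fin n
  constructor
  · rintro ⟨hG, he⟩
    have hN := hyp_of_fold hd hG.1
    have h1 := cliqueFree_of_small hk n _ G hcard hn hN he
    have h2 := turan_iso hk G h1 (by rw [hcard]; exact he)
    rwa [hcard] at h2
  · rintro ⟨f⟩
    have hT : FoldColourable d k (turanGraph n (k - 1)) :=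
      (fold_iff _ _ _).2 (hdc.trans (turan_numCol' hk))
    have hG : FoldColourable d k G := by
      obtain ⟨c, hc, hcol⟩ := hT
      refine ⟨fun i => (c i).comap f, ?_, ?_⟩
      · intro i j hij
        apply hc
        ext x y
        have : ((c i).comap f) (f.symm x) (f.symm y) ↔ ((c j).comap f) (f.symm x) (f.symm y) := by
          simp only at hij
          rw [hij]
        simpa [Setoid.comap_rel] using this
      · intro i
        refine ⟨fun x y hxy hadj => (hcol i).1 _ _ hxy (f.map_adj_iff.2 hadj), ?_⟩
        exact (quot_comap_card (c i) f).trans (hcol i).2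
    have he : eN G = tau (k - 1) n := by
      classical
      rw [eN_eq, f.card_edgeFinset_eq, card_turan _ _ (by omega)]
    refine ⟨⟨hG, ?_⟩, he⟩
    intro x y hxy hadj hfold
    have h3 := hub _ hfold
    rw [eN_sup_edge G hxy hadj] at h3
    omega

end Pool.Agent.Lib.MP_70fc77_co
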