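import Mathlib
import Pool.Agent.Lib.MP_70fc77_co.Main1

set_option autoImplicit false

namespace Pool.Agent.Lib.MP_70fc77_co

open Finset SimpleGraph

/-- `r` is a partition into cliques of `H`, with at least `t` fewer classes than vertices -/
def IsCP {V : Type} (H : SimpleGraph V) (t : ℕ) (r : Setoid V) : Prop :=
  (∀ x y, r x y → x ≠ y → H.Adj x y) ∧ t + Nat.card (Quotient r) ≤ Nat.card V

noncomputable def cp {V : Type} (H : SimpleGraph V) (t : ℕ) : ℕ := {r : Setoid V | IsCP H t r}.ncard

/-- number of subsets with at least `t` elements of an `m`-set -/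
def sg (m t : ℕ) : ℕ := ∑ j ∈ Icc t m, m.choose j

lemma sg_eq (m t : ℕ) : sg m t = ∑ j ∈ range (m + 1), if t ≤ j then m.choose j else 0 := by
  rw [sg, ← sum_filter]
  apply sum_congr _ (fun _ _ => rfl)
  ext j
  simp only [mem_Icc, mem_filter, mem_range]
  omega

lemma sg_succ (m t : ℕ) : sg (m + 1) t = sg m t + sg m (t - 1) := by
  rw [sg_eq, sg_eq, sg_eq, sum_range_succ' _ (m + 1)]
  have h1 : ∀ i ∈ range (m + 1), (if t ≤ i + 1 then (m + 1).choose (i + 1) else 0) =
      (if t - 1 ≤ i then m.choose i else 0) + (if t ≤ i + 1 then m.choose (i + 1) else 0) := by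
    intro i _
    have : t ≤ i + 1 ↔ t - 1 ≤ i := by omega
    simp only [this]
    split_ifs
    · rw [Nat.choose_succ_succ]
    · rfl
  rw [sum_congr rfl h1, sum_add_distrib]
  have h2 := sum_range_succ' (fun j => if t ≤ j then m.choose j else 0) (m + 1)
  rw [sum_range_succ] at h2
  simp only [Nat.choose_succ_self, ite_self, add_zero, Nat.choose_zero_right] at h2 ⊢
  rw [h2]
  ring

lemma sg_anti (m : ℕ) {s t : ℕ} (h : s ≤ t) : sg m t ≤ sg m s :=
  sum_le_sum_of_subset (Icc_subset_Icc h le_rfl)

lemma sg_mono {m n : ℕ} (h : m ≤ n) (t : ℕ) : sg m t ≤ sg n t := by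
  induction h with
  | refl => rfl
  | step _ ih => rw [sg_succ]; omega

lemma sg_zero_left (t : ℕ) : sg 0 t = if t = 0 then 1 else 0 := by
  rcases t with _ | t
  · simp [sg]
  · simp [sg]

section

variable {V : Type}

/-- identify `y` with its neighbour `x`; `y` is kept as an isolated vertex -/
def contr (H : SimpleGraph V) (x y : V) : SimpleGraph V where
  Adj u v := H.Adj u v ∧ u ≠ y ∧ v ≠ y ∧ (u = x → H.Adj v y) ∧ (v = x → H.Adj u y)
  symm := ⟨fun _ _ h => ⟨h.1.symm, h.2.2.1, h.2.1, h.2.2.2.2, h.2.2.2.1⟩⟩
  loopless := ⟨fun _ h => H.loopless.irrefl _ h.1⟩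

def sigma [DecidableEq V] (x y : V) (v : V) : V := if v = y then x else v

/-- the partition with `y` made a singleton -/
def isolate (r : Setoid V) (y : V) : Setoid V where
  r u v := u = v ∨ (r u v ∧ u ≠ y ∧ v ≠ y)
  iseqv :=
    { refl := fun _ => Or.inl rfl
      symm := by
        rintro u v (rfl | ⟨h, hu, hv⟩)
        · exact Or.inl rfl
        · exact Or.inr ⟨r.symm h, hv, hu⟩
      trans := by
        rintro u v w (rfl | ⟨h, hu, hv⟩) (rfl | ⟨h', hv', hw⟩)
        · exact Or.inl rfl
        · exact Or.inr ⟨h', hv', hw⟩
        · exact Or.inr ⟨h, hu, hv⟩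
        · exact Or.inr ⟨r.trans h h', hu, hw⟩ }

lemma isolate_apply (r : Setoid V) (y u v : V) :
    isolate r y u v ↔ u = v ∨ (r u v ∧ u ≠ y ∧ v ≠ y) := Iff.rfl

lemma card_quot_le [Finite V] (r : Setoid V) : Nat.card (Quotient r) ≤ Nat.card V :=
  Nat.card_le_card_of_surjective (Quotient.mk r) Quotient.mk_surjective

lemma card_quot_comap_sigma [Finite V] [DecidableEq V] {x y : V} (hxy : x ≠ y) (r : Setoid V)
    (hy : ∀ v, r y v → v = y) :
    Nat.card (Quotient r) = Nat.card (Quotient (r.comap (sigma x y))) + 1 := by
  rw [← Finite.card_option]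
  symm
  let f : Option (Quotient (r.comap (sigma x y))) → Quotient r := fun o =>
    o.elim (Quotient.mk r y) (Quotient.lift (fun v => Quotient.mk r (sigma x y v))
      (fun _ _ h => Quotient.sound h))
  have hs : ∀ v, sigma x y v ≠ y := by
    intro v
    unfold sigma
    split_ifs with h
    · exact hxy
    · exact h
  refine Nat.card_congr (Equiv.ofBijective f ⟨?_, ?_⟩)
  · intro a b hab
    rcases a with _ | a <;> rcases b with _ | b
    · rfl
    · induction b using Quotient.inductionOn with
      | h b => exact absurd (hy _ (Quotient.exact hab)) (hs b)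
    · induction a using Quotient.inductionOn with
      | h a => exact absurd (hy _ (r.symm (Quotient.exact hab))) (hs a)
    · induction a using Quotient.inductionOn with
      | h a =>
        induction b using Quotient.inductionOn with
        | h b =>
          congr 1
          exact Quotient.sound (Quotient.exact hab : r _ _)
  · intro c
    induction c using Quotient.inductionOn with
    | h c =>
      by_cases hc : c = y
      · exact ⟨none, by rw [hc]; rfl⟩
      · refine ⟨some (Quotient.mk _ c), ?_⟩
        change Quotient.mk r (sigma x y c) = _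
        simp only [sigma, hc, if_false]

lemma isCP_del {H : SimpleGraph V} {t : ℕ} {x y : V} (r : Setoid V) (h : H.Adj x y) :
    IsCP (H.deleteEdges {s(x, y)}) t r ↔ IsCP H t r ∧ ¬ r x y := by
  have hne := h.ne
  constructor
  · rintro ⟨h1, h2⟩
    refine ⟨⟨fun u v huv hne => (H.deleteEdges_le _) (h1 u v huv hne), h2⟩, ?_⟩
    intro hxy
    have := h1 x y hxy hne
    rw [deleteEdges_adj] at this
    exact this.2 rfl
  · rintro ⟨⟨h1, h2⟩, h3⟩
    refine ⟨fun u v huv hne => ?_, h2⟩
    rw [deleteEdges_adj]
    refine ⟨h1 u v huv hne, ?_⟩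
    intro h4
    rw [Set.mem_singleton_iff, Sym2.eq_iff] at h4
    rcases h4 with ⟨rfl, rfl⟩ | ⟨rfl, rfl⟩
    · exact h3 huv
    · exact h3 (r.symm huv)

/-- the recursion for the number of clique partitions -/
lemma cp_rec [Finite V] (H : SimpleGraph V) (t : ℕ) {x y : V} (h : H.Adj x y) :
    cp H t = cp (H.deleteEdges {s(x, y)}) t + cp (contr H x y) (t - 1) := by
  classical
  have hfin := finite_setoid V
  have hne := h.ne
  have h1 := Set.ncard_inter_add_ncard_diff_eq_ncard {r : Setoid V | IsCP H t r}
    {r : Setoid V | r x y} (Set.toFinite _)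
  have h2 : {r : Setoid V | IsCP H t r} \ {r : Setoid V | r x y} =
      {r : Setoid V | IsCP (H.deleteEdges {s(x, y)}) t r} := by
    ext r
    simp only [Set.mem_diff, Set.mem_ofPred_eq, isCP_del r h]
  rw [h2] at h1
  have h3 : ({r : Setoid V | IsCP H t r} ∩ {r : Setoid V | r x y}).ncard =
      {r : Setoid V | IsCP (contr H x y) (t - 1) r}.ncard := by
    have hy1 : ∀ r : Setoid V, IsCP (contr H x y) (t - 1) r → ∀ v, r y v → v = y := by
      intro r hr v hv
      by_contra hcon
      exact (hr.1 y v hv (Ne.symm hcon)).2.1 rfl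
    have hy2 : ∀ r : Setoid V, ∀ v, isolate r y y v → v = y := by
      rintro r v (h | ⟨_, h, _⟩)
      · exact h.symm
      · exact absurd rfl h
    have hs : ∀ r : Setoid V, r x y → (isolate r y).comap (sigma x y) = r := by
      intro r hr
      ext u v
      rw [Setoid.comap_rel, isolate_apply]
      have hσ : ∀ w, sigma x y w ≠ y := by
        intro w
        unfold sigma
        split_ifs with h
        · exact hne
        · exact h
      have hrσ : ∀ w, r (sigma x y w) w := by
        intro w
        unfold sigma
        split_ifs with h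
        · rw [h]; exact hr
        · exact r.refl w
      constructor
      · rintro (h | ⟨h, _, _⟩)
        · exact r.trans (r.symm (hrσ u)) (h ▸ hrσ v)
        · exact r.trans (r.symm (hrσ u)) (r.trans h (hrσ v))
      · intro h
        exact Or.inr ⟨r.trans (hrσ u) (r.trans h (r.symm (hrσ v))), hσ u, hσ v⟩
    symm
    apply Set.ncard_congr (fun r _ => r.comap (sigma x y))
    · intro r hr
      have hr' : IsCP (contr H x y) (t - 1) r := hr
      have h4 := card_quot_comap_sigma hne r (hy1 r hr')
      have h5 := card_quot_le r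
      refine ⟨⟨?_, ?_⟩, ?_⟩
      · intro u v huv huv'
        rw [Setoid.comap_rel] at huv
        unfold sigma at huv
        split_ifs at huv with hu hv hv
        · rw [hu, hv] at huv'
          exact absurd rfl huv'
        · subst hu
          by_cases hvx : x = v
          · rw [← hvx]; exact h.symm
          · exact ((hr'.1 _ _ huv hvx).2.2.2.1 rfl).symm
        · subst hv
          by_cases hux : u = x
          · rw [hux]; exact h
          · exact (hr'.1 _ _ huv hux).2.2.2.2 rfl
        · exact (hr'.1 _ _ huv huv').1
      · have := hr'.2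
        omega
      · change r (sigma x y x) (sigma x y y)
        simp only [sigma, hne, if_false, if_true]
        exact r.refl x
    · intro r s hr hs hrs
      have hr' : IsCP (contr H x y) (t - 1) r := hr
      have hs' : IsCP (contr H x y) (t - 1) s := hs
      have key : ∀ r s : Setoid V, IsCP (contr H x y) (t - 1) r →
          r.comap (sigma x y) = s.comap (sigma x y) → ∀ u v, r u v → s u v := by
        intro r s hr hrs u v huv
        by_cases hu : u = y
        · subst hu
          have := hy1 r hr v huv
          rw [this]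
        · by_cases hv : v = y
          · subst hv
            have := hy1 r hr u (r.symm huv)
            rw [this]
          · have h4 : (r.comap (sigma x y)) u v := by
              rw [Setoid.comap_rel]
              simpa only [sigma, hu, hv, if_false] using huv
            rw [hrs, Setoid.comap_rel] at h4
            simpa only [sigma, hu, hv, if_false] using h4
      ext u v
      exact ⟨key r s hr' hrs u v, key s r hs' hrs.symm u v⟩
    · rintro r ⟨hr, hxy⟩
      have hr' : IsCP H t r := hr
      have hxy' : r x y := hxy
      refine ⟨isolate r y, ⟨?_, ?_⟩, hs r hxy'⟩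
      · rintro u v (h4 | ⟨h4, hu, hv⟩) huv
        · exact absurd h4 huv
        · refine ⟨hr'.1 _ _ h4 huv, hu, hv, ?_, ?_⟩
          · rintro rfl
            exact hr'.1 _ _ (r.trans (r.symm h4) hxy') hv
          · rintro rfl
            exact hr'.1 _ _ (r.trans h4 hxy') hu
      · have h4 := card_quot_comap_sigma hne (isolate r y) (hy2 r)
        have h5 := card_quot_le (isolate r y)
        have h6 := hr'.2
        rw [hs r hxy'] at h4
        omega
  rw [h3] at h1
  unfold cp
  omega

end

end Pool.Agent.Lib.MP_70fc77_co
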