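import Mathlib
import Pool.Agent.Lib.MP_70fc77_co.Compl

set_option autoImplicit false

namespace Pool.Agent.Lib.MP_70fc77_co

open Finset SimpleGraph

variable {V : Type}

/-- the other neighbours of `x` and `y` -/
def wset (H : SimpleGraph V) (x y : V) : Set V := {z | z ≠ x ∧ z ≠ y ∧ (H.Adj x z ∨ H.Adj y z)}

open Classical in
noncomputable def lost (H : SimpleGraph V) (x y z : V) : Sym2 V :=
  if H.Adj y z then s(y, z) else s(x, z)

lemma contr_adj (H : SimpleGraph V) (x y u v : V) : (contr H x y).Adj u v ↔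
    H.Adj u v ∧ u ≠ y ∧ v ≠ y ∧ (u = x → H.Adj v y) ∧ (v = x → H.Adj u y) := Iff.rfl

lemma eN_delE [Finite V] {H : SimpleGraph V} {x y : V} (h : H.Adj x y) :
    eN (H.deleteEdges {s(x, y)}) + 1 = eN H := by
  unfold eN
  rw [edgeSet_deleteEdges]
  exact Set.ncard_sdiff_singleton_add_one (by simpa using h) (Set.toFinite _)

lemma eN_contr [Finite V] {H : SimpleGraph V} {x y : V} (h : H.Adj x y) :
    eN (contr H x y) + 1 + (wset H x y).ncard = eN H := by
  classical
  have hne := h.ne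
  have inj : Set.InjOn (lost H x y) (wset H x y) := by
    intro z hz w hw hzw
    obtain ⟨hz1, hz2, hz3⟩ := hz
    obtain ⟨hw1, hw2, hw3⟩ := hw
    unfold lost at hzw
    split_ifs at hzw <;> rw [Sym2.eq_iff] at hzw <;> rcases hzw with ⟨h1, h2⟩ | ⟨h1, h2⟩
    all_goals first
      | exact h2
      | exact absurd h1.symm hw2
      | exact absurd h1.symm hw1
      | exact absurd h1 hne
      | exact absurd h1.symm hne
  rw [← Set.ncard_image_of_injOn inj]
  have h1 : H.edgeSet = insert s(x, y) (contr H x y).edgeSet ∪ lost H x y '' wset H x y := by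
    ext e
    induction e using Sym2.ind with
    | h u v =>
      simp only [Set.mem_union, Set.mem_insert_iff, mem_edgeSet, Set.mem_image]
      constructor
      · intro huv
        by_cases he : s(u, v) = s(x, y)
        · exact Or.inl (Or.inl he)
        rw [Sym2.eq_iff] at he
        push Not at he
        by_cases hc : (contr H x y).Adj u v
        · exact Or.inl (Or.inr hc)
        right
        rw [contr_adj] at hc
        push Not at hc
        by_cases hu : u = y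
        · subst hu
          refine ⟨v, ⟨?_, huv.ne.symm, Or.inr huv⟩, ?_⟩
          · rintro rfl; exact he.2 rfl rfl
          · simp only [lost, huv, if_true]
        by_cases hv : v = y
        · subst hv
          refine ⟨u, ⟨?_, huv.ne, Or.inr huv.symm⟩, ?_⟩
          · rintro rfl; exact he.1 rfl rfl
          · simp only [lost, huv.symm, if_true]
            exact Sym2.eq_swap
        by_cases hux : u = x ∧ ¬ H.Adj v y
        · obtain ⟨rfl, h2⟩ := hux
          refine ⟨v, ⟨huv.ne.symm, hv, Or.inl huv⟩, ?_⟩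
          have : ¬ H.Adj y v := fun h => h2 h.symm
          simp only [lost, this, if_false]
        have h3 : v = x ∧ ¬ H.Adj u y := by
          have := hc huv hu hv
          push Not at hux
          exact this hux
        obtain ⟨rfl, h2⟩ := h3
        refine ⟨u, ⟨huv.ne, hu, Or.inl huv.symm⟩, ?_⟩
        have : ¬ H.Adj y u := fun h => h2 h.symm
        simp only [lost, this, if_false]
        exact Sym2.eq_swap
      · rintro ((h2 | h2) | ⟨z, ⟨hz1, hz2, hz3⟩, hz⟩)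
        · rw [← mem_edgeSet, h2, mem_edgeSet]; exact h
        · exact h2.1
        · rw [← mem_edgeSet, ← hz]
          unfold lost
          split_ifs with h4
          · exact h4
          · exact hz3.resolve_right h4
  have hnot1 : s(x, y) ∉ (contr H x y).edgeSet := by
    rw [mem_edgeSet, contr_adj]
    exact fun h => h.2.2.1 rfl
  have hdisj : Disjoint (insert s(x, y) (contr H x y).edgeSet) (lost H x y '' wset H x y) := by
    rw [Set.disjoint_left]
    rintro e (rfl | he) ⟨z, ⟨hz1, hz2, hz3⟩, hz⟩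
    · unfold lost at hz
      split_ifs at hz <;> rw [Sym2.eq_iff] at hz <;> rcases hz with ⟨h1, h2⟩ | ⟨h1, h2⟩
      · exact hz2 h2
      · exact hz1 h2
      · exact hz2 h2
      · exact hz1 h2
    · rw [← hz] at he
      unfold lost at he
      split_ifs at he with h4
      · exact he.2.1 rfl
      · exact h4 (he.2.2.2.1 rfl).symm
  unfold eN
  rw [h1, Set.ncard_union_eq hdisj (Set.toFinite _) (Set.toFinite _),
    Set.ncard_insert_of_notMem hnot1 (Set.toFinite _)]

/-- `v` has the two distinct neighbours `p` and `q` -/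
def Conf (H : SimpleGraph V) (v p q : V) : Prop := p ≠ q ∧ H.Adj v p ∧ H.Adj v q

lemma cp_of_eN_zero [Finite V] {H : SimpleGraph V} (t : ℕ) (h : eN H = 0) : cp H t = sg 0 t := by
  have hno : ∀ u v, ¬ H.Adj u v := by
    intro u v huv
    unfold eN at h
    rw [Set.ncard_eq_zero (Set.toFinite _)] at h
    have : s(u, v) ∈ H.edgeSet := huv
    rw [h] at this
    exact this
  have hbot : ∀ r : Setoid V, (∀ x y, r x y → x ≠ y → H.Adj x y) ↔ r = ⊥ := by
    intro r
    constructor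
    · intro hr
      ext u v
      constructor
      · intro huv
        by_contra hne
        exact hno u v (hr u v huv hne)
      · intro huv
        have : u = v := huv
        rw [this]
    · rintro rfl x y hxy hne
      exact absurd (show x = y from hxy) hne
  have hq : Nat.card (Quotient (⊥ : Setoid V)) = Nat.card V := by
    symm
    apply Nat.card_congr
    refine Equiv.ofBijective (Quotient.mk _) ⟨?_, Quotient.mk_surjective⟩
    intro a b hab
    exact (Quotient.exact hab : (⊥ : Setoid V) a b)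
  rw [sg_zero_left, cp]
  split_ifs with ht
  · subst ht
    have : {r : Setoid V | IsCP H 0 r} = {⊥} := by
      ext r
      simp only [Set.mem_ofPred_eq, Set.mem_singleton_iff, IsCP, hbot]
      constructor
      · exact fun h => h.1
      · rintro rfl
        exact ⟨rfl, by rw [hq]; omega⟩
    rw [this, Set.ncard_singleton]
  · have : {r : Setoid V | IsCP H t r} = ∅ := by
      ext r
      simp only [Set.mem_ofPred_eq, Set.mem_empty_iff_false, iff_false, IsCP, hbot]
      rintro ⟨rfl, h2⟩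
      rw [hq] at h2
      omega
    rw [this, Set.ncard_empty]

lemma exists_adj_of_eN_pos {H : SimpleGraph V} (h : eN H ≠ 0) : ∃ x y, H.Adj x y := by
  by_contra hcon
  push Not at hcon
  apply h
  have : H.edgeSet = ∅ := by
    ext e
    induction e using Sym2.ind with
    | h u v => simpa using hcon u v
  rw [eN, this, Set.ncard_empty]

/-- L0 -/
lemma cp_le [Finite V] : ∀ (e : ℕ) (H : SimpleGraph V) (t : ℕ), eN H ≤ e → cp H t ≤ sg e t := by
  intro e
  induction e with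
  | zero =>
    intro H t he
    rw [cp_of_eN_zero t (by omega)]
  | succ e ih =>
    intro H t he
    by_cases h0 : eN H = 0
    · exact (ih H t (by omega)).trans (sg_mono (by omega) t)
    · obtain ⟨x, y, hxy⟩ := exists_adj_of_eN_pos h0
      rw [cp_rec H t hxy, sg_succ]
      have h1 := eN_delE hxy
      have h2 := eN_contr hxy
      exact Nat.add_le_add (ih _ _ (by omega)) (ih _ _ (by omega))

lemma wset_one [Finite V] {H : SimpleGraph V} {x y z : V} (h : Conf H x y z) :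
    1 ≤ (wset H x y).ncard := by
  rw [Nat.one_le_iff_ne_zero, Ne, Set.ncard_eq_zero (Set.toFinite _)]
  intro h0
  have : z ∈ wset H x y := ⟨h.2.2.ne.symm, h.1.symm, Or.inl h.2.2⟩
  rw [h0] at this
  exact this

lemma wset_two [Finite V] {H : SimpleGraph V} {x y z w : V} (hzw : z ≠ w) (hz : z ∈ wset H x y)
    (hw : w ∈ wset H x y) : 2 ≤ (wset H x y).ncard := by
  rw [← Set.ncard_pair hzw]
  apply Set.ncard_le_ncard _ (Set.toFinite _)
  rintro a (rfl | rfl)
  · exact hz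
  · exact hw

/-- L1: a conflict -/
lemma cp_le_one [Finite V] {e : ℕ} {H : SimpleGraph V} {v p q : V} (t : ℕ) (h : Conf H v p q)
    (he : eN H ≤ e + 2) : cp H t ≤ sg (e + 1) t + sg e (t - 1) := by
  rw [cp_rec H t h.2.1]
  have h1 := eN_delE h.2.1
  have h2 := eN_contr h.2.1
  have h3 := wset_one h
  exact Nat.add_le_add (cp_le _ _ _ (by omega)) (cp_le _ _ _ (by omega))

lemma conf_del {H : SimpleGraph V} {v p q x y : V} (h : Conf H v p q)
    (h1 : s(v, p) ≠ s(x, y)) (h2 : s(v, q) ≠ s(x, y)) :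
    Conf (H.deleteEdges {s(x, y)}) v p q :=
  ⟨h.1, by rw [deleteEdges_adj]; exact ⟨h.2.1, h1⟩, by rw [deleteEdges_adj]; exact ⟨h.2.2, h2⟩⟩

lemma conf_contr {H : SimpleGraph V} {v p q x y : V} (h : Conf H v p q)
    (hvx : v ≠ x) (hvy : v ≠ y) (hpx : p ≠ x) (hpy : p ≠ y) (hqx : q ≠ x) (hqy : q ≠ y) :
    Conf (contr H x y) v p q :=
  ⟨h.1, ⟨h.2.1, hvy, hpy, fun h => absurd h hvx, fun h => absurd h hpx⟩,
    ⟨h.2.2, hvy, hqy, fun h => absurd h hvx, fun h => absurd h hqx⟩⟩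

/-- X: a bad edge -/
lemma cp_le_bad [Finite V] {e : ℕ} {H : SimpleGraph V} {x y z w v p q : V} (t : ℕ)
    (hxy : H.Adj x y) (hzw : z ≠ w) (hz : z ∈ wset H x y) (hw : w ∈ wset H x y)
    (h : Conf (H.deleteEdges {s(x, y)}) v p q)
    (he : eN H ≤ e + 1) : cp H t ≤ sg e t := by
  have h1 := eN_delE hxy
  have h2 := eN_contr hxy
  have h3 := wset_two hzw hz hw
  obtain ⟨e, rfl⟩ : ∃ e', e = e' + 2 := ⟨e - 2, by omega⟩
  rw [cp_rec H t hxy]
  have h4 := cp_le_one (e := e) t h (by omega)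
  have h5 := cp_le e (contr H x y) (t - 1) (by omega)
  rw [sg_succ (e + 1) t, sg_succ e (t - 1)]
  have h6 := sg_anti e (show t - 1 - 1 ≤ t - 1 by omega)
  omega

/-- T: a triangle and a further conflict -/
lemma cp_le_tri [Finite V] {e : ℕ} {H : SimpleGraph V} {x y z v p q : V} (t : ℕ)
    (hxy : H.Adj x y) (hxz : H.Adj x z) (hyz : H.Adj y z)
    (h : Conf H v p q) (hvx : v ≠ x) (hvy : v ≠ y) (hvz : v ≠ z) (hpx : p ≠ x) (hpy : p ≠ y)
    (hpz : p ≠ z) (hqx : q ≠ x) (hqy : q ≠ y) (hqz : q ≠ z)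
    (he : eN H ≤ e + 1) : cp H t ≤ sg e t := by
  have h1 := eN_delE hxy
  have h2 := eN_contr hxy
  have h3 : 1 ≤ (wset H x y).ncard := wset_one (⟨hyz.ne, hxy, hxz⟩ : Conf H x y z)
  have hxz' : (H.deleteEdges {s(x, y)}).Adj x z := by
    rw [deleteEdges_adj]
    refine ⟨hxz, ?_⟩
    rw [Set.mem_singleton_iff, Sym2.eq_iff]
    rintro (⟨_, h⟩ | ⟨_, h⟩)
    · exact hyz.ne h.symm
    · exact hxz.ne h.symm
  have hyz' : (H.deleteEdges {s(x, y)}).Adj y z := by
    rw [deleteEdges_adj]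
    refine ⟨hyz, ?_⟩
    rw [Set.mem_singleton_iff, Sym2.eq_iff]
    rintro (⟨h, _⟩ | ⟨_, h⟩)
    · exact hxy.ne h.symm
    · exact hxz.ne h.symm
  have hs : ∀ a b, v ≠ a → v ≠ b → s(v, p) ≠ s(a, b) := by
    intro a b ha hb h
    rw [Sym2.eq_iff] at h
    rcases h with ⟨h, _⟩ | ⟨h, _⟩
    · exact ha h
    · exact hb h
  have hs' : ∀ a b, v ≠ a → v ≠ b → s(v, q) ≠ s(a, b) := by
    intro a b ha hb h
    rw [Sym2.eq_iff] at h
    rcases h with ⟨h, _⟩ | ⟨h, _⟩
    · exact ha h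
    · exact hb h
  have hc1 : Conf (H.deleteEdges {s(x, y)}) v p q := conf_del h (hs x y hvx hvy) (hs' x y hvx hvy)
  have hc2 : Conf ((H.deleteEdges {s(x, y)}).deleteEdges {s(x, z)}) v p q :=
    conf_del hc1 (hs x z hvx hvz) (hs' x z hvx hvz)
  have hc3 : Conf (contr H x y) v p q := conf_contr h hvx hvy hpx hpy hqx hqy
  have hc4 : Conf (contr (H.deleteEdges {s(x, y)}) x z) v p q :=
    conf_contr hc1 hvx hvz hpx hpz hqx hqz
  have h4 := eN_delE hxz'
  have h5 := eN_contr hxz'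
  have h6 : 1 ≤ (wset (H.deleteEdges {s(x, y)}) x z).ncard := by
    rw [Nat.one_le_iff_ne_zero, Ne, Set.ncard_eq_zero (Set.toFinite _)]
    intro h0
    have : y ∈ wset (H.deleteEdges {s(x, y)}) x z := ⟨hxy.ne.symm, hyz.ne, Or.inr hyz'.symm⟩
    rw [h0] at this
    exact this
  have h7 := eN_delE hc2.2.1
  have h8 := eN_contr hc4.2.1
  have h9 := wset_one hc4
  obtain ⟨e, rfl⟩ : ∃ e', e = e' + 4 := ⟨e - 4, by omega⟩
  rw [cp_rec H t hxy, cp_rec _ t hxz']
  have h10 : _ ≤ sg (e + 2) t + sg (e + 1) (t - 1) := cp_le_one (e := e + 1) t hc2 (by omega)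
  have h11 : _ ≤ sg (e + 1) (t - 1) + sg e (t - 1 - 1) :=
    cp_le_one (e := e) (t - 1) hc4 (by omega)
  have h12 : _ ≤ sg (e + 2) (t - 1) + sg (e + 1) (t - 1 - 1) :=
    cp_le_one (e := e + 1) (t - 1) hc3 (by omega)
  have a1 : sg (e + 4) t = sg (e + 3) t + sg (e + 3) (t - 1) := sg_succ (e + 3) t
  have a2 : sg (e + 3) t = sg (e + 2) t + sg (e + 2) (t - 1) := sg_succ (e + 2) t
  have a3 : sg (e + 3) (t - 1) = sg (e + 2) (t - 1) + sg (e + 2) (t - 1 - 1) :=
    sg_succ (e + 2) (t - 1)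
  have a4 : sg (e + 2) (t - 1) = sg (e + 1) (t - 1) + sg (e + 1) (t - 1 - 1) :=
    sg_succ (e + 1) (t - 1)
  have a5 : sg (e + 2) (t - 1 - 1) = sg (e + 1) (t - 1 - 1) + sg (e + 1) (t - 1 - 1 - 1) :=
    sg_succ (e + 1) (t - 1 - 1)
  have a6 := sg_anti (e + 1) (show t - 1 - 1 ≤ t - 1 by omega)
  have a7 := sg_anti (e + 1) (show t - 1 - 1 - 1 ≤ t - 1 - 1 by omega)
  have a8 := sg_mono (show e ≤ e + 1 by omega) (t - 1 - 1)
  omega

/-- F2: two disjoint conflicts -/
lemma cp_le_two [Finite V] {e : ℕ} {H : SimpleGraph V} {v p q v' p' q' : V} (t : ℕ)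
    (h : Conf H v p q) (h' : Conf H v' p' q')
    (hvv : v' ≠ v) (hvp : v' ≠ p) (hpv : p' ≠ v) (hpp : p' ≠ p) (hqv : q' ≠ v) (hqp : q' ≠ p)
    (he : eN H ≤ e + 4) :
    cp H t ≤ sg (e + 2) t + 2 * sg (e + 1) (t - 1) + sg e (t - 1 - 1) := by
  have h1 := eN_delE h.2.1
  have h2 := eN_contr h.2.1
  have h3 := wset_one h
  have hc1 : Conf (H.deleteEdges {s(v, p)}) v' p' q' := by
    apply conf_del h'
    · intro h; rw [Sym2.eq_iff] at h; rcases h with ⟨h, _⟩ | ⟨h, _⟩
      · exact hvv h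
      · exact hvp h
    · intro h; rw [Sym2.eq_iff] at h; rcases h with ⟨h, _⟩ | ⟨h, _⟩
      · exact hvv h
      · exact hvp h
  have hc2 : Conf (contr H v p) v' p' q' := conf_contr h' hvv hvp hpv hpp hqv hqp
  rw [cp_rec H t h.2.1]
  have h4 : _ ≤ sg (e + 2) t + sg (e + 1) (t - 1) := cp_le_one (e := e + 1) t hc1 (by omega)
  have h5 : _ ≤ sg (e + 1) (t - 1) + sg e (t - 1 - 1) :=
    cp_le_one (e := e) (t - 1) hc2 (by omega)
  omega

/-- F3: three disjoint conflicts -/
lemma cp_le_three [Finite V] {e : ℕ} {H : SimpleGraph V} {v p q v' p' q' v'' p'' q'' : V} (t : ℕ)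
    (h : Conf H v p q) (h' : Conf H v' p' q') (h'' : Conf H v'' p'' q'')
    (hvv : v' ≠ v) (hvp : v' ≠ p) (hpv : p' ≠ v) (hpp : p' ≠ p) (hqv : q' ≠ v) (hqp : q' ≠ p)
    (hvv' : v'' ≠ v) (hvp' : v'' ≠ p) (hpv' : p'' ≠ v) (hpp' : p'' ≠ p) (hqv' : q'' ≠ v)
    (hqp' : q'' ≠ p)
    (hvv'' : v'' ≠ v') (hvp'' : v'' ≠ p') (hpv'' : p'' ≠ v') (hpp'' : p'' ≠ p') (hqv'' : q'' ≠ v')
    (hqp'' : q'' ≠ p')
    (he : eN H ≤ e + 6) :
    cp H t ≤ sg (e + 5) t := by
  have h1 := eN_delE h.2.1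
  have h2 := eN_contr h.2.1
  have h3 := wset_one h
  have hs : ∀ a b, a ≠ v → a ≠ p → s(a, b) ≠ s(v, p) := by
    intro a b ha hb h
    rw [Sym2.eq_iff] at h
    rcases h with ⟨h, _⟩ | ⟨h, _⟩
    · exact ha h
    · exact hb h
  have hc1 : Conf (H.deleteEdges {s(v, p)}) v' p' q' :=
    conf_del h' (hs _ _ hvv hvp) (hs _ _ hvv hvp)
  have hc1' : Conf (H.deleteEdges {s(v, p)}) v'' p'' q'' :=
    conf_del h'' (hs _ _ hvv' hvp') (hs _ _ hvv' hvp')
  have hc2 : Conf (contr H v p) v' p' q' := conf_contr h' hvv hvp hpv hpp hqv hqp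
  have hc2' : Conf (contr H v p) v'' p'' q'' := conf_contr h'' hvv' hvp' hpv' hpp' hqv' hqp'
  rw [cp_rec H t h.2.1]
  have h4 : _ ≤ sg (e + 3) t + 2 * sg (e + 2) (t - 1) + sg (e + 1) (t - 1 - 1) :=
    cp_le_two (e := e + 1) t hc1 hc1' hvv'' hvp'' hpv'' hpp'' hqv'' hqp'' (by omega)
  have h5 : _ ≤ sg (e + 2) (t - 1) + 2 * sg (e + 1) (t - 1 - 1) + sg e (t - 1 - 1 - 1) :=
    cp_le_two (e := e) (t - 1) hc2 hc2' hvv'' hvp'' hpv'' hpp'' hqv'' hqp'' (by omega)
  have a1 : sg (e + 5) t = sg (e + 4) t + sg (e + 4) (t - 1) := sg_succ (e + 4) t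
  have a2 : sg (e + 4) t = sg (e + 3) t + sg (e + 3) (t - 1) := sg_succ (e + 3) t
  have a3 : sg (e + 4) (t - 1) = sg (e + 3) (t - 1) + sg (e + 3) (t - 1 - 1) :=
    sg_succ (e + 3) (t - 1)
  have a4 : sg (e + 3) (t - 1) = sg (e + 2) (t - 1) + sg (e + 2) (t - 1 - 1) :=
    sg_succ (e + 2) (t - 1)
  have a5 : sg (e + 3) (t - 1 - 1) = sg (e + 2) (t - 1 - 1) + sg (e + 2) (t - 1 - 1 - 1) :=
    sg_succ (e + 2) (t - 1 - 1)
  have a6 : sg (e + 2) (t - 1 - 1) = sg (e + 1) (t - 1 - 1) + sg (e + 1) (t - 1 - 1 - 1) :=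
    sg_succ (e + 1) (t - 1 - 1)
  have a7 := sg_anti (e + 2) (show t - 1 - 1 ≤ t - 1 by omega)
  have a8 := sg_anti (e + 1) (show t - 1 - 1 - 1 ≤ t - 1 - 1 by omega)
  have a9 := sg_mono (show e ≤ e + 2 by omega) (t - 1 - 1 - 1)
  omega

end Pool.Agent.Lib.MP_70fc77_co
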