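import Mathlib
import Pool.Agent.Lib.MP_70fc77_co.Compl2

set_option autoImplicit false

namespace Pool.Agent.Lib.MP_70fc77_co

open Finset SimpleGraph

variable {V : Type}

/-- `v` has at most one neighbour -/
def Deg1 (H : SimpleGraph V) (v : V) : Prop := ∀ p q, H.Adj v p → H.Adj v q → p = q

lemma Deg1.mono {H H' : SimpleGraph V} (hle : H' ≤ H) {v : V} (h : Deg1 H v) : Deg1 H' v :=
  fun p q hp hq => h p q (hle hp) (hle hq)

lemma contr_le (H : SimpleGraph V) (x y : V) : contr H x y ≤ H := fun _ _ h => h.1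

lemma wset_empty {H : SimpleGraph V} {x y : V} (h : H.Adj x y) (hx : Deg1 H x) (hy : Deg1 H y) :
    wset H x y = ∅ := by
  ext z
  simp only [Set.mem_empty_iff_false, iff_false]
  rintro ⟨h1, h2, h3 | h3⟩
  · exact h2 (hx z y h3 h)
  · exact h1 (hy z x h3 h.symm)

lemma cp_M0 [Finite V] : ∀ (e : ℕ) (H : SimpleGraph V) (t : ℕ), (∀ v, Deg1 H v) → eN H = e →
    cp H t = sg e t := by
  intro e
  induction e with
  | zero => intro H t _ he; exact cp_of_eN_zero t he
  | succ e ih =>
    intro H t h he
    obtain ⟨x, y, hxy⟩ := exists_adj_of_eN_pos (H := H) (by omega)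
    have h1 := eN_delE hxy
    have h2 := eN_contr hxy
    rw [wset_empty hxy (h x) (h y), Set.ncard_empty] at h2
    rw [cp_rec H t hxy, sg_succ,
      ih _ t (fun v => (h v).mono (H.deleteEdges_le _)) (by omega),
      ih _ (t - 1) (fun v => (h v).mono (contr_le H x y)) (by omega)]

lemma cp_M1 [Finite V] {e : ℕ} {H : SimpleGraph V} {v p q : V} (t : ℕ) (h : Conf H v p q)
    (hv : ∀ r, H.Adj v r → r = p ∨ r = q) (hd : ∀ w, w ≠ v → Deg1 H w) (he : eN H = e + 2) :
    cp H t = sg (e + 1) t + sg e (t - 1) := by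
  have h1 := eN_delE h.2.1
  have h2 := eN_contr h.2.1
  have hw : wset H v p = {q} := by
    ext z
    simp only [Set.mem_singleton_iff]
    constructor
    · rintro ⟨h3, h4, h5 | h5⟩
      · exact (hv z h5).resolve_left h4
      · exact absurd (hd p h.2.1.ne.symm z v h5 h.2.1.symm) h3
    · rintro rfl
      exact ⟨h.2.2.ne.symm, h.1.symm, Or.inl h.2.2⟩
  rw [hw, Set.ncard_singleton] at h2
  rw [cp_rec H t h.2.1, cp_M0 (e + 1) (H.deleteEdges {s(v, p)}) t _ (by omega),
    cp_M0 e (contr H v p) (t - 1) _ (by omega)]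
  · intro w
    by_cases hwv : w = v
    · subst hwv
      intro a b ha hb
      have ha' := (hv a ha.1).resolve_left ha.2.2.1
      have hb' := (hv b hb.1).resolve_left hb.2.2.1
      rw [ha', hb']
    · exact (hd w hwv).mono (contr_le _ _ _)
  · intro w
    by_cases hwv : w = v
    · subst hwv
      have key : ∀ a, (H.deleteEdges {s(w, p)}).Adj w a → a = q := by
        intro a ha
        rw [deleteEdges_adj] at ha
        rcases hv a ha.1 with rfl | h
        · exact absurd rfl ha.2
        · exact h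
      intro a b ha hb
      rw [key a ha, key b hb]
    · exact (hd w hwv).mono (H.deleteEdges_le _)

lemma cp_M2 [Finite V] {e : ℕ} {H : SimpleGraph V} {v p q v' p' q' : V} (t : ℕ)
    (h : Conf H v p q) (h' : Conf H v' p' q') (hvv : ¬ H.Adj v v') (hne : v ≠ v')
    (hv : ∀ r, H.Adj v r → r = p ∨ r = q) (hv' : ∀ r, H.Adj v' r → r = p' ∨ r = q')
    (hd : ∀ w, w ≠ v → w ≠ v' → Deg1 H w) (he : eN H = e + 4) :
    cp H t = sg (e + 2) t + 2 * sg (e + 1) (t - 1) + sg e (t - 1 - 1) := by
  have h1 := eN_delE h.2.1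
  have h2 := eN_contr h.2.1
  have hpv : p ≠ v := h.2.1.ne.symm
  have hpv' : p ≠ v' := by rintro rfl; exact hvv h.2.1
  have hdp : Deg1 H p := hd p hpv hpv'
  have hp1 : p' ≠ p := by rintro rfl; exact hne (hdp _ _ h.2.1.symm h'.2.1.symm)
  have hp2 : q' ≠ p := by rintro rfl; exact hne (hdp _ _ h.2.1.symm h'.2.2.symm)
  have hp3 : p' ≠ v := by rintro rfl; exact hvv h'.2.1.symm
  have hp4 : q' ≠ v := by rintro rfl; exact hvv h'.2.2.symm
  have hw : wset H v p = {q} := by
    ext z
    simp only [Set.mem_singleton_iff]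
    constructor
    · rintro ⟨h3, h4, h5 | h5⟩
      · exact (hv z h5).resolve_left h4
      · exact absurd (hdp z v h5 h.2.1.symm) h3
    · rintro rfl
      exact ⟨h.2.2.ne.symm, h.1.symm, Or.inl h.2.2⟩
  rw [hw, Set.ncard_singleton] at h2
  have hs : ∀ b, s(v', b) ≠ s(v, p) := by
    intro b h
    rw [Sym2.eq_iff] at h
    rcases h with ⟨h, _⟩ | ⟨h, _⟩
    · exact hne h.symm
    · exact hpv' h.symm
  have hc1 : Conf (H.deleteEdges {s(v, p)}) v' p' q' := conf_del h' (hs _) (hs _)
  have hc2 : Conf (contr H v p) v' p' q' := conf_contr h' hne.symm hpv'.symm hp3 hp1 hp4 hp2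
  have e1 : cp (H.deleteEdges {s(v, p)}) t = sg (e + 2) t + sg (e + 1) (t - 1) := by
    apply cp_M1 t hc1 (fun r hr => hv' r (H.deleteEdges_le _ hr)) _ (by omega)
    intro w hw
    by_cases hwv : w = v
    · subst hwv
      have key : ∀ a, (H.deleteEdges {s(w, p)}).Adj w a → a = q := by
        intro a ha
        rw [deleteEdges_adj] at ha
        rcases hv a ha.1 with rfl | h
        · exact absurd rfl ha.2
        · exact h
      intro a b ha hb
      rw [key a ha, key b hb]
    · exact (hd w hwv hw).mono (H.deleteEdges_le _)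
  have e2 : cp (contr H v p) (t - 1) = sg (e + 1) (t - 1) + sg e (t - 1 - 1) := by
    apply cp_M1 (t - 1) hc2 (fun r hr => hv' r (contr_le H _ _ hr)) _ (by omega)
    intro w hw
    by_cases hwv : w = v
    · subst hwv
      intro a b ha hb
      have ha' := (hv a ha.1).resolve_left ha.2.2.1
      have hb' := (hv b hb.1).resolve_left hb.2.2.1
      rw [ha', hb']
    · exact (hd w hwv hw).mono (contr_le _ _ _)
  rw [cp_rec H t h.2.1, e1, e2]
  ring

/-- path on four vertices `a x y b` -/
lemma cp_P4 [Finite V] {e : ℕ} {H : SimpleGraph V} {x y a b : V} (t : ℕ)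
    (hxy : H.Adj x y) (hxa : H.Adj x a) (hyb : H.Adj y b) (hay : a ≠ y) (hbx : b ≠ x)
    (hab : a ≠ b)
    (hx : ∀ r, H.Adj x r → r = y ∨ r = a) (hy : ∀ r, H.Adj y r → r = x ∨ r = b)
    (hd : ∀ w, w ≠ x → w ≠ y → Deg1 H w) (he : eN H = e + 3) :
    cp H t = sg (e + 2) t + sg e (t - 1) := by
  have h1 := eN_delE hxy
  have h2 := eN_contr hxy
  have hw : wset H x y = {a, b} := by
    ext z
    simp only [Set.mem_singleton_iff, Set.mem_insert_iff]
    constructor
    · rintro ⟨h3, h4, h5 | h5⟩
      · exact Or.inl ((hx z h5).resolve_left h4)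
      · exact Or.inr ((hy z h5).resolve_left h3)
    · rintro (rfl | rfl)
      · exact ⟨hxa.ne.symm, hay, Or.inl hxa⟩
      · exact ⟨hbx, hyb.ne.symm, Or.inr hyb⟩
  rw [hw, Set.ncard_pair hab] at h2
  rw [cp_rec H t hxy, cp_M0 (e + 2) (H.deleteEdges {s(x, y)}) t _ (by omega),
    cp_M0 e (contr H x y) (t - 1) _ (by omega)]
  · intro w
    by_cases hwx : w = x
    · subst hwx
      intro r s hr _
      have h3 := (hx r hr.1).resolve_left hr.2.2.1
      subst h3
      have h4 := hr.2.2.2.1 rfl
      rcases hy _ h4.symm with h5 | h5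
      · exact absurd h5 hxa.ne.symm
      · exact absurd h5 hab
    · by_cases hwy : w = y
      · subst hwy
        intro r s hr _
        exact absurd rfl hr.2.1
      · exact (hd w hwx hwy).mono (contr_le _ _ _)
  · intro w
    by_cases hwx : w = x
    · subst hwx
      have key : ∀ r, (H.deleteEdges {s(w, y)}).Adj w r → r = a := by
        intro r hr
        rw [deleteEdges_adj] at hr
        rcases hx r hr.1 with rfl | h
        · exact absurd rfl hr.2
        · exact h
      intro r s hr hs
      rw [key r hr, key s hs]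
    · by_cases hwy : w = y
      · subst hwy
        have key : ∀ r, (H.deleteEdges {s(x, w)}).Adj w r → r = b := by
          intro r hr
          rw [deleteEdges_adj] at hr
          rcases hy r hr.1 with rfl | h
          · exact absurd Sym2.eq_swap hr.2
          · exact h
        intro r s hr hs
        rw [key r hr, key s hs]
      · exact (hd w hwx hwy).mono (H.deleteEdges_le _)

/-- triangle -/
lemma cp_K3 [Finite V] {e : ℕ} {H : SimpleGraph V} {x y z : V} (t : ℕ)
    (hxy : H.Adj x y) (hxz : H.Adj x z) (hyz : H.Adj y z)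
    (hx : ∀ r, H.Adj x r → r = y ∨ r = z) (hy : ∀ r, H.Adj y r → r = x ∨ r = z)
    (hz : ∀ r, H.Adj z r → r = x ∨ r = y)
    (hd : ∀ w, w ≠ x → w ≠ y → w ≠ z → Deg1 H w) (he : eN H = e + 3) :
    cp H t = sg (e + 2) t + sg e (t - 1) := by
  have h1 := eN_delE hxy
  have h2 := eN_contr hxy
  have hw : wset H x y = {z} := by
    ext r
    simp only [Set.mem_singleton_iff]
    constructor
    · rintro ⟨h3, h4, h5 | h5⟩
      · exact (hx r h5).resolve_left h4
      · exact (hy r h5).resolve_left h3
    · rintro rfl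
      exact ⟨hxz.ne.symm, hyz.ne.symm, Or.inl hxz⟩
  rw [hw, Set.ncard_singleton] at h2
  have hc1 : Conf (H.deleteEdges {s(x, y)}) z x y := by
    refine ⟨hxy.ne, ?_, ?_⟩
    · rw [deleteEdges_adj]
      refine ⟨hxz.symm, ?_⟩
      rw [Set.mem_singleton_iff, Sym2.eq_iff]
      rintro (⟨h, _⟩ | ⟨h, _⟩)
      · exact hxz.ne h.symm
      · exact hyz.ne h.symm
    · rw [deleteEdges_adj]
      refine ⟨hyz.symm, ?_⟩
      rw [Set.mem_singleton_iff, Sym2.eq_iff]
      rintro (⟨h, _⟩ | ⟨h, _⟩)
      · exact hxz.ne h.symm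
      · exact hyz.ne h.symm
  have e1 : cp (H.deleteEdges {s(x, y)}) t = sg (e + 1) t + sg e (t - 1) := by
    apply cp_M1 t hc1 (fun r hr => hz r (H.deleteEdges_le _ hr)) _ (by omega)
    intro w hwz
    by_cases hwx : w = x
    · subst hwx
      have key : ∀ r, (H.deleteEdges {s(w, y)}).Adj w r → r = z := by
        intro r hr
        rw [deleteEdges_adj] at hr
        rcases hx r hr.1 with rfl | h
        · exact absurd rfl hr.2
        · exact h
      intro r s hr hs
      rw [key r hr, key s hs]
    · by_cases hwy : w = y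
      · subst hwy
        have key : ∀ r, (H.deleteEdges {s(x, w)}).Adj w r → r = z := by
          intro r hr
          rw [deleteEdges_adj] at hr
          rcases hy r hr.1 with rfl | h
          · exact absurd Sym2.eq_swap hr.2
          · exact h
        intro r s hr hs
        rw [key r hr, key s hs]
      · exact (hd w hwx hwy hwz).mono (H.deleteEdges_le _)
  have e2 : cp (contr H x y) (t - 1) = sg (e + 1) (t - 1) := by
    apply cp_M0 (e + 1) _ _ _ (by omega)
    intro w
    by_cases hwx : w = x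
    · subst hwx
      intro r s hr hs
      rw [(hx r hr.1).resolve_left hr.2.2.1, (hx s hs.1).resolve_left hs.2.2.1]
    · by_cases hwy : w = y
      · subst hwy
        intro r s hr _
        exact absurd rfl hr.2.1
      · by_cases hwz : w = z
        · subst hwz
          intro r s hr hs
          rw [(hz r hr.1).resolve_right hr.2.2.1, (hz s hs.1).resolve_right hs.2.2.1]
        · exact (hd w hwx hwy hwz).mono (contr_le _ _ _)
  rw [cp_rec H t hxy, e1, e2]
  have : sg (e + 2) t = sg (e + 1) t + sg (e + 1) (t - 1) := sg_succ (e + 1) t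
  omega

end Pool.Agent.Lib.MP_70fc77_co
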