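import Mathlib
import Pool.Agent.Lib.MP_70fc77_co.Compl3
import Pool.Agent.Lib.MP_70fc77_co.TypeDefs

set_option autoImplicit false

namespace Pool.Agent.Lib.MP_70fc77_co

open Finset SimpleGraph

variable {V : Type}

lemma conf_of_two {H : SimpleGraph V} {v : V} (h : (H.neighborSet v).ncard = 2) :
    ∃ p q, Conf H v p q ∧ ∀ r, H.Adj v r → r = p ∨ r = q := by
  obtain ⟨p, q, hpq, hs⟩ := Set.ncard_eq_two.1 h
  refine ⟨p, q, ⟨hpq, ?_, ?_⟩, ?_⟩
  · have : p ∈ H.neighborSet v := by rw [hs]; exact Or.inl rfl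
    exact this
  · have : q ∈ H.neighborSet v := by rw [hs]; exact Or.inr rfl
    exact this
  · intro r hr
    have : r ∈ H.neighborSet v := hr
    rw [hs] at this
    exact this

lemma other_nbr {H : SimpleGraph V} {v y : V} (h : (H.neighborSet v).ncard = 2) (hy : H.Adj v y) :
    ∃ a, a ≠ y ∧ H.Adj v a ∧ ∀ r, H.Adj v r → r = y ∨ r = a := by
  obtain ⟨p, q, ⟨hpq, hp, hq⟩, hr⟩ := conf_of_two h
  rcases hr y hy with rfl | rfl
  · exact ⟨q, hpq.symm, hq, hr⟩
  · exact ⟨p, hpq, hp, fun r h => (hr r h).symm⟩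

lemma two_of_conf [Finite V] {H : SimpleGraph V} {v p q : V} (h : Conf H v p q)
    (hmax : (H.neighborSet v).ncard ≤ 2) : (H.neighborSet v).ncard = 2 := by
  apply le_antisymm hmax
  rw [← Set.ncard_pair h.1]
  apply Set.ncard_le_ncard _ (Set.toFinite _)
  rintro a (rfl | rfl)
  · exact h.2.1
  · exact h.2.2

lemma deg1_of_ne [Finite V] {H : SimpleGraph V} {v : V} (hmax : (H.neighborSet v).ncard ≤ 2)
    (h : (H.neighborSet v).ncard ≠ 2) : Deg1 H v := by
  intro p q hp hq
  by_contra hne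
  exact h (two_of_conf ⟨hne, hp, hq⟩ hmax)

lemma two_le_eN [Finite V] {H : SimpleGraph V} {v p q : V} (h : Conf H v p q) : 2 ≤ eN H := by
  have h1 := eN_contr h.2.1
  have h2 := wset_one h
  omega

section

variable [Finite V] {H : SimpleGraph V}

/-- the set of vertices of degree two -/
def S2 (H : SimpleGraph V) : Set V := {v | (H.neighborSet v).ncard = 2}

lemma exact0 {m t : ℕ} (hm : eN H = m) (hmax : ∀ v, (H.neighborSet v).ncard ≤ 2)
    (hS : S2 H = ∅) : cp H t = sg m t := by
  apply cp_M0 m H t _ hm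
  intro v
  apply deg1_of_ne (hmax v)
  intro h
  have : v ∈ S2 H := h
  rw [hS] at this
  exact this

lemma exact1 {m t : ℕ} (hm : eN H = m) (hmax : ∀ v, (H.neighborSet v).ncard ≤ 2)
    (hS : (S2 H).ncard = 1) : cp H t = sg (m - 1) t + sg (m - 2) (t - 1) := by
  obtain ⟨v, hv⟩ := Set.ncard_eq_one.1 hS
  have hvS : (H.neighborSet v).ncard = 2 := by
    have : v ∈ S2 H := by rw [hv]; rfl
    exact this
  obtain ⟨p, q, hc, hr⟩ := conf_of_two hvS
  have h2 := two_le_eN hc
  obtain ⟨e, rfl⟩ : ∃ e, m = e + 2 := ⟨m - 2, by omega⟩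
  rw [cp_M1 (e := e) t hc hr _ hm]
  · simp
  · intro w hw
    apply deg1_of_ne (hmax w)
    intro h
    have : w ∈ S2 H := h
    rw [hv] at this
    exact hw this

lemma exact2 {m t : ℕ} (hm : eN H = m) (hmax : ∀ v, (H.neighborSet v).ncard ≤ 2)
    (hS : (S2 H).ncard = 2) (hadj : ∀ x ∈ S2 H, ∀ y ∈ S2 H, ¬ H.Adj x y) :
    cp H t = sg (m - 2) t + 2 * sg (m - 3) (t - 1) + sg (m - 4) (t - 2) := by
  obtain ⟨v, w, hvw, hv⟩ := Set.ncard_eq_two.1 hS
  have hvS : v ∈ S2 H := by rw [hv]; exact Or.inl rfl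
  have hwS : w ∈ S2 H := by rw [hv]; exact Or.inr rfl
  obtain ⟨p, q, hc, hr⟩ := conf_of_two (v := v) (H := H) hvS
  obtain ⟨p', q', hc', hr'⟩ := conf_of_two (v := w) (H := H) hwS
  have hpw : p ≠ w := by rintro rfl; exact hadj _ hvS _ hwS hc.2.1
  have hp'v : p' ≠ v := by rintro rfl; exact hadj _ hvS _ hwS hc'.2.1.symm
  have hq'v : q' ≠ v := by rintro rfl; exact hadj _ hvS _ hwS hc'.2.2.symm
  have hd : ∀ u, u ≠ v → u ≠ w → Deg1 H u := by
    intro u hu hu'
    apply deg1_of_ne (hmax u)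
    intro h
    have : u ∈ S2 H := h
    rw [hv] at this
    rcases this with h | h
    · exact hu h
    · exact hu' h
  have hdp := hd p hc.2.1.ne.symm hpw
  have hp'p : p' ≠ p := by rintro rfl; exact hvw (hdp _ _ hc.2.1.symm hc'.2.1.symm)
  have hq'p : q' ≠ p := by rintro rfl; exact hvw (hdp _ _ hc.2.1.symm hc'.2.2.symm)
  have h4 : 4 ≤ eN H := by
    have h1 := eN_contr hc.2.1
    have h2 := wset_one hc
    have h3 := two_le_eN (conf_contr hc' hvw.symm hpw.symm hp'v hp'p hq'v hq'p)
    omega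
  obtain ⟨e, rfl⟩ : ∃ e, m = e + 4 := ⟨m - 4, by omega⟩
  rw [cp_M2 (e := e) t hc hc' (hadj _ hvS _ hwS) hvw hr hr' hd hm]
  have e1 : e + 4 - 2 = e + 2 := by omega
  have e2 : e + 4 - 3 = e + 1 := by omega
  have e3 : e + 4 - 4 = e := by omega
  have e4 : t - 1 - 1 = t - 2 := by omega
  rw [e1, e2, e3, e4]

lemma exact3 {m t : ℕ} (hm : eN H = m) (hmax : ∀ v, (H.neighborSet v).ncard ≤ 2)
    (hS : (S2 H).ncard = 2 ∨ (S2 H).ncard = 3)
    (hadj : ∀ x ∈ S2 H, ∀ y ∈ S2 H, x ≠ y → H.Adj x y) :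
    cp H t = sg (m - 1) t + sg (m - 3) (t - 1) := by
  rcases hS with hS | hS
  · obtain ⟨x, y, hxy, hv⟩ := Set.ncard_eq_two.1 hS
    have hxS : x ∈ S2 H := by rw [hv]; exact Or.inl rfl
    have hyS : y ∈ S2 H := by rw [hv]; exact Or.inr rfl
    have hA := hadj x hxS y hyS hxy
    obtain ⟨a, hay, hxa, hrx⟩ := other_nbr (v := x) (H := H) hxS hA
    obtain ⟨b, hbx, hyb, hry⟩ := other_nbr (v := y) (H := H) hyS hA.symm
    have hd : ∀ u, u ≠ x → u ≠ y → Deg1 H u := by
      intro u hu hu'
      apply deg1_of_ne (hmax u)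
      intro h
      have : u ∈ S2 H := h
      rw [hv] at this
      rcases this with h | h
      · exact hu h
      · exact hu' h
    have hab : a ≠ b := by
      rintro rfl
      exact hxy (hd a hbx hay _ _ hxa.symm hyb.symm)
    have h3 : 3 ≤ eN H := by
      have h1 := eN_contr hA
      have h2 := wset_two (x := x) (y := y) hab ⟨hxa.ne.symm, hay, Or.inl hxa⟩
        ⟨hbx, hyb.ne.symm, Or.inr hyb⟩
      omega
    obtain ⟨e, rfl⟩ : ∃ e, m = e + 3 := ⟨m - 3, by omega⟩
    rw [cp_P4 (e := e) t hA hxa hyb hay hbx hab hrx hry hd hm]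
    simp
  · obtain ⟨x, y, z, hxy, hxz, hyz, hv⟩ := Set.ncard_eq_three.1 hS
    have hxS : x ∈ S2 H := by rw [hv]; simp
    have hyS : y ∈ S2 H := by rw [hv]; simp
    have hzS : z ∈ S2 H := by rw [hv]; simp
    have h1 := hadj x hxS y hyS hxy
    have h2 := hadj x hxS z hzS hxz
    have h3 := hadj y hyS z hzS hyz
    obtain ⟨a, hay, hxa, hrx⟩ := other_nbr (v := x) (H := H) hxS h1
    have ha : z = a := (hrx z h2).resolve_left hyz.symm
    obtain ⟨b, hbx, hyb, hry⟩ := other_nbr (v := y) (H := H) hyS h1.symm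
    have hb : z = b := (hry z h3).resolve_left hxz.symm
    obtain ⟨c, hcx, hzc, hrz⟩ := other_nbr (v := z) (H := H) hzS h2.symm
    have hc : y = c := (hrz y h3.symm).resolve_left hxy.symm
    subst ha hb hc
    have h5 : 3 ≤ eN H := by
      have h6 := eN_contr h1
      have h7 := wset_one (⟨hyz, h1, h2⟩ : Conf H x y z)
      have h8 : (contr H x y).Adj x z :=
        ⟨h2, hxy, hyz.symm, fun _ => h3.symm, fun h => absurd h hxz.symm⟩
      have h9 : 1 ≤ eN (contr H x y) := by
        have := eN_delE h8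
        omega
      omega
    obtain ⟨e, rfl⟩ : ∃ e, m = e + 3 := ⟨m - 3, by omega⟩
    rw [cp_K3 (e := e) t h1 h2 h3 hrx hry hrz _ hm]
    · simp
    · intro u hu hu' hu''
      apply deg1_of_ne (hmax u)
      intro h
      have : u ∈ S2 H := h
      rw [hv] at this
      simp only [Set.mem_insert_iff, Set.mem_singleton_iff] at this
      rcases this with h | h | h
      · exact hu h
      · exact hu' h
      · exact hu'' h

lemma maxdeg {e t d : ℕ} (hm : eN H ≤ e + 1) (hmin : sg e t < d) (hd : d ≤ cp H t) (v : V) :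
    (H.neighborSet v).ncard ≤ 2 := by
  by_contra hcon
  push Not at hcon
  obtain ⟨a, b, c, ha, hb, hc, hab, hac, hbc⟩ := (Set.two_lt_ncard_iff (Set.toFinite _)).1 hcon
  have ha' : H.Adj v a := ha
  have hb' : H.Adj v b := hb
  have hc' : H.Adj v c := hc
  have h1 := cp_le_bad (e := e) (x := v) (y := a) (z := b) (w := c) (v := v) (p := b) (q := c) t
    ha' hbc ⟨hb'.ne.symm, hab.symm, Or.inl hb'⟩ ⟨hc'.ne.symm, hac.symm, Or.inl hc'⟩
    (conf_del ⟨hbc, hb', hc'⟩ (by
      intro h; rw [Sym2.eq_iff] at h; rcases h with ⟨_, h⟩ | ⟨h, _⟩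
      · exact hab h.symm
      · exact ha'.ne h) (by
      intro h; rw [Sym2.eq_iff] at h; rcases h with ⟨_, h⟩ | ⟨h, _⟩
      · exact hac h.symm
      · exact ha'.ne h)) hm
  omega

/-- the possible structures -/
lemma struct {e t d : ℕ} (hm : eN H ≤ e + 1) (hmin : sg e t < d) (hd : d ≤ cp H t) :
    S2 H = ∅ ∨ (S2 H).ncard = 1 ∨
    ((S2 H).ncard = 2 ∧ ∀ x ∈ S2 H, ∀ y ∈ S2 H, ¬ H.Adj x y) ∨
    (((S2 H).ncard = 2 ∨ (S2 H).ncard = 3) ∧ ∀ x ∈ S2 H, ∀ y ∈ S2 H, x ≠ y → H.Adj x y) := by
  have hmax := maxdeg hm hmin hd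
  by_cases hA : ∃ x ∈ S2 H, ∃ y ∈ S2 H, H.Adj x y
  · right; right; right
    obtain ⟨x, hxS, y, hyS, hA⟩ := hA
    obtain ⟨a, hay, hxa, hrx⟩ := other_nbr (v := x) (H := H) hxS hA
    obtain ⟨b, hbx, hyb, hry⟩ := other_nbr (v := y) (H := H) hyS hA.symm
    by_cases hab : a = b
    · subst hab
      have haS : a ∈ S2 H := two_of_conf (⟨hA.ne, hxa.symm, hyb.symm⟩ : Conf H a x y) (hmax a)
      obtain ⟨a', ha'x, haa', hra⟩ := other_nbr (v := a) (H := H) haS hxa.symm
      have ha' : y = a' := (hra y hyb.symm).resolve_left hA.ne.symm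
      subst ha'
      have hsub : S2 H = {x, y, a} := by
        apply Set.Subset.antisymm
        · intro v hv
          by_contra hcon
          simp only [Set.mem_insert_iff, Set.mem_singleton_iff, not_or] at hcon
          obtain ⟨p, q, hc, _⟩ := conf_of_two (v := v) (H := H) hv
          have key : ∀ p, H.Adj v p → p ≠ x ∧ p ≠ y ∧ p ≠ a := by
            intro p hp
            refine ⟨?_, ?_, ?_⟩
            · rintro rfl
              rcases hrx v hp.symm with h | h
              · exact hcon.2.1 h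
              · exact hcon.2.2 h
            · rintro rfl
              rcases hry v hp.symm with h | h
              · exact hcon.1 h
              · exact hcon.2.2 h
            · rintro rfl
              rcases hra v hp.symm with h | h
              · exact hcon.1 h
              · exact hcon.2.1 h
          obtain ⟨h1, h2, h3⟩ := key p hc.2.1
          obtain ⟨h4, h5, h6⟩ := key q hc.2.2
          have := cp_le_tri (e := e) t hA hxa hyb hc hcon.1 hcon.2.1 hcon.2.2 h1 h2 h3 h4 h5 h6 hm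
          omega
        · rintro v (rfl | rfl | rfl)
          · exact hxS
          · exact hyS
          · exact haS
      refine ⟨Or.inr ?_, ?_⟩
      · rw [hsub]
        exact Set.ncard_eq_three.2 ⟨x, y, a, hA.ne, hxa.ne, hyb.ne, rfl⟩
      · rw [hsub]
        rintro u (rfl | rfl | rfl) v (rfl | rfl | rfl) huv
        · exact absurd rfl huv
        · exact hA
        · exact hxa
        · exact hA.symm
        · exact absurd rfl huv
        · exact hyb
        · exact hxa.symm
        · exact hyb.symm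
        · exact absurd rfl huv
    · have hsub : S2 H = {x, y} := by
        apply Set.Subset.antisymm
        · intro v hv
          by_contra hcon
          simp only [Set.mem_insert_iff, Set.mem_singleton_iff, not_or] at hcon
          obtain ⟨p, q, hc, _⟩ := conf_of_two (v := v) (H := H) hv
          have hs : ∀ b, s(v, b) ≠ s(x, y) := by
            intro b h
            rw [Sym2.eq_iff] at h
            rcases h with ⟨h, _⟩ | ⟨h, _⟩
            · exact hcon.1 h
            · exact hcon.2 h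
          have := cp_le_bad (e := e) (x := x) (y := y) (z := a) (w := b) t hA hab
            ⟨hxa.ne.symm, hay, Or.inl hxa⟩ ⟨hbx, hyb.ne.symm, Or.inr hyb⟩
            (conf_del hc (hs p) (hs q)) hm
          omega
        · rintro v (rfl | rfl)
          · exact hxS
          · exact hyS
      refine ⟨Or.inl ?_, ?_⟩
      · rw [hsub]
        exact Set.ncard_pair hA.ne
      · rw [hsub]
        rintro u (rfl | rfl) v (rfl | rfl) huv
        · exact absurd rfl huv
        · exact hA
        · exact hA.symm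
        · exact absurd rfl huv
  · push Not at hA
    have hle : (S2 H).ncard ≤ 2 := by
      by_contra hcon
      push Not at hcon
      obtain ⟨u, v, w, hu, hv, hw, huv, huw, hvw⟩ :=
        (Set.two_lt_ncard_iff (Set.toFinite _)).1 hcon
      obtain ⟨p, q, hc, hr⟩ := conf_of_two (v := u) (H := H) hu
      obtain ⟨p', q', hc', hr'⟩ := conf_of_two (v := v) (H := H) hv
      obtain ⟨p'', q'', hc'', hr''⟩ := conf_of_two (v := w) (H := H) hw
      have hdeg : ∀ s ∈ S2 H, ∀ r, H.Adj s r → Deg1 H r := by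
        intro s hs r hsr
        exact deg1_of_ne (hmax r) (fun h => hA s hs r h hsr)
      have hne1 : ∀ s ∈ S2 H, ∀ s' ∈ S2 H, ∀ r, H.Adj s r → r ≠ s' := by
        rintro s hs s' hs' r hsr rfl
        exact hA s hs _ hs' hsr
      have hne2 : ∀ s ∈ S2 H, ∀ s', s ≠ s' → ∀ r r', H.Adj s r → H.Adj s' r' → r' ≠ r := by
        rintro s hs s' hss r r' hsr hsr' rfl
        exact hss (hdeg s hs _ hsr _ _ hsr.symm hsr'.symm)
      have := cp_le_three (e := e + 1 - 6) (H := H) t hc hc' hc'' huv.symm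
        (hne1 u hu v hv p hc.2.1).symm (hne1 v hv u hu p' hc'.2.1)
        (hne2 u hu v huv p p' hc.2.1 hc'.2.1)
        (hne1 v hv u hu q' hc'.2.2) (hne2 u hu v huv p q' hc.2.1 hc'.2.2)
        huw.symm (hne1 u hu w hw p hc.2.1).symm (hne1 w hw u hu p'' hc''.2.1)
        (hne2 u hu w huw p p'' hc.2.1 hc''.2.1)
        (hne1 w hw u hu q'' hc''.2.2) (hne2 u hu w huw p q'' hc.2.1 hc''.2.2)
        hvw.symm (hne1 v hv w hw p' hc'.2.1).symm (hne1 w hw v hv p'' hc''.2.1)
        (hne2 v hv w hvw p' p'' hc'.2.1 hc''.2.1)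
        (hne1 w hw v hv q'' hc''.2.2) (hne2 v hv w hvw p' q'' hc'.2.1 hc''.2.2) (by omega)
      have h6 : 6 ≤ eN H := by
        have a1 := eN_contr hc.2.1
        have a2 := wset_one hc
        have c1 := conf_contr hc' huv.symm (hne1 u hu v hv p hc.2.1).symm
          (hne1 v hv u hu p' hc'.2.1) (hne2 u hu v huv p p' hc.2.1 hc'.2.1)
          (hne1 v hv u hu q' hc'.2.2) (hne2 u hu v huv p q' hc.2.1 hc'.2.2)
        have c2 := conf_contr hc'' huw.symm (hne1 u hu w hw p hc.2.1).symm
          (hne1 w hw u hu p'' hc''.2.1) (hne2 u hu w huw p p'' hc.2.1 hc''.2.1)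
          (hne1 w hw u hu q'' hc''.2.2) (hne2 u hu w huw p q'' hc.2.1 hc''.2.2)
        have a3 := eN_contr c1.2.1
        have a4 := wset_one c1
        have c3 := conf_contr c2 hvw.symm (hne1 v hv w hw p' hc'.2.1).symm
          (hne1 w hw v hv p'' hc''.2.1) (hne2 v hv w hvw p' p'' hc'.2.1 hc''.2.1)
          (hne1 w hw v hv q'' hc''.2.2) (hne2 v hv w hvw p' q'' hc'.2.1 hc''.2.2)
        have a5 := two_le_eN c3
        omega
      have h7 : e + 1 - 6 + 5 = e := by omega
      rw [h7] at this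
      omega
    rcases Nat.lt_or_ge (S2 H).ncard 1 with h | h
    · left
      exact (Set.ncard_eq_zero (Set.toFinite _)).1 (by omega)
    · rcases Nat.lt_or_ge (S2 H).ncard 2 with h' | h'
      · right; left; omega
      · right; right; left
        exact ⟨by omega, fun x hx y hy => hA x hx y hy⟩

end

lemma numCol_eq_cp {n : ℕ} (G : SimpleGraph (Fin n)) (k : ℕ) : numCol G k = cp Gᶜ (n - k) := by
  have h : ∀ r : Setoid (Fin n), IsColouring G k r ↔ IsCP Gᶜ (n - k) r := by
    intro r
    have hc := card_quot_le r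
    unfold IsColouring IsCP
    rw [Nat.card_eq_fintype_card (α := Fin n), Fintype.card_fin] at hc ⊢
    constructor
    · rintro ⟨h1, h2⟩
      exact ⟨fun x y hxy hne => ⟨hne, h1 x y hxy⟩, by omega⟩
    · rintro ⟨h1, h2⟩
      refine ⟨fun x y hxy hadj => (h1 x y hxy hadj.ne).2 hadj, by omega⟩
  unfold numCol cp
  rw [← Nat.card_coe_set_eq]
  exact Nat.card_congr (Equiv.subtypeEquivRight h)

theorem main4 {d k n : ℕ} (G : SimpleGraph (Fin n)) :
    (MaxFoldColourable d k G ∧ eN G = n.choose 2 - minEdges d (n - k)) ↔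
      TypeM G d (minEdges d (n - k)) (n - k) := by
  have hspec : d ≤ sg (minEdges d (n - k)) (n - k) := minEdges_spec d (n - k)
  have hmin : ∀ e, e < minEdges d (n - k) → sg e (n - k) < d := by
    intro e he
    have h1 := Nat.notMem_of_lt_sInf he
    simp only [Set.mem_ofPred_eq, not_le] at h1
    exact h1
  have hcard := eN_compl G
  rw [Fintype.card_fin] at hcard
  have hup : ∀ {H : SimpleGraph (Fin n)}, FoldColourable d k H →
      eN H + minEdges d (n - k) ≤ n.choose 2 := fun hH => upperC _ ((fold_iff _ d k).1 hH)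
  constructor
  · rintro ⟨hG, he⟩
    have h1 := (fold_iff G d k).1 hG.1
    have h2 := hup hG.1
    rw [numCol_eq_cp] at h1
    have hm : eN Gᶜ = minEdges d (n - k) := by omega
    generalize minEdges d (n - k) = m at *
    generalize n - k = t at *
    rcases Nat.eq_zero_or_pos m with h0 | hpos
    · subst h0
      have hno : ∀ u v, ¬ Gᶜ.Adj u v := by
        intro u v huv
        unfold eN at hm
        rw [Set.ncard_eq_zero (Set.toFinite _)] at hm
        have : s(u, v) ∈ Gᶜ.edgeSet := huv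
        rw [hm] at this
        exact this
      have hn0 : ∀ v, (Gᶜ.neighborSet v).ncard = 0 := by
        intro v
        rw [Set.ncard_eq_zero (Set.toFinite _)]
        ext u
        simp only [Set.mem_empty_iff_false, iff_false]
        exact hno v u
      refine ⟨hm, fun v => by rw [hn0]; omega, _, rfl, Or.inl ?_⟩
      ext v
      simp [hn0]
    · obtain ⟨e, rfl⟩ : ∃ e, m = e + 1 := ⟨m - 1, by omega⟩
      have hmin' := hmin e (by omega)
      have hmax := maxdeg hm.le hmin' h1
      refine ⟨hm, hmax, _, rfl, ?_⟩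
      rcases struct hm.le hmin' h1 with h | h | ⟨h, h'⟩ | ⟨h, h'⟩
      · exact Or.inl h
      · rw [exact1 hm hmax h] at h1
        exact Or.inr (Or.inl ⟨h, h1⟩)
      · rw [exact2 hm hmax h h'] at h1
        exact Or.inr (Or.inr (Or.inl ⟨h, h', h1⟩))
      · rw [exact3 hm hmax h h'] at h1
        exact Or.inr (Or.inr (Or.inr ⟨h, h', h1⟩))
  · rintro ⟨hm, hmax, S, rfl, hS⟩
    have hm' : eN Gᶜ = minEdges d (n - k) := hm
    have h1 : d ≤ cp Gᶜ (n - k) := by
      rcases hS with h | ⟨h, h1⟩ | ⟨h, h', h1⟩ | ⟨h, h', h1⟩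
      · rw [exact0 hm' hmax h]
        exact hspec
      · rw [exact1 hm' hmax h]
        exact h1
      · rw [exact2 hm' hmax h h']
        exact h1
      · rw [exact3 hm' hmax h h']
        exact h1
    have h2 : FoldColourable d k G := by
      rw [fold_iff, numCol_eq_cp]
      exact h1
    have h3 : eN G = n.choose 2 - minEdges d (n - k) := by omega
    refine ⟨⟨h2, ?_⟩, h3⟩
    intro x y hxy hadj hfold
    have h4 := hup hfold
    rw [eN_sup_edge G hxy hadj] at h4
    omega

end Pool.Agent.Lib.MP_70fc77_co
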