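import Mathlib
import Pool.Agent.Lib.MP_70fc77_co.Classify3
import Pool.Agent.Lib.MP_70fc77_co.Compl4

set_option autoImplicit false

namespace Pool.Agent.Lib.MP_70fc77_co

open Finset SimpleGraph

lemma all_le_fValue {d k n : ℕ} (hd : 2 ≤ d) (hk : 2 ≤ k) (G : SimpleGraph (Fin n))
    (hG : FoldColourable d k G) : eN G ≤ fValue d n k := by
  unfold fValue
  split_ifs with h1 h2
  · rw [ex_eq _ _ (by omega)]
    have := upper hk n _ G (Fintype.card_fin n) (hyp_of_fold hd hG)
    omega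
  · rw [ex_eq _ _ (by omega)]
    exact upper_small hk n _ G (Fintype.card_fin n) (by omega) (hyp_of_fold hd hG)
  · have := upperC G ((fold_iff G d k).1 hG)
    omega

theorem iff_value {d k n : ℕ} (hd : 2 ≤ d) (hk : 2 ≤ k) (G : SimpleGraph (Fin n)) :
    (MaxFoldColourable d k G ∧ eN G = fValue d n k) ↔ IsExtremal d k G := by
  unfold fValue IsExtremal
  split_ifs with h1 h2
  · rw [← main2 hd hk h1 G, ex_eq _ _ (by omega)]
    have h2 : n * Nat.clog 2 d ≤ tau k (n + Nat.clog 2 d) := by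
      obtain ⟨G', p, a, F, h, _⟩ := exists_typeA hk h1
      have := reduced_eN h
      rw [Fintype.card_fin] at this
      omega
    constructor
    · rintro ⟨h3, h4⟩; exact ⟨h3, by omega⟩
    · rintro ⟨h3, h4⟩; exact ⟨h3, by omega⟩
  · rw [← main3 hd hk (by omega) h2 G, ex_eq _ _ (by omega)]
  · exact main4 G

theorem main5 {d k n : ℕ} (hd : 2 ≤ d) (hk : 2 ≤ k)
    (hn : 2 * d ≤ n + 2 ∨ (k - 1) * Nat.clog 2 d < n ∨ d ≤ turanColourings n (k - 1) ∨
      ∃ H : SimpleGraph (Fin n), IsExtremal d k H) (G : SimpleGraph (Fin n)) :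
    (MaxFoldColourable d k G ∧ IsGreatest (edgeCounts d n k) G.edgeSet.ncard) ↔
      IsExtremal d k G := by
  have hgr : IsGreatest (edgeCounts d n k) (fValue d n k) := by
    rcases hn with h | h | h | ⟨H, hH⟩
    · exact main1 hd hk (Or.inl h)
    · exact main1 hd hk (Or.inr (Or.inl h))
    · exact main1 hd hk (Or.inr (Or.inr (Or.inl h)))
    · have h1 := (iff_value hd hk H).2 hH
      refine ⟨⟨H, h1.1, h1.2⟩, ?_⟩
      rintro e ⟨G', hG', rfl⟩
      exact all_le_fValue hd hk G' hG'.1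
  rw [← iff_value hd hk G]
  constructor
  · rintro ⟨h1, h2⟩
    exact ⟨h1, h2.unique hgr⟩
  · rintro ⟨h1, h2⟩
    refine ⟨h1, ?_⟩
    have h3 : G.edgeSet.ncard = fValue d n k := h2
    rw [h3]
    exact hgr

end Pool.Agent.Lib.MP_70fc77_co
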